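import Pool.Agent.H88.Ust.Mass

/-!
# The area below the curve
-/

namespace Pool.Agent.H88.Ust

variable {c m : ℕ} {f f₁ f₂ g : Pt → Fin 4} {y : ℤ}

/-- Number of vertices of a column below the shifted walk. -/
theorem col_count (hc : 2 ≤ c) (hf : f ∈ LA c m) {x : ℤ} (hx : 1 ≤ x) (hxc : x ≤ c)
    (h1 : 1 ≤ y - m) (h2 : y + m ≤ 2 * (c : ℤ) - 1) :
    ((((Finset.Icc (1 : ℤ) (2 * c)).filter fun v => Even (crs (wl c m f) x (v - y))).card : ℕ) : ℤ)
      = (y - m) + ((Finset.Icc (-(m : ℤ) + 1) m).filter fun v => Even (crs (wl c m f) x v)).card := by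
  have hU : ((Finset.Icc (1 : ℤ) (2 * c)).filter fun v => Even (crs (wl c m f) x (v - y))) =
      Finset.Icc 1 (y - m) ∪ (((Finset.Icc (-(m : ℤ) + 1) m).filter fun v =>
        Even (crs (wl c m f) x v)).map (Equiv.addRight y).toEmbedding) := by
    ext v
    simp only [Finset.mem_filter, Finset.mem_Icc, Finset.mem_union, Finset.mem_map,
      Equiv.coe_toEmbedding, Equiv.coe_addRight]
    constructor
    · rintro ⟨hv, he⟩
      by_cases h : v ≤ y - m
      · exact Or.inl ⟨hv.1, h⟩
      · right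
        have h3 : v - y ≤ m := by
          by_contra hcon
          exact wl_top hc hf hx hxc (v := v - y) (by omega) he
        exact ⟨v - y, ⟨by omega, he⟩, by ring⟩
    · rintro (hv | ⟨w, ⟨hw, he⟩, rfl⟩)
      · refine ⟨by omega, ?_⟩
        rw [wl_bot hc hf (by omega)]
        exact ⟨0, rfl⟩
      · refine ⟨by omega, ?_⟩
        rwa [add_sub_cancel_right]
  rw [hU, Finset.card_union_of_disjoint, Finset.card_map, Int.card_Icc]
  · push_cast
    omega
  · rw [Finset.disjoint_left]
    intro v hv hv'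
    simp only [Finset.mem_filter, Finset.mem_Icc, Finset.mem_map,
      Equiv.coe_toEmbedding, Equiv.coe_addRight] at hv hv'
    obtain ⟨w, ⟨hw, -⟩, rfl⟩ := hv'
    omega

/-- Everything about a configuration with prescribed arrows. -/
theorem good_of (hc : 2 ≤ c) (hf₁ : f₁ ∈ LA c m) (hf₂ : f₂ ∈ LA c m) (h1 : 1 ≤ y - m)
    (h2 : y + m ≤ 2 * (c : ℤ) - 1)
    (hy : (relf c m f₁ : ℤ) + relf c m f₂ = 2 * c * (m + c - y))
    (hg : g ∈ AF nbr (faces (2 * c))) (hgf : ∀ x ∈ eta c m y f₁ f₂, g x = f0 c y f₁ f₂ x) :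
    Good c y g ∧
    pl nbr (faces (2 * c)) g ((c : ℤ) - 1, y) =
      (pl nbr (win c m) f₁ ((c : ℤ) - 1, 0)).map (shE y) ∧
    pl nbr (faces (2 * c)) g ((c : ℤ) + 1, y) =
      (pl nbr (win c m) f₂ ((c : ℤ) - 1, 0)).map (miE c y) := by
  have hL := left_walk (g := g) hf₁ h1 h2 fun q hq => by
    rw [hgf _ (mem_eta.2 (Or.inr (Or.inl ⟨q, hq, rfl⟩))), f0_sh (et_sub hq)]
  have hR := right_walk (g := g) hf₂ h1 h2 fun q hq => by
    rw [hgf _ (mem_eta.2 (Or.inr (Or.inr ⟨q, hq, rfl⟩))), f0_mi (et_sub hq)]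
  have hgo : g ((c : ℤ), y) = 1 := by
    rw [hgf _ (mem_eta.2 (Or.inl rfl))]
    simp [f0]
  have hst : stp nbr g ((c : ℤ), y) = ((c : ℤ) - 1, y) := by
    rw [stp, hgo]; rfl
  have hoD : (((c : ℤ), y) : Pt) ∈ faces (2 * c) := by
    rw [mem_faces]; push_cast; omega
  have hLo : LvAt nbr (faces (2 * c)) g ((c : ℤ), y) := (LvAt.stp_iff hoD).2 (by
    rw [hst]; exact hL.1)
  have hlw : lw c g y = (wl c m f₁).map (shE y) := by
    rw [lw, pl_mem hLo hoD, hst, hL.2.2, wl, List.map_cons]
    congr 1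
    simp [shE]
  have hrw : (((c : ℤ), y) : Pt) :: rw' c g y = (wl c m f₂).map (miE c y) := by
    rw [rw', hR.2.2, wl, List.map_cons]
    congr 1
    simp [miE]; ring
  have hw1 := wl_mem hc hf₁
  have hw2 := wl_mem hc hf₂
  have hb2 := LA_walk hc hf₂
  refine ⟨⟨hg, by omega, ?_, ?_, ?_, ?_, ?_⟩, hL.2.2, hR.2.2⟩
  · intro p hp
    rw [hlw, List.mem_map] at hp
    obtain ⟨q, hq, rfl⟩ := hp
    have := hw1 q hq
    simp only [shE, Equiv.coe_fn_mk]
    omega
  · rw [ex_mem hLo hoD, hst, hL.2.1]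
    simp only [shE, Equiv.coe_fn_mk]
    exact (mem_LA.1 hf₁).2
  · intro p hp
    rw [rw', hR.2.2, List.mem_map] at hp
    obtain ⟨q, hq, rfl⟩ := hp
    have := hb2 q hq
    simp only [miE, Equiv.coe_fn_mk]
    omega
  · rw [hR.2.1]
    simp only [miE, Equiv.coe_fn_mk]
    rw [(mem_LA.1 hf₂).2, sub_zero]
  · -- the area
    rw [hlw, hrw]
    have hz : ((((Finset.Icc (1 : ℤ) (2 * c) ×ˢ Finset.Icc (1 : ℤ) (2 * c)).filter fun p =>
        Even (crs ((wl c m f₁).map (shE y)) p.1 p.2 +
          crs ((wl c m f₂).map (miE c y)) p.1 p.2)).card : ℕ) : ℤ) = 2 * c * c := by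
      rw [Finset.card_filter, Finset.sum_product]
      have hsplit : Finset.Icc (1 : ℤ) (2 * c) = Finset.Icc 1 (c : ℤ) ∪ Finset.Icc ((c : ℤ) + 1) (2 * c) := by
        ext x
        simp only [Finset.mem_Icc, Finset.mem_union]
        omega
      have hdis : Disjoint (Finset.Icc 1 (c : ℤ)) (Finset.Icc ((c : ℤ) + 1) (2 * c)) := by
        rw [Finset.disjoint_left]
        intro x hx hx'
        simp only [Finset.mem_Icc] at hx hx'
        omega
      have hA : ∀ x ∈ Finset.Icc 1 (c : ℤ),
          (((∑ v ∈ Finset.Icc (1 : ℤ) (2 * c), if Even (crs ((wl c m f₁).map (shE y)) x v +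
            crs ((wl c m f₂).map (miE c y)) x v) then 1 else 0 : ℕ)) : ℤ) =
          (y - m) + ((Finset.Icc (-(m : ℤ) + 1) m).filter fun v =>
            Even (crs (wl c m f₁) x v)).card := by
        intro x hx
        rw [Finset.mem_Icc] at hx
        rw [← col_count hc hf₁ hx.1 hx.2 h1 h2, Finset.card_filter]
        congr 1
        refine Finset.sum_congr rfl fun v _ => ?_
        have e1 : crs ((wl c m f₂).map (miE c y)) x v = 0 := by
          apply crs_right
          intro p hp
          rw [List.mem_map] at hp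
          obtain ⟨q, hq, rfl⟩ := hp
          have := hw2 q hq
          simp only [miE, Equiv.coe_fn_mk]
          omega
        have e2 : crs ((wl c m f₁).map (shE y)) x v = crs (wl c m f₁) x (v - y) :=
          crs_shift y _ x v
        rw [e1, e2, add_zero]
      have hB : ∀ x ∈ Finset.Icc ((c : ℤ) + 1) (2 * c),
          (((∑ v ∈ Finset.Icc (1 : ℤ) (2 * c), if Even (crs ((wl c m f₁).map (shE y)) x v +
            crs ((wl c m f₂).map (miE c y)) x v) then 1 else 0 : ℕ)) : ℤ) =
          (y - m) + ((Finset.Icc (-(m : ℤ) + 1) m).filter fun v =>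
            Even (crs (wl c m f₂) (2 * c + 1 - x) v)).card := by
        intro x hx
        rw [Finset.mem_Icc] at hx
        rw [← col_count hc hf₂ (x := 2 * c + 1 - x) (by omega) (by omega) h1 h2,
          Finset.card_filter]
        congr 1
        refine Finset.sum_congr rfl fun v _ => ?_
        have e1 : crs ((wl c m f₁).map (shE y)) x v = 0 := by
          apply crs_left
          intro p hp
          rw [List.mem_map] at hp
          obtain ⟨q, hq, rfl⟩ := hp
          have := hw1 q hq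
          simp only [shE, Equiv.coe_fn_mk]
          omega
        have e2 : crs ((wl c m f₂).map (miE c y)) x v = crs (wl c m f₂) (2 * c + 1 - x) (v - y) :=
          crs_mirror c y _ x v
        rw [e1, e2, zero_add]
      push_cast
      rw [hsplit, Finset.sum_union hdis]
      rw [← hsplit]
      push_cast at hA hB
      rw [Finset.sum_congr rfl hA, Finset.sum_congr rfl hB, Finset.sum_add_distrib,
        Finset.sum_add_distrib, Finset.sum_const, Finset.sum_const, Int.card_Icc, Int.card_Icc]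
      have e3 : ∑ x ∈ Finset.Icc 1 (c : ℤ), (((Finset.Icc (-(m : ℤ) + 1) m).filter fun v =>
            Even (crs (wl c m f₁) x v)).card : ℤ) = relf c m f₁ := by
        rw [relf_eq, rel]; push_cast; rfl
      have e4 : ∑ x ∈ Finset.Icc ((c : ℤ) + 1) (2 * c), (((Finset.Icc (-(m : ℤ) + 1) m).filter fun v =>
            Even (crs (wl c m f₂) (2 * c + 1 - x) v)).card : ℤ) = relf c m f₂ := by
        rw [relf_eq, rel]
        push_cast
        refine Finset.sum_bij' (fun x _ => 2 * (c : ℤ) + 1 - x) (fun x _ => 2 * (c : ℤ) + 1 - x)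
          ?_ ?_ ?_ ?_ ?_
        · intro x hx
          rw [Finset.mem_Icc] at hx ⊢
          omega
        · intro x hx
          rw [Finset.mem_Icc] at hx ⊢
          omega
        · intro x _; ring
        · intro x _; ring
        · intro x _; rfl
      rw [e3, e4]
      have e5 : ((c : ℤ) + 1 - 1).toNat = c := by omega
      have e6 : (2 * (c : ℤ) + 1 - (c + 1)).toNat = c := by omega
      rw [e5, e6]
      simp only [nsmul_eq_mul]
      linarith [hy, show 2 * (c : ℤ) * (m + c - y) = 2 * c * m + 2 * c * c - 2 * c * y by ring,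
        show (c : ℤ) * (y - m) = c * y - c * m by ring]
    exact_mod_cast hz

end Pool.Agent.H88.Ust
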