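import Pool.Agent.H88.Ust.Harm

/-!
# Counting arrow configurations: insertion of a point, submodularity, prescribed arrows
-/

namespace Pool.Agent.H88.Ust

variable {P : Type*} {nb : Fin 4 → P → P} {S T : Finset P} {f g : P → Fin 4} {x y z v : P}

/-- The constant configuration `0` may be used as a witness: some configuration exists. -/
def Pos (nb : Fin 4 → P → P) : Prop := ∀ S : Finset P, 0 < cnt nb S

theorem cnt_pos_anti [DecidableEq P] (hST : S ⊆ T) (h : 0 < cnt nb T) : 0 < cnt nb S := by
  rw [cnt, Finset.card_pos] at h ⊢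
  obtain ⟨f, hf⟩ := h
  rw [mem_AF] at hf
  refine ⟨fun x => if x ∈ S then f x else 0, ?_⟩
  rw [mem_AF]
  refine ⟨fun x hx => if_neg hx, fun x => ?_⟩
  exact (walk_congr_on ((hf.2 x).anti hST) fun y hy => if_pos hy).1

/-- Configurations on `insert v S`. -/
theorem insert_iff [DecidableEq P] (hv : v ∉ S) {f : P → Fin 4} (hf : f ∈ AF nb S) (d : Fin 4) :
    Function.update f v d ∈ AF nb (insert v S) ↔ ex nb S f (nb d v) ≠ v := by
  classical
  rw [mem_AF] at hf
  set g := Function.update f v d with hg
  have hgS : ∀ y ∈ S, g y = f y := fun y hy => by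
    have : y ≠ v := fun h => hv (h ▸ hy)
    rw [hg, Function.update_of_ne this]
  have hgv : stp nb g v = nb d v := by simp [stp, hg]
  have hw : ∀ x, LvAt nb S g x ∧ ex nb S g x = ex nb S f x ∧ pl nb S g x = pl nb S f x ∧
      tau nb S g x = tau nb S f x := fun x => walk_congr_on (hf.2 x) hgS
  have hvI : v ∈ insert v S := Finset.mem_insert_self _ _
  rw [mem_AF]
  constructor
  · rintro ⟨-, hL⟩ he
    have h1 : LvAt nb (insert v S) g v := hL v
    have h2 := not_mem_pl_stp h1 hvI
    rw [hgv] at h2
    -- the walk from `nb d v` up to the exit of `S` visits `v`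
    have key : ∀ x, LvAt nb S g x → ex nb S g x = v → v ∈ pl nb (insert v S) g x := by
      apply lv_induct
      · intro x hx hxv
        rw [ex_not_mem hx] at hxv
        rw [hxv]; exact self_mem_pl (hL v)
      · intro x hx h ih hxv
        rw [ex_mem h hx] at hxv
        rw [pl_mem (hL x) (Finset.mem_insert_of_mem hx)]
        exact List.mem_cons_of_mem _ (ih hxv)
    exact h2 (key _ (hw _).1 (by rw [(hw _).2.1, he]))
  · intro he
    refine ⟨fun x hx => ?_, fun x => ?_⟩
    · rw [Finset.mem_insert, not_or] at hx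
      rw [hg, Function.update_of_ne hx.1]
      exact hf.1 x hx.2
    · -- from `nb d v` we leave `insert v S`
      have h1 : ∀ x, LvAt nb S g x → ex nb S g x ≠ v → LvAt nb (insert v S) g x := by
        intro x hx hne
        refine lv_of_ex (Finset.subset_insert _ _) hx (lv_of_not_mem ?_)
        rw [Finset.mem_insert, not_or]
        exact ⟨hne, ex_nmem hx⟩
      have h2 : LvAt nb (insert v S) g v := by
        refine (LvAt.stp_iff hvI).2 ?_
        rw [hgv]
        exact h1 _ (hw _).1 (by rw [(hw _).2.1]; exact he)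
      by_cases hx : ex nb S g x = v
      · exact lv_of_ex (Finset.subset_insert _ _) (hw x).1 (by rw [hx]; exact h2)
      · exact h1 x (hw x).1 hx

open Classical in
theorem cnt_insert_eq (hv : v ∉ S) :
    cnt nb (insert v S) =
      ((AF nb S ×ˢ (Finset.univ : Finset (Fin 4))).filter
        fun q => ex nb S q.1 (nb q.2 v) ≠ v).card := by
  rw [cnt]
  refine Finset.card_bij' (fun g _ => (Function.update g v 0, g v))
    (fun q _ => Function.update q.1 v q.2) ?_ ?_ ?_ ?_
  · intro g hg
    have hm : Function.update g v 0 ∈ AF nb S := by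
      rw [mem_AF] at hg ⊢
      refine ⟨fun x hx => ?_, fun x => ?_⟩
      · by_cases h : x = v
        · rw [h]; simp
        · rw [Function.update_of_ne h]
          exact hg.1 x (by rw [Finset.mem_insert, not_or]; exact ⟨h, hx⟩)
      · refine (walk_congr_on ((hg.2 x).anti (Finset.subset_insert v S)) fun y hy => ?_).1
        have : y ≠ v := fun h => hv (h ▸ hy)
        rw [Function.update_of_ne this]
    rw [Finset.mem_filter, Finset.mem_product]
    refine ⟨⟨hm, Finset.mem_univ _⟩, ?_⟩
    rw [ne_eq, ← ne_eq, ← insert_iff hv hm (g v)]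
    simpa using hg
  · intro q hq
    rw [Finset.mem_filter, Finset.mem_product] at hq
    exact (insert_iff hv hq.1.1 q.2).2 hq.2
  · intro g hg
    simp
  · rintro ⟨f, d⟩ hq
    rw [Finset.mem_filter, Finset.mem_product] at hq
    have h0 : f v = 0 := (mem_AF nb |>.1 hq.1.1).1 v hv
    simp [← h0]

/-- Number of configurations on `S` whose walk from `x` exits at `v`. -/
noncomputable def cntAt [DecidableEq P] (nb : Fin 4 → P → P) (S : Finset P) (v x : P) : ℕ :=
  ((AF nb S).filter fun f => ex nb S f x = v).card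

theorem cntAt_le [DecidableEq P] (v x : P) : cntAt nb S v x ≤ cnt nb S := by
  unfold cntAt cnt
  exact Finset.card_filter_le _ _

theorem cntAt_eq_sum (v x : P) [DecidableEq P] :
    (cntAt nb S v x : ℝ) = ∑ f ∈ AF nb S, (if ex nb S f x = v then (1 : ℝ) else 0) := by
  rw [cntAt, Finset.sum_boole]

theorem cnt_insert_real [inst : DecidableEq P] (hv : v ∉ S) :
    (cnt nb (insert v S) : ℝ) = ∑ d : Fin 4, ((cnt nb S : ℝ) - cntAt nb S v (nb d v)) := by
  obtain rfl : inst = fun a b => Classical.propDecidable (a = b) := Subsingleton.elim _ _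
  rw [cnt_insert_eq (nb := nb) hv,
    Finset.card_filter, Nat.cast_sum, Finset.sum_product_right]
  refine Finset.sum_congr rfl fun d _ => ?_
  rw [cntAt_eq_sum, cnt, eq_sub_iff_add_eq, ← Finset.sum_add_distrib]
  rw [Finset.card_eq_sum_ones, Nat.cast_sum]
  refine Finset.sum_congr rfl fun f _ => ?_
  by_cases h : ex nb S f (nb d v) = v <;> simp [h]

theorem cnt_insert_le [DecidableEq P] (hv : v ∉ S) :
    cnt nb (insert v S) ≤ 4 * cnt nb S := by
  have h := cnt_insert_real (nb := nb) hv
  have h2 : (cnt nb (insert v S) : ℝ) ≤ 4 * cnt nb S := by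
    rw [h]
    calc ∑ d : Fin 4, ((cnt nb S : ℝ) - cntAt nb S v (nb d v))
        ≤ ∑ _d : Fin 4, (cnt nb S : ℝ) := Finset.sum_le_sum fun d _ => by
          have : (0 : ℝ) ≤ cntAt nb S v (nb d v) := Nat.cast_nonneg _
          linarith
      _ = 4 * cnt nb S := by simp
  exact_mod_cast h2

theorem cntAt_not_mem [DecidableEq P] (hx : x ∉ S) :
    cntAt nb S v x = if x = v then cnt nb S else 0 := by
  unfold cntAt
  split_ifs with h
  · rw [Finset.filter_true_of_mem fun f _ => by rw [ex_not_mem hx]; exact h]; rfl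
  · rw [Finset.filter_false_of_mem fun f _ => by rw [ex_not_mem hx]; exact h]; rfl

theorem cntAt_harm [DecidableEq P] (hz : z ∈ S) (v : P) :
    ∑ d : Fin 4, (cntAt nb S v (nb d z) : ℝ) = 4 * cntAt nb S v z := by
  have h := harmonic (nb := nb) hz (fun y => if y = v then (1 : ℝ) else 0)
  simp only [cntAt_eq_sum]
  exact h

/-- Monotonicity of the exit probability at `v` in the domain. -/
theorem cntAt_mono [DecidableEq P] (hST : S ⊆ T) (hv : v ∉ T) (hT : 0 < cnt nb T) (x : P) :
    cntAt nb S v x * cnt nb T ≤ cntAt nb T v x * cnt nb S := by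
  have hS : 0 < cnt nb S := cnt_pos_anti hST hT
  have hout : ∀ x, x ∉ S → cntAt nb S v x * cnt nb T ≤ cntAt nb T v x * cnt nb S := by
    intro x hx
    rw [cntAt_not_mem hx]
    split_ifs with h
    · rw [h, cntAt_not_mem hv, if_pos rfl, mul_comm]
    · simp
  by_cases hx : x ∈ S
  swap
  · exact hout x hx
  have := maxp (nb := nb) (S := S) (Finset.card_pos.1 hS)
    (fun x => (cntAt nb T v x : ℝ) * cnt nb S - cntAt nb S v x * cnt nb T)
    (fun z hz => by
      rw [Finset.sum_sub_distrib, ← Finset.sum_mul, ← Finset.sum_mul, cntAt_harm hz,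
        cntAt_harm (hST hz)]
      linarith)
    (fun z _ d hd => by
      have := hout (nb d z) hd
      have h2 : (cntAt nb S v (nb d z) : ℝ) * cnt nb T ≤ cntAt nb T v (nb d z) * cnt nb S := by
        exact_mod_cast this
      linarith) x hx
  have h2 : (cntAt nb S v x : ℝ) * cnt nb T ≤ cntAt nb T v x * cnt nb S := by
    linarith
  exact_mod_cast h2

/-- Submodularity, one point. -/
theorem cnt_submod_one [DecidableEq P] (hST : S ⊆ T) (hv : v ∉ T) (hT : 0 < cnt nb T) :
    cnt nb (insert v T) * cnt nb S ≤ cnt nb (insert v S) * cnt nb T := by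
  have hvS : v ∉ S := fun h => hv (hST h)
  have h : (cnt nb (insert v T) : ℝ) * cnt nb S ≤ cnt nb (insert v S) * cnt nb T := by
    rw [cnt_insert_real hv, cnt_insert_real hvS, Finset.sum_mul, Finset.sum_mul]
    refine Finset.sum_le_sum fun d _ => ?_
    have h1 := cntAt_mono hST hv hT (nb d v)
    have h2 : (cntAt nb S v (nb d v) : ℝ) * cnt nb T ≤ cntAt nb T v (nb d v) * cnt nb S := by
      exact_mod_cast h1
    nlinarith
  exact_mod_cast h

/-- Submodularity. -/
theorem cnt_submod [DecidableEq P] (hP : Pos nb) {η : Finset P} (hST : S ⊆ T)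
    (hη : Disjoint η T) :
    cnt nb (η ∪ T) * cnt nb S ≤ cnt nb (η ∪ S) * cnt nb T := by
  induction η using Finset.induction_on with
  | empty => simp [mul_comm]
  | insert v η hvη ih =>
    rw [Finset.disjoint_insert_left] at hη
    have ih := ih hη.2
    rw [Finset.insert_union, Finset.insert_union]
    have hvT : v ∉ η ∪ T := by
      rw [Finset.mem_union, not_or]; exact ⟨hvη, hη.1⟩
    have h1 := cnt_submod_one (nb := nb) (Finset.union_subset_union_right (s := η) hST) hvT (hP _)
    have hpos : 0 < cnt nb (η ∪ S) := hP _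
    refine Nat.le_of_mul_le_mul_right ?_ hpos
    calc cnt nb (insert v (η ∪ T)) * cnt nb S * cnt nb (η ∪ S)
        = cnt nb (insert v (η ∪ T)) * cnt nb (η ∪ S) * cnt nb S := by ring
      _ ≤ cnt nb (insert v (η ∪ S)) * cnt nb (η ∪ T) * cnt nb S := Nat.mul_le_mul_right _ h1
      _ = cnt nb (insert v (η ∪ S)) * (cnt nb (η ∪ T) * cnt nb S) := by ring
      _ ≤ cnt nb (insert v (η ∪ S)) * (cnt nb (η ∪ S) * cnt nb T) := Nat.mul_le_mul_left _ ih
      _ = cnt nb (insert v (η ∪ S)) * cnt nb T * cnt nb (η ∪ S) := by ring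

/-- Prescribing the arrows along a set `η` from which `f₀` leaves `D` without visiting
`D \ η`. -/
theorem cnt_prescribed [DecidableEq P] {D η : Finset P} (f₀ : P → Fin 4) (hηD : η ⊆ D)
    (h0 : ∀ x ∈ η, LvAt nb D f₀ x) (h1 : ∀ x ∈ η, stp nb f₀ x ∈ η ∨ stp nb f₀ x ∉ D) :
    ((AF nb D).filter fun f => ∀ x ∈ η, f x = f₀ x).card = cnt nb (D \ η) := by
  rw [cnt]
  refine Finset.card_bij' (fun f _ => fun x => if x ∈ η then 0 else f x)
    (fun h _ => fun x => if x ∈ η then f₀ x else h x) ?_ ?_ ?_ ?_
  · intro f hf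
    rw [Finset.mem_filter, mem_AF] at hf
    rw [mem_AF]
    refine ⟨fun x hx => ?_, fun x => ?_⟩
    · split_ifs with h
      · rfl
      · exact hf.1.1 x fun hD => hx (Finset.mem_sdiff.2 ⟨hD, h⟩)
    · refine (walk_congr_on ((hf.1.2 x).anti Finset.sdiff_subset) fun y hy => ?_).1
      exact if_neg (Finset.mem_sdiff.1 hy).2
  · intro h hh
    rw [mem_AF] at hh
    rw [Finset.mem_filter, mem_AF]
    refine ⟨⟨fun x hx => ?_, fun x => ?_⟩, fun x hx => if_pos hx⟩
    · rw [if_neg fun h => hx (hηD h)]
      exact hh.1 x fun h => hx (Finset.mem_sdiff.1 h).1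
    · set g : P → Fin 4 := fun x => if x ∈ η then f₀ x else h x with hg
      have hη : ∀ x, LvAt nb D f₀ x → x ∈ η → LvAt nb D g x := by
        apply lv_induct
        · intro x hx _; exact lv_of_not_mem hx
        · intro x hx _ ih hxη
          have hst : stp nb g x = stp nb f₀ x := by rw [stp, stp, hg]; simp [hxη]
          refine (LvAt.stp_iff hx).2 ?_
          rw [hst]
          rcases h1 x hxη with h | h
          · exact ih h
          · exact lv_of_not_mem h
      have hw := walk_congr_on (g := g) (hh.2 x) fun y hy => if_neg (Finset.mem_sdiff.1 hy).2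
      refine lv_of_ex Finset.sdiff_subset hw.1 ?_
      rw [hw.2.1]
      have hne := ex_nmem (hh.2 x)
      rw [Finset.mem_sdiff, not_and_or, not_not] at hne
      rcases hne with hne | hne
      · exact lv_of_not_mem hne
      · exact hη _ (h0 _ hne) hne
  · intro f hf
    rw [Finset.mem_filter] at hf
    funext x
    by_cases h : x ∈ η
    · simp [h, hf.2 x h]
    · simp [h]
  · intro h hh
    rw [mem_AF] at hh
    funext x
    by_cases hx : x ∈ η
    · simp only [hx, if_true]
      exact (hh.1 x fun h => (Finset.mem_sdiff.1 h).2 hx).symm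
    · simp [hx]

end Pool.Agent.H88.Ust
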