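import Pool.Agent.H88.Ust.Inv

/-!
# The two sides of the curve of a good configuration
-/

namespace Pool.Agent.H88.Ust

open SimpleGraph

section walk

variable {S : Finset Pt} {g : Pt → Fin 4} {p : Pt} {x v : ℤ}

theorem ind_change {d : Fin 4} (h : ind p (nbr d p) x (v + 1) ≠ ind p (nbr d p) x v) :
    Cr d p (x, v) (x, v + 1) := by
  obtain ⟨p1, p2⟩ := p
  unfold ind at h
  unfold Cr
  fin_cases d
  · simp only [nbr, e1, e2, Prod.mk.injEq, true_and] at h ⊢
    split_ifs at h <;> omega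
  · simp only [nbr, e1, e2, Prod.mk.injEq, true_and] at h ⊢
    split_ifs at h <;> omega
  · exfalso
    simp only [nbr] at h
    rw [if_neg (by omega), if_neg (by omega)] at h
    exact h rfl
  · exfalso
    simp only [nbr] at h
    rw [if_neg (by omega), if_neg (by omega)] at h
    exact h rfl

theorem arc_vert : LvAt nbr S g p → crs (pl nbr S g p) x (v + 1) ≠ crs (pl nbr S g p) x v →
    ∃ q ∈ S, Cr (g q) q (x, v) (x, v + 1) := by
  revert p
  apply lv_induct
  · intro p hp h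
    rw [pl_not_mem hp, crs_single, crs_single] at h
    exact absurd rfl h
  · intro p hp hL ih h
    have hL' := (LvAt.stp_iff hp).1 hL
    rw [pl_mem hL hp, crs_cons_pl hL', crs_cons_pl hL'] at h
    by_cases h1 : ind p (stp nbr g p) x (v + 1) = ind p (stp nbr g p) x v
    · rw [h1] at h
      exact ih fun h2 => h (by rw [h2])
    · exact ⟨p, hp, ind_change h1⟩

/-- The faces of the column `x` below the height `v`. -/
def Rg (x v : ℤ) (p : Pt) : Prop := p.1 = x ∧ p.2 < v

theorem ind_region {d : Fin 4} (h : ¬ Cr d p (x, v) (x + 1, v)) :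
    Even (ind p (nbr d p) x v + ind p (nbr d p) (x + 1) v) ↔ (Rg x v p ↔ Rg x v (nbr d p)) := by
  obtain ⟨p1, p2⟩ := p
  unfold Cr at h
  unfold ind Rg
  have h0 : Even 0 := ⟨0, rfl⟩
  fin_cases d
  · simp only [nbr, e1, e2, Prod.mk.injEq, true_and] at h ⊢
    split_ifs <;> simp [parity_simps] <;> omega
  · simp only [nbr, e1, e2, Prod.mk.injEq, true_and] at h ⊢
    split_ifs <;> simp [parity_simps] <;> omega
  · simp only [nbr, e1, e2, Prod.mk.injEq] at h ⊢
    rw [if_neg (by omega), if_neg (by omega)]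
    simp only [add_zero, h0, true_iff]
    omega
  · simp only [nbr, e1, e2, Prod.mk.injEq] at h ⊢
    rw [if_neg (by omega), if_neg (by omega)]
    simp only [add_zero, h0, true_iff]
    omega

theorem arc_hor : LvAt nbr S g p → (∀ q ∈ S, ¬ Cr (g q) q (x, v) (x + 1, v)) →
    (Even (crs (pl nbr S g p) x v + crs (pl nbr S g p) (x + 1) v) ↔
      (Rg x v p ↔ Rg x v (ex nbr S g p))) := by
  revert p
  apply lv_induct
  · intro p hp _
    rw [pl_not_mem hp, ex_not_mem hp, crs_single, crs_single]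
    simp
  · intro p hp hL ih h
    have hL' := (LvAt.stp_iff hp).1 hL
    have ih := ih h
    have h1 := ind_region (h p hp)
    rw [pl_mem hL hp, crs_cons_pl hL', crs_cons_pl hL', ex_mem hL hp]
    rw [show nbr (g p) p = stp nbr g p from rfl] at h1
    rw [show ∀ a b c d : ℕ, a + b + (c + d) = (a + c) + (b + d) by intros; ring, Nat.even_add,
      ih, h1]
    grind

end walk

variable {c : ℕ} {y : ℤ} {g : Pt → Fin 4}

/-- The lower side of the curve. -/
def sd (c : ℕ) (y : ℤ) (g : Pt → Fin 4) (p : Pt) : Prop :=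
  Even (crs (lw c g y) p.1 p.2 + crs (((c : ℤ), y) :: rw' c g y) p.1 p.2)

namespace Good

variable (hG : Good c y g)
include hG

theorem leaves : Leaves nbr (faces (2 * c)) g := ((mem_AF nbr).1 hG.mem).2

theorem crs_r (x v : ℤ) : crs (((c : ℤ), y) :: rw' c g y) x v =
    ind ((c : ℤ), y) ((c : ℤ) + 1, y) x v + crs (rw' c g y) x v :=
  crs_cons_pl (hG.leaves _) _ _ _

theorem sd_vert {x v : ℤ} (h : ¬ (sd c y g (x, v) ↔ sd c y g (x, v + 1))) :
    (x = c + 1 ∧ v = y) ∨ ∃ p ∈ faces (2 * c), Cr (g p) p (x, v) (x, v + 1) := by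
  by_cases h1 : crs (lw c g y) x (v + 1) = crs (lw c g y) x v
  swap
  · exact Or.inr (arc_vert (hG.leaves _) h1)
  by_cases h2 : crs (rw' c g y) x (v + 1) = crs (rw' c g y) x v
  swap
  · exact Or.inr (arc_vert (hG.leaves _) h2)
  left
  unfold sd at h
  simp only [hG.crs_r, h1, h2] at h
  have h3 : ind ((c : ℤ), y) (nbr 0 ((c : ℤ), y)) x (v + 1) ≠
      ind ((c : ℤ), y) (nbr 0 ((c : ℤ), y)) x v := by
    intro h3
    simp only [nbr] at h3
    rw [h3] at h
    exact h Iff.rfl
  have h4 := ind_change h3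
  simp only [Cr, e1, e2, Prod.mk.injEq] at h4
  omega

theorem sd_hor {x v : ℤ} (hx : 1 ≤ x) (hx2 : x ≤ 2 * (c : ℤ) - 1)
    (h : ¬ (sd c y g (x, v) ↔ sd c y g (x + 1, v))) :
    ∃ p ∈ faces (2 * c), Cr (g p) p (x, v) (x + 1, v) := by
  by_contra hcon
  push Not at hcon
  apply h
  have a1 := arc_hor (hG.leaves ((c : ℤ), y)) hcon
  have a2 := arc_hor (hG.leaves ((c : ℤ) + 1, y)) hcon
  have a3 := ind_region (p := ((c : ℤ), y)) (d := 0) (x := x) (v := v) (by
    simp only [Cr, e1, e2, Prod.mk.injEq]; omega)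
  simp only [nbr] at a3
  have b1 : ¬ Rg x v (ex nbr (faces (2 * c)) g ((c : ℤ), y)) := by
    rintro ⟨h1, -⟩
    rw [hG.lex] at h1
    omega
  have b2 : ¬ Rg x v (ex nbr (faces (2 * c)) g ((c : ℤ) + 1, y)) := by
    rintro ⟨h1, -⟩
    rw [hG.rex] at h1
    omega
  change Even (crs (lw c g y) x v + crs (lw c g y) (x + 1) v) ↔ _ at a1
  change Even (crs (rw' c g y) x v + crs (rw' c g y) (x + 1) v) ↔ _ at a2
  unfold sd
  simp only [hG.crs_r, Nat.even_add] at a1 a2 a3 ⊢
  generalize Rg x v ((c : ℤ), y) = R1 at *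
  generalize Rg x v ((c : ℤ) + 1, y) = R2 at *
  generalize Rg x v (ex nbr (faces (2 * c)) g ((c : ℤ), y)) = R3 at *
  generalize Rg x v (ex nbr (faces (2 * c)) g ((c : ℤ) + 1, y)) = R4 at *
  generalize Even (crs (lw c g y) x v) = E1 at *
  generalize Even (crs (lw c g y) (x + 1) v) = E2 at *
  generalize Even (crs (rw' c g y) x v) = E3 at *
  generalize Even (crs (rw' c g y) (x + 1) v) = E4 at *
  generalize Even (ind ((c : ℤ), y) ((c : ℤ) + 1, y) x v) = E5 at *
  generalize Even (ind ((c : ℤ), y) ((c : ℤ) + 1, y) (x + 1) v) = E6 at *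
  clear h hcon hG
  grind

theorem sd_bot (x : ℤ) : sd c y g (x, 1) := by
  unfold sd
  simp only
  have h1 : crs (lw c g y) x 1 = 0 := crs_low _ _ _ fun p hp => (hG.lft p hp).2.1
  have h2 : crs (rw' c g y) x 1 = 0 := crs_low _ _ _ fun p hp => (hG.rgt p hp).2.1
  rw [hG.crs_r, h1, h2]
  have h3 : ind ((c : ℤ), y) ((c : ℤ) + 1, y) x 1 = 0 := by
    unfold ind
    have := hG.hy.1
    exact if_neg (by simp only; omega)
  rw [h3]
  exact ⟨0, rfl⟩

theorem sd_top {x : ℤ} (hx : 1 ≤ x) (hx2 : x ≤ 2 * (c : ℤ)) : ¬ sd c y g (x, 2 * c) := by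
  unfold sd
  simp only
  have h1 := crs_pl_top x (2 * c) (hG.leaves ((c : ℤ), y)) fun q hq => by
    have := (hG.lft q hq).2.2; omega
  have h2 := crs_pl_top x (2 * c) (hG.leaves ((c : ℤ) + 1, y)) fun q hq => by
    have := (hG.rgt q hq).2.2; omega
  have h3 := ind_nbr 0 ((c : ℤ), y) x (2 * c) (by have := hG.hy.2; simp only; omega)
  simp only [nbr] at h3
  rw [hG.crs_r, Nat.even_add, Nat.even_add, lw, rw', h1, h2, h3, hG.lex, hG.rex]
  simp only
  omega

theorem sd_mid {v : ℤ} : sd c y g ((c : ℤ) + 1, v) ↔ v ≤ y := by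
  unfold sd
  simp only
  have h1 : crs (lw c g y) ((c : ℤ) + 1) v = 0 :=
    crs_left _ _ _ fun p hp => by have := (hG.lft p hp).1; omega
  have h2 : crs (rw' c g y) ((c : ℤ) + 1) v = 0 :=
    crs_right _ _ _ fun p hp => (hG.rgt p hp).1
  rw [hG.crs_r, h1, h2]
  unfold ind
  simp only
  split_ifs with h
  · have := h.2.1
    simp only [zero_add, add_zero, Nat.not_even_one, false_iff]
    omega
  · have : ¬ y < v := fun h' => h (by simp [h'])
    constructor
    · intro _; omega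
    · intro _; exact ⟨0, rfl⟩

end Good

end Pool.Agent.H88.Ust
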