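import Mathlib

/-!
# Uniform spanning trees of grids via arrow configurations on the faces: definitions
-/

namespace Pool.Agent.H88.Ust

section general

variable {P : Type*} (nb : Fin 4 → P → P)

/-- One step of the walk that follows the arrows `f`. -/
def stp (f : P → Fin 4) (x : P) : P := nb (f x) x

/-- The walk from `x` following the arrows `f` leaves `S`. -/
def LvAt (S : Finset P) (f : P → Fin 4) (x : P) : Prop := ∃ k, (stp nb f)^[k] x ∉ S

/-- Every walk following the arrows `f` leaves `S`. -/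
def Leaves (S : Finset P) (f : P → Fin 4) : Prop := ∀ x, LvAt nb S f x

/-- Arrow configurations on `S` (extended by `0`) all of whose walks leave `S`. -/
def AFset (S : Finset P) : Set (P → Fin 4) := {f | (∀ x, x ∉ S → f x = 0) ∧ Leaves nb S f}

theorem AFset_finite (S : Finset P) : (AFset nb S).Finite := by
  classical
  have h : Function.Injective
      (fun (f : AFset nb S) (x : S) => (f : P → Fin 4) (x : P)) := by
    rintro ⟨f, hf⟩ ⟨g, hg⟩ h
    apply Subtype.ext
    funext x
    by_cases hx : x ∈ S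
    · exact congrFun h ⟨x, hx⟩
    · change f x = g x
      rw [hf.1 x hx, hg.1 x hx]
  haveI := Finite.of_injective _ h
  exact Set.toFinite _

/-- The finite set of arrow configurations. -/
noncomputable def AF (S : Finset P) : Finset (P → Fin 4) := (AFset_finite nb S).toFinset

theorem mem_AF {S : Finset P} {f : P → Fin 4} :
    f ∈ AF nb S ↔ (∀ x, x ∉ S → f x = 0) ∧ Leaves nb S f := by
  rw [AF, Set.Finite.mem_toFinset]; rfl

/-- Number of arrow configurations. -/
noncomputable def cnt (S : Finset P) : ℕ := (AF nb S).card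

/-- Exit time. -/
noncomputable def tau (S : Finset P) (f : P → Fin 4) (x : P) : ℕ :=
  sInf {k | (stp nb f)^[k] x ∉ S}

/-- Exit point. -/
noncomputable def ex (S : Finset P) (f : P → Fin 4) (x : P) : P :=
  (stp nb f)^[tau nb S f x] x

/-- The walk up to and including the exit point. -/
noncomputable def pl (S : Finset P) (f : P → Fin 4) (x : P) : List P :=
  (List.range (tau nb S f x + 1)).map fun k => (stp nb f)^[k] x

end general

/-- Points: faces and vertices of the grid. -/
abbrev Pt := ℤ × ℤ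

/-- The four neighbours: right, left, up, down. -/
def nbr (d : Fin 4) (p : Pt) : Pt :=
  match d with
  | 0 => (p.1 + 1, p.2)
  | 1 => (p.1 - 1, p.2)
  | 2 => (p.1, p.2 + 1)
  | 3 => (p.1, p.2 - 1)

/-- The window of the left path, `c - 1` columns and `2 m + 1` rows. -/
noncomputable def win (c m : ℕ) : Finset Pt := Finset.Icc 1 ((c : ℤ) - 1) ×ˢ Finset.Icc (-(m : ℤ)) m

/-- The inner faces of the `n × n` grid, the face `(i, j)` has the corners `(i, j)`, `(i+1, j)`,
`(i, j+1)`, `(i+1, j+1)`. -/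
noncomputable def faces (n : ℕ) : Finset Pt := Finset.Icc 1 ((n : ℤ) - 1) ×ˢ Finset.Icc 1 ((n : ℤ) - 1)

/-- The arrow configurations of the window whose walk from `(c - 1, 0)` exits on the left. -/
noncomputable def LA (c m : ℕ) : Finset (Pt → Fin 4) :=
  (AF nbr (win c m)).filter fun f => (ex nbr (win c m) f ((c : ℤ) - 1, 0)).1 = 0

/-- Number of steps of the list `l` between the columns `x - 1` and `x`, at a height `< v`. -/
def crs : List Pt → ℤ → ℤ → ℕ
  | [], _, _ => 0
  | [_], _, _ => 0
  | a :: b :: l, x, v =>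
    (if a.2 = b.2 ∧ a.2 < v ∧ (a.1 + 1 = b.1 ∧ b.1 = x ∨ b.1 + 1 = a.1 ∧ a.1 = x) then 1 else 0) +
      crs (b :: l) x v

/-- Number of vertices of the window (rows `- m + 1, ..., m`, columns `1, ..., c`) below `l`. -/
noncomputable def rel (c m : ℕ) (l : List Pt) : ℕ :=
  ∑ x ∈ Finset.Icc (1 : ℤ) c,
    ((Finset.Icc (-(m : ℤ) + 1) m).filter fun v => Even (crs l x v)).card

/-- Number of vertices of the window below the walk from `(c, 0)`, `(c - 1, 0)`. -/
noncomputable def relf (c m : ℕ) (f : Pt → Fin 4) : ℕ :=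
  rel c m (((c : ℤ), 0) :: pl nbr (win c m) f ((c : ℤ) - 1, 0))

/-- The left walk of `g` starting at the face `(c, y)`. -/
noncomputable def lw (c : ℕ) (g : Pt → Fin 4) (y : ℤ) : List Pt :=
  pl nbr (faces (2 * c)) g ((c : ℤ), y)

/-- The right walk of `g` starting at the face `(c + 1, y)`. -/
noncomputable def rw' (c : ℕ) (g : Pt → Fin 4) (y : ℤ) : List Pt :=
  pl nbr (faces (2 * c)) g ((c : ℤ) + 1, y)

/-- `g` and the height `y` define a curve from the left to the right which crosses the centre once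
and separates the `2 c × 2 c` grid into two halves of the same number of vertices. -/
structure Good (c : ℕ) (y : ℤ) (g : Pt → Fin 4) : Prop where
  mem : g ∈ AF nbr (faces (2 * c))
  hy : 1 ≤ y ∧ y ≤ 2 * (c : ℤ) - 1
  lft : ∀ p ∈ lw c g y, p.1 ≤ c ∧ 1 ≤ p.2 ∧ p.2 ≤ 2 * (c : ℤ) - 1
  lex : (ex nbr (faces (2 * c)) g ((c : ℤ), y)).1 = 0
  rgt : ∀ p ∈ rw' c g y, (c : ℤ) + 1 ≤ p.1 ∧ 1 ≤ p.2 ∧ p.2 ≤ 2 * (c : ℤ) - 1
  rex : (ex nbr (faces (2 * c)) g ((c : ℤ) + 1, y)).1 = 2 * c
  area : ((Finset.Icc (1 : ℤ) (2 * c) ×ˢ Finset.Icc (1 : ℤ) (2 * c)).filter fun p =>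
    Even (crs (lw c g y) p.1 p.2 + crs (((c : ℤ), y) :: rw' c g y) p.1 p.2)).card = 2 * c * c

end Pool.Agent.H88.Ust
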