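import Pool.Agent.H88.Ust.Graph

/-!
# The complementary graph of an arrow configuration is a spanning tree
-/

namespace Pool.Agent.H88.Ust

open SimpleGraph

variable {n : ℕ} {g g' : Pt → Fin 4}

/-- A graph is connected iff every function which is constant along edges is constant. -/
theorem preconn_of {V : Type*} {T : SimpleGraph V}
    (h : ∀ χ : V → Prop, (∀ a b, T.Adj a b → (χ a ↔ χ b)) → ∀ a b, χ a ↔ χ b) :
    T.Preconnected := by
  intro a b
  have := h (fun v => T.Reachable a v) (fun u v huv => ⟨fun h => h.trans huv.reachable,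
    fun h => h.trans huv.symm.reachable⟩) a b
  exact this.1 (Reachable.refl a)

theorem const_of_conn {V : Type*} {T : SimpleGraph V} (hT : T.Preconnected) (χ : V → Prop)
    (h : ∀ a b, T.Adj a b → (χ a ↔ χ b)) (a b : V) : χ a ↔ χ b := by
  obtain ⟨w⟩ := hT a b
  induction w with
  | nil => exact Iff.rfl
  | cons hadj _ ih => exact (h _ _ hadj).trans ih

theorem e1_mem (hn : 1 ≤ n) {d : Fin 4} {p : Pt} (hp : p ∈ faces n) : e1 d p ∈ PV n := by
  rw [mem_faces] at hp
  rw [mem_PV]
  fin_cases d <;> simp only [e1] <;> omega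

theorem e2_mem (hn : 1 ≤ n) {d : Fin 4} {p : Pt} (hp : p ∈ faces n) : e2 d p ∈ PV n := by
  rw [mem_faces] at hp
  rw [mem_PV]
  fin_cases d <;> simp only [e2] <;> omega

/-- The two endpoints of a crossed edge are neighbours. -/
theorem e_nbr (d : Fin 4) (p : Pt) : ∃ δ, e2 d p = nbr δ (e1 d p) := by
  fin_cases d
  · exact ⟨2, rfl⟩
  · exact ⟨2, rfl⟩
  · exact ⟨0, rfl⟩
  · exact ⟨0, rfl⟩

theorem tau_stp {g : Pt → Fin 4} {S : Finset Pt} (hg : Leaves nbr S g) {p : Pt} (hp : p ∈ S) :
    tau nbr S g p = tau nbr S g (stp nbr g p) + 1 := tau_mem (hg p) hp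

/-- Going around a face a function changes an even number of times. -/
theorem other_side (χ : Pt → Prop) (p : Pt) (d : Fin 4) (h : ¬ (χ (e1 d p) ↔ χ (e2 d p))) :
    ∃ d', d' ≠ d ∧ ¬ (χ (e1 d' p) ↔ χ (e2 d' p)) := by
  obtain ⟨x, y⟩ := p
  by_contra hc
  push Not at hc
  have h0 : (0 : Fin 4) ≠ d → (χ (x + 1, y) ↔ χ (x + 1, y + 1)) := fun h => hc 0 h
  have h1 : (1 : Fin 4) ≠ d → (χ (x, y) ↔ χ (x, y + 1)) := fun h => hc 1 h
  have h2 : (2 : Fin 4) ≠ d → (χ (x, y + 1) ↔ χ (x + 1, y + 1)) := fun h => hc 2 h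
  have h3 : (3 : Fin 4) ≠ d → (χ (x, y) ↔ χ (x + 1, y)) := fun h => hc 3 h
  clear hc
  fin_cases d
  · have h1 := h1 (by decide)
    have h2 := h2 (by decide)
    have h3 := h3 (by decide)
    exact h ((h3.symm.trans h1).trans h2)
  · have h0 := h0 (by decide)
    have h2 := h2 (by decide)
    have h3 := h3 (by decide)
    exact h ((h3.trans h0).trans h2.symm)
  · have h0 := h0 (by decide)
    have h1 := h1 (by decide)
    have h3 := h3 (by decide)
    exact h ((h1.symm.trans h3).trans h0)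
  · have h0 := h0 (by decide)
    have h1 := h1 (by decide)
    have h2 := h2 (by decide)
    exact h ((h1.trans h2).trans h0.symm)

/-- Functions constant along the edges of the complementary graph are constant along all edges. -/
theorem dual_const (hn : 1 ≤ n) (hg : Leaves nbr (faces n) g) (χ : Pt → Prop)
    (h : ∀ a ∈ PV n, ∀ b ∈ PV n, (∃ δ, b = nbr δ a) → (∀ p ∈ faces n, ¬ Cr (g p) p a b) →
      (χ a ↔ χ b)) :
    ∀ a ∈ PV n, ∀ b ∈ PV n, (∃ δ, b = nbr δ a) → (χ a ↔ χ b) := by
  classical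
  by_contra hcon
  push Not at hcon
  obtain ⟨a, ha, b, hb, hab, hne⟩ := hcon
  -- faces whose arrow crosses an edge along which `χ` changes
  set X := (faces n).filter fun p => ¬ (χ (e1 (g p) p) ↔ χ (e2 (g p) p)) with hX
  have hmemX : ∀ p ∈ faces n, ∀ a b, Cr (g p) p a b → ¬ (χ a ↔ χ b) → p ∈ X := by
    intro p hp a b hc hn
    rw [hX, Finset.mem_filter]
    refine ⟨hp, fun h => hn ?_⟩
    rcases hc with ⟨h1, h2⟩ | ⟨h1, h2⟩
    · rw [h1, h2]; exact h
    · rw [h1, h2]; exact h.symm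
  have hXne : X.Nonempty := by
    have : ¬ ∀ p ∈ faces n, ¬ Cr (g p) p a b := fun h2 => by
      have := h a ha b hb hab h2
      rcases hne with ⟨h1, h2⟩ | ⟨h1, h2⟩ <;> tauto
    push Not at this
    obtain ⟨p, hp, hc⟩ := this
    exact ⟨p, hmemX p hp a b hc (by rcases hne with ⟨h1, h2⟩ | ⟨h1, h2⟩ <;> tauto)⟩
  obtain ⟨p, hpX, hmax⟩ := X.exists_max_image (fun p => tau nbr (faces n) g p) hXne
  have hp : p ∈ faces n := (Finset.mem_filter.1 hpX).1
  have hpn := (Finset.mem_filter.1 hpX).2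
  obtain ⟨d, hd, hdn⟩ := other_side χ p (g p) hpn
  have h2 : ¬ ∀ q ∈ faces n, ¬ Cr (g q) q (e1 d p) (e2 d p) := fun h2 =>
    hdn (h _ (e1_mem hn hp) _ (e2_mem hn hp) (e_nbr d p) h2)
  push Not at h2
  obtain ⟨q, hq, hqc⟩ := h2
  have hc1 : Cr d p (e1 d p) (e2 d p) := Or.inl ⟨rfl, rfl⟩
  rcases hc1.unique hqc with ⟨rfl, h4⟩ | ⟨-, h4⟩
  · exact hd h4.symm
  · have hqX := hmemX q hq _ _ hqc hdn
    have h5 := hmax q hqX
    have h6 := tau_stp hg hq
    rw [show stp nbr g q = p from h4.symm] at h6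
    omega

theorem TG_connected [NeZero n] (hg : Leaves nbr (faces n) g) : (TG n g).Connected := by
  have : Nonempty (Fin n × Fin n) := (grid_connected n).nonempty
  refine ⟨preconn_of fun χ hχ => ?_⟩
  have hn : 1 ≤ n := Nat.one_le_iff_ne_zero.2 (NeZero.ne n)
  have key := dual_const hn hg (fun p => χ (vt p)) (fun a ha b hb hab hc => by
    apply hχ
    refine ⟨grid_adj_iff.2 ?_, ?_⟩
    · rw [pt_vt ha, pt_vt hb]; exact hab
    · rw [pt_vt ha, pt_vt hb]; exact hc)
  refine const_of_conn (grid_connected n).preconnected χ fun a b hab => ?_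
  have := key (pt a) (pt_mem a) (pt b) (pt_mem b) (grid_adj_iff.1 hab)
  rwa [vt_pt, vt_pt] at this

/-- The edge crossed by the arrow at `p`. -/
noncomputable def ce [NeZero n] (g : Pt → Fin 4) (p : Pt) : Sym2 (Fin n × Fin n) :=
  s(vt (e1 (g p) p), vt (e2 (g p) p))

theorem ce_mem [NeZero n] {p : Pt} (hp : p ∈ faces n) :
    (ce g p : Sym2 (Fin n × Fin n)) ∈ (grid n).edgeSet \ (TG n g).edgeSet := by
  have hn : 1 ≤ n := Nat.one_le_iff_ne_zero.2 (NeZero.ne n)
  have m1 := e1_mem (d := g p) hn hp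
  have m2 := e2_mem (d := g p) hn hp
  rw [ce, Set.mem_sdiff, mem_edgeSet, mem_edgeSet]
  refine ⟨grid_adj_iff.2 ?_, fun h => ?_⟩
  · rw [pt_vt m1, pt_vt m2]; exact e_nbr _ _
  · refine h.2 p hp ?_
    rw [pt_vt m1, pt_vt m2]
    exact Or.inl ⟨rfl, rfl⟩

theorem vt_inj [NeZero n] {p q : Pt} (hp : p ∈ PV n) (hq : q ∈ PV n)
    (h : (vt p : Fin n × Fin n) = vt q) : p = q := by
  rw [← pt_vt hp, ← pt_vt hq, h]

theorem ce_inj [NeZero n] (hg : Leaves nbr (faces n) g) {p q : Pt} (hp : p ∈ faces n)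
    (hq : q ∈ faces n) (h : (ce g p : Sym2 (Fin n × Fin n)) = ce g q) : p = q := by
  have hn : 1 ≤ n := Nat.one_le_iff_ne_zero.2 (NeZero.ne n)
  have m1 := e1_mem (d := g p) hn hp
  have m2 := e2_mem (d := g p) hn hp
  have m3 := e1_mem (d := g q) hn hq
  have m4 := e2_mem (d := g q) hn hq
  rw [ce, ce, Sym2.eq_iff] at h
  have hc : Cr (g q) q (e1 (g p) p) (e2 (g p) p) := by
    rcases h with ⟨h1, h2⟩ | ⟨h1, h2⟩
    · exact Or.inl ⟨vt_inj m1 m3 h1, vt_inj m2 m4 h2⟩
    · exact Or.inr ⟨vt_inj m1 m4 h1, vt_inj m2 m3 h2⟩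
  have hc1 : Cr (g p) p (e1 (g p) p) (e2 (g p) p) := Or.inl ⟨rfl, rfl⟩
  rcases hc1.unique hc with ⟨h1, -⟩ | ⟨h1, h2⟩
  · exact h1.symm
  · exfalso
    have t1 := tau_stp hg hp
    have t2 := tau_stp hg hq
    rw [show stp nbr g p = q from h1.symm] at t1
    rw [show stp nbr g q = p from h2.symm] at t2
    omega

/-- Upper bound for the number of edges of the grid. -/
theorem grid_card_le [NeZero n] : (grid n).edgeSet.ncard ≤ 2 * (n * (n - 1)) := by
  classical
  set A := (Finset.Icc 1 ((n : ℤ) - 1) ×ˢ Finset.Icc 1 (n : ℤ)).image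
    fun p : Pt => (s(vt p, vt (nbr 0 p)) : Sym2 (Fin n × Fin n)) with hA
  set B := (Finset.Icc 1 (n : ℤ) ×ˢ Finset.Icc 1 ((n : ℤ) - 1)).image
    fun p : Pt => (s(vt p, vt (nbr 2 p)) : Sym2 (Fin n × Fin n)) with hB
  have hsub : (grid n).edgeSet ⊆ ((A ∪ B : Finset _) : Set (Sym2 (Fin n × Fin n))) := by
    intro e he
    induction e with
    | _ a b =>
      rw [mem_edgeSet, grid_adj_iff] at he
      obtain ⟨d, hd⟩ := he
      have ha := mem_PV.1 (pt_mem a)
      have hb := mem_PV.1 (pt_mem b)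
      rw [Finset.mem_coe, Finset.mem_union, hA, hB, Finset.mem_image, Finset.mem_image]
      fin_cases d
      · left
        refine ⟨pt a, ?_, ?_⟩
        · rw [hd] at hb
          simp only [nbr] at hb
          simp only [Finset.mem_product, Finset.mem_Icc]
          omega
        · rw [show nbr 0 (pt a) = pt b from hd.symm, vt_pt, vt_pt]
      · left
        have hd' : pt a = nbr 0 (pt b) := by
          rw [hd]; simp [nbr]
        refine ⟨pt b, ?_, ?_⟩
        · rw [hd'] at ha
          simp only [nbr] at ha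
          simp only [Finset.mem_product, Finset.mem_Icc]
          omega
        · rw [← hd', vt_pt, vt_pt, Sym2.eq_swap]
      · right
        refine ⟨pt a, ?_, ?_⟩
        · rw [hd] at hb
          simp only [nbr] at hb
          simp only [Finset.mem_product, Finset.mem_Icc]
          omega
        · rw [show nbr 2 (pt a) = pt b from hd.symm, vt_pt, vt_pt]
      · right
        have hd' : pt a = nbr 2 (pt b) := by
          rw [hd]; simp [nbr]
        refine ⟨pt b, ?_, ?_⟩
        · rw [hd'] at ha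
          simp only [nbr] at ha
          simp only [Finset.mem_product, Finset.mem_Icc]
          omega
        · rw [← hd', vt_pt, vt_pt, Sym2.eq_swap]
  have h1 := Set.ncard_le_ncard hsub (Finset.finite_toSet _)
  rw [Set.ncard_coe_finset] at h1
  have h2 : A.card ≤ n * (n - 1) := by
    refine Finset.card_image_le.trans ?_
    rw [Finset.card_product, Int.card_Icc, Int.card_Icc]
    have e1 : ((n : ℤ) - 1 + 1 - 1).toNat = n - 1 := by omega
    have e2 : ((n : ℤ) + 1 - 1).toNat = n := by omega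
    rw [e1, e2, mul_comm]
  have h3 : B.card ≤ n * (n - 1) := by
    refine Finset.card_image_le.trans ?_
    rw [Finset.card_product, Int.card_Icc, Int.card_Icc]
    have e1 : ((n : ℤ) - 1 + 1 - 1).toNat = n - 1 := by omega
    have e2 : ((n : ℤ) + 1 - 1).toNat = n := by omega
    rw [e1, e2]
  have h4 := Finset.card_union_le A B
  omega

theorem faces_card [NeZero n] : (faces n).card = (n - 1) * (n - 1) := by
  rw [faces, Finset.card_product, Int.card_Icc]
  have e1 : ((n : ℤ) - 1 + 1 - 1).toNat = n - 1 := by omega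
  rw [e1]

theorem TG_card [NeZero n] (hg : Leaves nbr (faces n) g) :
    (TG n g).edgeSet.ncard + 1 ≤ n * n := by
  classical
  have h1 : (faces n).card ≤ ((grid n).edgeSet \ (TG n g).edgeSet).ncard := by
    rw [← Set.ncard_coe_finset]
    exact Set.ncard_le_ncard_of_injOn (fun p => (ce g p : Sym2 (Fin n × Fin n)))
      (fun p hp => ce_mem hp) (fun p hp q hq h => ce_inj hg hp hq h) (Set.toFinite _)
  have hsub : (TG n g).edgeSet ⊆ (grid n).edgeSet := edgeSet_mono (TG_le n g)
  have h2 := Set.ncard_sdiff_add_ncard_of_subset hsub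
  have h3 := grid_card_le (n := n)
  rw [faces_card] at h1
  obtain ⟨k, rfl⟩ : ∃ k, n = k + 1 := ⟨n - 1, by have := NeZero.ne n; omega⟩
  simp only [Nat.add_sub_cancel] at h1 h3
  nlinarith

theorem isTree_of_card {V : Type*} [Finite V] {T : SimpleGraph V} (hT : T.Connected)
    (h : T.edgeSet.ncard + 1 ≤ Nat.card V) : T.IsTree := by
  rw [isTree_iff_connected_and_card]
  refine ⟨hT, ?_⟩
  have h1 := hT.card_vert_le_card_edgeSet_add_one
  rw [← Nat.card_coe_set_eq] at h
  omega

theorem TG_tree [NeZero n] (hg : Leaves nbr (faces n) g) : (TG n g).IsTree := by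
  refine isTree_of_card (TG_connected hg) ?_
  have := TG_card hg
  simpa using this

/-- The complementary graph determines the arrows. -/
theorem TG_inj [NeZero n] (hg : g ∈ AF nbr (faces n)) (hg' : g' ∈ AF nbr (faces n))
    (h : TG n g = TG n g') : g = g' := by
  have hn : 1 ≤ n := Nat.one_le_iff_ne_zero.2 (NeZero.ne n)
  rw [mem_AF] at hg hg'
  have key : ∀ p, LvAt nbr (faces n) g p → (p ∈ faces n → g p = g' p) := by
    apply lv_induct
    · intro p hp h; exact absurd h hp
    · intro p hp hL ih _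
      by_contra hne
      have m1 := e1_mem (d := g p) hn hp
      have m2 := e2_mem (d := g p) hn hp
      have h1 : ¬ (TG n g').Adj (vt (e1 (g p) p)) (vt (e2 (g p) p)) := by
        rw [← h]
        intro hadj
        refine hadj.2 p hp ?_
        rw [pt_vt m1, pt_vt m2]
        exact Or.inl ⟨rfl, rfl⟩
      have h2 : (grid n).Adj (vt (e1 (g p) p)) (vt (e2 (g p) p)) :=
        grid_adj_iff.2 (by rw [pt_vt m1, pt_vt m2]; exact e_nbr _ _)
      have h3 : ∃ q ∈ faces n, Cr (g' q) q (e1 (g p) p) (e2 (g p) p) := by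
        by_contra hc
        push Not at hc
        refine h1 ⟨h2, fun q hq => ?_⟩
        rw [pt_vt m1, pt_vt m2]
        exact hc q hq
      obtain ⟨q, hq, hc⟩ := h3
      have hc1 : Cr (g p) p (e1 (g p) p) (e2 (g p) p) := Or.inl ⟨rfl, rfl⟩
      rcases hc1.unique hc with ⟨rfl, h5⟩ | ⟨h5, h6⟩
      · exact hne h5.symm
      · have h7 : q = stp nbr g p := h5
        subst h7
        have h8 := ih hq
        have h9 : stp nbr g (stp nbr g p) = p := by
          rw [stp, h8]; exact h6.symm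
        have t1 := tau_stp hg.2 hp
        have t2 := tau_stp hg.2 hq
        rw [h9] at t2
        omega
  funext p
  by_cases hp : p ∈ faces n
  · exact key p (hg.2 p) hp
  · rw [hg.1 p hp, hg'.1 p hp]

end Pool.Agent.H88.Ust
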