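import Pool.Agent.H88.Ust.Refl

/-!
# Embedding two window walks into the faces of the grid
-/

namespace Pool.Agent.H88.Ust

section general

variable {P : Type*} {nb : Fin 4 → P → P} {D W S : Finset P} {f g : P → Fin 4} {x y z v : P}

theorem emb_walk (φ : P ≃ P) (π : Fin 4 ≃ Fin 4) (h : ∀ d x, φ (nb d x) = nb (π d) (φ x))
    (hin : ∀ p ∈ W, φ p ∈ D) : LvAt nb W f x → φ (ex nb W f x) ∉ D →
    (∀ q ∈ pl nb W f x, q ∈ W → g (φ q) = π (f q)) →
    LvAt nb D g (φ x) ∧ ex nb D g (φ x) = φ (ex nb W f x) ∧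
      pl nb D g (φ x) = (pl nb W f x).map φ := by
  revert x
  apply lv_induct
  · intro x hx he _
    rw [ex_not_mem hx] at he ⊢
    exact ⟨lv_of_not_mem he, ex_not_mem he, by rw [pl_not_mem he, pl_not_mem hx]; rfl⟩
  · intro x hx hL ih he hg
    rw [ex_mem hL hx] at he ⊢
    rw [pl_mem hL hx] at hg
    have hst : stp nb g (φ x) = φ (stp nb f x) := by
      rw [stp, stp, h, hg x List.mem_cons_self hx]
    have ih := ih he fun q hq hqW => hg q (List.mem_cons_of_mem _ hq) hqW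
    rw [← hst] at ih
    have hxD := hin x hx
    have hL' := (LvAt.stp_iff (nb := nb) (f := g) hxD).2 ih.1
    refine ⟨hL', ?_, ?_⟩
    · rw [ex_mem hL' hxD, ih.2.1]
    · rw [pl_mem hL' hxD, pl_mem hL hx, ih.2.2]; rfl

theorem stp_mem_pl : LvAt nb S f x → ∀ q ∈ pl nb S f x, q ∈ S → stp nb f q ∈ pl nb S f x := by
  revert x
  apply lv_induct
  · intro x hx q hq hqS
    rw [pl_not_mem hx, List.mem_singleton] at hq
    exact absurd (hq ▸ hqS) hx
  · intro x hx hL ih q hq hqS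
    rw [pl_mem hL hx, List.mem_cons] at hq ⊢
    rcases hq with rfl | hq
    · exact Or.inr (self_mem_pl ((LvAt.stp_iff hx).1 hL))
    · exact Or.inr (ih q hq hqS)

theorem pl_head_eq (hf : LvAt nb S f x) (hg : LvAt nb S g y) (h : pl nb S f x = pl nb S g y) :
    x = y := by
  have h1 : ∀ {f : P → Fin 4} {x : P}, LvAt nb S f x → (pl nb S f x).head? = some x := by
    intro f x hf
    by_cases hx : x ∈ S
    · rw [pl_mem hf hx]; rfl
    · rw [pl_not_mem hx]; rfl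
  have := h1 hf
  rw [h, h1 hg, Option.some.injEq] at this
  exact this.symm

/-- Equal walks have equal arrows. -/
theorem pl_agree (hinj : ∀ x, Function.Injective fun d => nb d x) :
    LvAt nb S f x → LvAt nb S g x → pl nb S g x = pl nb S f x →
      ∀ q ∈ pl nb S f x, q ∈ S → g q = f q := by
  revert x
  apply lv_induct
  · intro x hx _ _ q hq hqS
    rw [pl_not_mem hx, List.mem_singleton] at hq
    exact absurd (hq ▸ hqS) hx
  · intro x hx hL ih hLg he q hq hqS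
    rw [pl_mem hL hx] at hq he
    rw [pl_mem hLg hx, List.cons.injEq] at he
    have h1 := (LvAt.stp_iff hx).1 hL
    have h2 := (LvAt.stp_iff hx).1 hLg
    have hst : stp nb g x = stp nb f x := pl_head_eq h2 h1 he.2
    rw [List.mem_cons] at hq
    rcases hq with rfl | hq
    · exact hinj q hst
    · rw [hst] at h2 he
      exact ih h2 he.2 q hq hqS

end general

variable {c m : ℕ} {f f₁ f₂ g : Pt → Fin 4} {y : ℤ}

theorem nbr_inj (x : Pt) : Function.Injective fun d => nbr d x := by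
  intro d d' h
  fin_cases d <;> fin_cases d' <;> simp_all [nbr] <;> omega

theorem mem_faces {n : ℕ} {p : Pt} :
    p ∈ faces n ↔ 1 ≤ p.1 ∧ p.1 ≤ (n : ℤ) - 1 ∧ 1 ≤ p.2 ∧ p.2 ≤ (n : ℤ) - 1 := by
  simp only [faces, Finset.mem_product, Finset.mem_Icc]
  tauto

/-- Vertical shift. -/
def shE (y : ℤ) : Pt ≃ Pt where
  toFun p := (p.1, p.2 + y)
  invFun p := (p.1, p.2 - y)
  left_inv p := by simp
  right_inv p := by simp

/-- Reflection in the centre column, shifted. -/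
def miE (c : ℕ) (y : ℤ) : Pt ≃ Pt where
  toFun p := (2 * c - p.1, p.2 + y)
  invFun p := (2 * c - p.1, p.2 - y)
  left_inv p := by simp
  right_inv p := by simp

/-- The corresponding permutation of directions. -/
def miD : Fin 4 ≃ Fin 4 := Equiv.swap 0 1

theorem sh_h (y : ℤ) (d : Fin 4) (p : Pt) :
    shE y (nbr d p) = nbr (Equiv.refl _ d) (shE y p) := by
  fin_cases d <;> simp [shE, nbr] <;> ring

theorem mi_h (c : ℕ) (y : ℤ) (d : Fin 4) (p : Pt) : miE c y (nbr d p) = nbr (miD d) (miE c y p) := by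
  fin_cases d <;> simp [miE, miD, nbr, Equiv.swap_apply_def] <;> ring

/-- The vertices of the walk in the window. -/
noncomputable def et (c m : ℕ) (f : Pt → Fin 4) : Finset Pt :=
  (win c m).filter fun q => q ∈ pl nbr (win c m) f ((c : ℤ) - 1, 0)

/-- The prescribed arrows. -/
def f0 (c : ℕ) (y : ℤ) (f₁ f₂ : Pt → Fin 4) (p : Pt) : Fin 4 :=
  if p.1 = c then 1 else if p.1 < c then f₁ ((shE y).symm p) else miD (f₂ ((miE c y).symm p))

/-- The faces with prescribed arrows. -/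
noncomputable def eta (c m : ℕ) (y : ℤ) (f₁ f₂ : Pt → Fin 4) : Finset Pt :=
  insert ((c : ℤ), y) ((et c m f₁).map (shE y).toEmbedding ∪ (et c m f₂).map (miE c y).toEmbedding)

theorem f0_sh {q : Pt} (hqW : q ∈ win c m) :
    f0 c y f₁ f₂ (shE y q) = f₁ q := by
  have := mem_win.1 hqW
  have h1 : (shE y q).1 = q.1 := rfl
  rw [f0, if_neg (by rw [h1]; omega), if_pos (by rw [h1]; omega), Equiv.symm_apply_apply]

theorem f0_mi {q : Pt} (hqW : q ∈ win c m) : f0 c y f₁ f₂ (miE c y q) = miD (f₂ q) := by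
  have := mem_win.1 hqW
  have h1 : (miE c y q).1 = 2 * c - q.1 := rfl
  rw [f0, if_neg (by rw [h1]; omega), if_neg (by rw [h1]; omega), Equiv.symm_apply_apply]

theorem sh_in (h1 : 1 ≤ y - m) (h2 : y + m ≤ 2 * (c : ℤ) - 1) :
    ∀ p ∈ win c m, shE y p ∈ faces (2 * c) := by
  intro p hp
  rw [mem_win] at hp
  rw [mem_faces]
  simp only [shE, Equiv.coe_fn_mk]
  push_cast
  omega

theorem mi_in (h1 : 1 ≤ y - m) (h2 : y + m ≤ 2 * (c : ℤ) - 1) :
    ∀ p ∈ win c m, miE c y p ∈ faces (2 * c) := by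
  intro p hp
  rw [mem_win] at hp
  rw [mem_faces]
  simp only [miE, Equiv.coe_fn_mk]
  push_cast
  omega

theorem sh_out {p : Pt} (hp : p.1 = 0) : shE y p ∉ faces (2 * c) := by
  rw [mem_faces]
  simp only [shE, Equiv.coe_fn_mk]
  omega

theorem mi_out {p : Pt} (hp : p.1 = 0) : miE c y p ∉ faces (2 * c) := by
  rw [mem_faces]
  simp only [miE, Equiv.coe_fn_mk]
  push_cast
  omega

/-- Left walk of `g`. -/
theorem left_walk (hf : f₁ ∈ LA c m) (h1 : 1 ≤ y - m) (h2 : y + m ≤ 2 * (c : ℤ) - 1)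
    (hg : ∀ q ∈ et c m f₁, g (shE y q) = f₁ q) :
    LvAt nbr (faces (2 * c)) g ((c : ℤ) - 1, y) ∧
    ex nbr (faces (2 * c)) g ((c : ℤ) - 1, y) = shE y (ex nbr (win c m) f₁ ((c : ℤ) - 1, 0)) ∧
    pl nbr (faces (2 * c)) g ((c : ℤ) - 1, y) =
      (pl nbr (win c m) f₁ ((c : ℤ) - 1, 0)).map (shE y) := by
  rw [mem_LA, mem_AF] at hf
  have h := emb_walk (g := g) (shE y) (Equiv.refl _) (sh_h y) (sh_in h1 h2)
    (hf.1.2 ((c : ℤ) - 1, 0)) (sh_out hf.2) fun q hq hqW => hg q (by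
      rw [et, Finset.mem_filter]; exact ⟨hqW, hq⟩)
  have e : shE y (((c : ℤ) - 1, 0) : Pt) = ((c : ℤ) - 1, y) := by simp [shE]
  rwa [e] at h

/-- Right walk of `g`. -/
theorem right_walk (hf : f₂ ∈ LA c m) (h1 : 1 ≤ y - m) (h2 : y + m ≤ 2 * (c : ℤ) - 1)
    (hg : ∀ q ∈ et c m f₂, g (miE c y q) = miD (f₂ q)) :
    LvAt nbr (faces (2 * c)) g ((c : ℤ) + 1, y) ∧
    ex nbr (faces (2 * c)) g ((c : ℤ) + 1, y) = miE c y (ex nbr (win c m) f₂ ((c : ℤ) - 1, 0)) ∧
    pl nbr (faces (2 * c)) g ((c : ℤ) + 1, y) =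
      (pl nbr (win c m) f₂ ((c : ℤ) - 1, 0)).map (miE c y) := by
  rw [mem_LA, mem_AF] at hf
  have h := emb_walk (g := g) (miE c y) miD (mi_h c y) (mi_in h1 h2)
    (hf.1.2 ((c : ℤ) - 1, 0)) (mi_out hf.2) fun q hq hqW => hg q (by
      rw [et, Finset.mem_filter]; exact ⟨hqW, hq⟩)
  have e : miE c y (((c : ℤ) - 1, 0) : Pt) = ((c : ℤ) + 1, y) := by
    simp [miE]; ring
  rwa [e] at h

theorem et_stp (hf : f ∈ LA c m) {q : Pt} (hq : q ∈ et c m f) :
    stp nbr f q ∈ et c m f ∨ (stp nbr f q).1 = 0 := by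
  rw [mem_LA, mem_AF] at hf
  rw [et, Finset.mem_filter] at hq
  have h := stp_mem_pl (hf.1.2 _) q hq.2 hq.1
  rcases mem_pl_or (hf.1.2 _) _ h with h' | h'
  · left; rw [et, Finset.mem_filter]; exact ⟨h', h⟩
  · right; rw [h', hf.2]

theorem mem_eta {p : Pt} : p ∈ eta c m y f₁ f₂ ↔ p = ((c : ℤ), y) ∨
    (∃ q ∈ et c m f₁, shE y q = p) ∨ (∃ q ∈ et c m f₂, miE c y q = p) := by
  simp only [eta, Finset.mem_insert, Finset.mem_union, Finset.mem_map, Equiv.coe_toEmbedding]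

theorem et_sub : et c m f ⊆ win c m := Finset.filter_subset _ _

theorem start_et (hc : 2 ≤ c) (hf : f ∈ LA c m) : (((c : ℤ) - 1, 0) : Pt) ∈ et c m f := by
  rw [mem_LA, mem_AF] at hf
  rw [et, Finset.mem_filter]
  exact ⟨start_mem hc, self_mem_pl (hf.1.2 _)⟩

theorem eta_sub (h1 : 1 ≤ y - m) (h2 : y + m ≤ 2 * (c : ℤ) - 1) :
    eta c m y f₁ f₂ ⊆ faces (2 * c) := by
  intro p hp
  rw [mem_eta] at hp
  rcases hp with rfl | ⟨q, hq, rfl⟩ | ⟨q, hq, rfl⟩
  · rw [mem_faces]; push_cast; omega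
  · exact sh_in h1 h2 q (et_sub hq)
  · exact mi_in h1 h2 q (et_sub hq)

end Pool.Agent.H88.Ust
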