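import Pool.Agent.H88.Ust.Curve

/-!
# Balanced split edges of trees, exchange of an edge
-/

namespace Pool.Agent.H88.Ust

open SimpleGraph

variable {V : Type*} {T : SimpleGraph V} {a b a' b' : V} {σ : V → Prop} {e e' : Sym2 V}

/-- `e` is an exactly balanced split edge of `T`: it is an edge of `T`, and deleting it leaves
exactly two components, each containing exactly half of the vertices. -/
def BalancedSplit (T : SimpleGraph V) (e : Sym2 V) : Prop :=
  e ∈ T.edgeSet ∧ Nat.card (T.deleteEdges {e}).ConnectedComponent = 2 ∧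
    ∀ C : (T.deleteEdges {e}).ConnectedComponent, 2 * C.supp.ncard = Nat.card V

theorem const_reach {χ : V → Prop} (h : ∀ a b, T.Adj a b → (χ a ↔ χ b))
    (hr : T.Reachable a b) : χ a ↔ χ b := by
  obtain ⟨w⟩ := hr
  induction w with
  | nil => exact Iff.rfl
  | cons hadj _ ih => exact (h _ _ hadj).trans ih

theorem side_reach (hT : T.Preconnected)
    (hσ : ∀ u v, (T.deleteEdges {s(a, b)}).Adj u v → (σ u ↔ σ v)) (hab : ¬ (σ a ↔ σ b))
    (u v : V) : (T.deleteEdges {s(a, b)}).Reachable u v ↔ (σ u ↔ σ v) := by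
  constructor
  · exact const_reach hσ
  · intro huv
    set χ : V → Prop := fun w => (T.deleteEdges {s(a, b)}).Reachable u w with hχ
    have hχc : ∀ p q, (T.deleteEdges {s(a, b)}).Adj p q → (χ p ↔ χ q) := fun p q h =>
      ⟨fun h1 => h1.trans h.reachable, fun h1 => h1.trans h.symm.reachable⟩
    have hχu : χ u := Reachable.refl u
    by_cases hc : χ a ↔ χ b
    · have : ∀ p q, T.Adj p q → (χ p ↔ χ q) := by
        intro p q h
        by_cases he : s(p, q) = s(a, b)
        · rw [Sym2.eq_iff] at he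
          rcases he with ⟨rfl, rfl⟩ | ⟨rfl, rfl⟩
          · exact hc
          · exact hc.symm
        · exact hχc p q (by rw [deleteEdges_adj]; exact ⟨h, he⟩)
      exact (const_of_conn hT χ this u v).1 hχu
    · have : ∀ p q, T.Adj p q → ((χ p ↔ σ p) ↔ (χ q ↔ σ q)) := by
        intro p q h
        by_cases he : s(p, q) = s(a, b)
        · rw [Sym2.eq_iff] at he
          rcases he with ⟨rfl, rfl⟩ | ⟨rfl, rfl⟩
          · grind
          · grind
        · have h1 : (T.deleteEdges {s(a, b)}).Adj p q := by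
            rw [deleteEdges_adj]; exact ⟨h, he⟩
          have h2 := hχc p q h1
          have h3 := hσ p q h1
          grind
      have h4 := const_of_conn hT (fun w => χ w ↔ σ w) this u v
      change χ v
      grind

theorem exch_tree [Finite V] (hT : T.IsTree) (hadj : T.Adj a b)
    (hσ : ∀ u v, (T.deleteEdges {s(a, b)}).Adj u v → (σ u ↔ σ v)) (hab : ¬ (σ a ↔ σ b))
    (h1 : ¬ (σ a' ↔ σ b')) : ((T.deleteEdges {s(a, b)}) ⊔ edge a' b').IsTree := by
  have hne : a' ≠ b' := fun h => h1 (by rw [h])
  have hreach := side_reach hT.connected.preconnected hσ hab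
  apply isTree_of_card
  · have := hT.connected.nonempty
    refine ⟨preconn_of fun χ hχ u v => ?_⟩
    have hF : ∀ p q, (T.deleteEdges {s(a, b)}).Adj p q → (χ p ↔ χ q) := fun p q h =>
      hχ p q (Or.inl h)
    have hcls : ∀ p q, (σ p ↔ σ q) → (χ p ↔ χ q) := fun p q h =>
      const_reach hF ((hreach p q).2 h)
    have hedge : χ a' ↔ χ b' := hχ a' b' (Or.inr (by rw [edge_adj]; grind))
    have e1 := hcls u a'
    have e2 := hcls u b'
    have e3 := hcls v a'
    have e4 := hcls v b'
    grind
  · have h2 := (isTree_iff_connected_and_card.1 hT).2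
    have h3 : ((T.deleteEdges {s(a, b)}) ⊔ edge a' b').edgeSet ⊆
        (T.edgeSet \ {s(a, b)}) ∪ {s(a', b')} := by
      rw [edgeSet_sup, edgeSet_deleteEdges]
      apply Set.union_subset_union_right
      intro e he
      induction e with
      | _ p q =>
        rw [mem_edgeSet, edge_adj] at he
        rw [Set.mem_singleton_iff, Sym2.eq_iff]
        exact he.1
    have h4 := Set.ncard_le_ncard h3 (Set.toFinite _)
    have h5 := Set.ncard_union_le (T.edgeSet \ {s(a, b)}) {s(a', b')}
    have h6 : (T.edgeSet \ {s(a, b)}).ncard + 1 = T.edgeSet.ncard :=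
      Set.ncard_sdiff_singleton_add_one hadj (Set.toFinite _)
    rw [Set.ncard_singleton] at h5
    rw [Nat.card_coe_set_eq] at h2
    omega

theorem exch_delete (hσ : ∀ u v, (T.deleteEdges {s(a, b)}).Adj u v → (σ u ↔ σ v))
    (h1 : ¬ (σ a' ↔ σ b')) :
    ((T.deleteEdges {s(a, b)}) ⊔ edge a' b').deleteEdges {s(a', b')} =
      T.deleteEdges {s(a, b)} := by
  ext p q
  rw [deleteEdges_adj, sup_adj, edge_adj, Set.mem_singleton_iff, Sym2.eq_iff]
  constructor
  · rintro ⟨h | h, h2⟩
    · exact h
    · exact absurd h.1 h2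
  · intro h
    refine ⟨Or.inl h, ?_⟩
    rintro (⟨rfl, rfl⟩ | ⟨rfl, rfl⟩)
    · exact h1 (hσ _ _ h)
    · exact h1 (hσ _ _ h).symm

theorem balanced_of [Finite V] (hT : T.IsTree) (hadj : T.Adj a b)
    (hσ : ∀ u v, (T.deleteEdges {s(a, b)}).Adj u v → (σ u ↔ σ v)) (hab : ¬ (σ a ↔ σ b))
    (hcard : 2 * {v | σ v}.ncard = Nat.card V) : BalancedSplit T s(a, b) := by
  have hreach := side_reach hT.connected.preconnected hσ hab
  refine ⟨hadj, ?_, ?_⟩
  · set f : (T.deleteEdges {s(a, b)}).ConnectedComponent → Prop :=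
      ConnectedComponent.lift σ (fun v w p _ => propext (const_reach hσ p.reachable)) with hf
    have hbij : Function.Bijective f := by
      constructor
      · intro C D
        refine ConnectedComponent.ind₂ (fun u v h => ?_) C D
        rw [ConnectedComponent.eq]
        exact (hreach u v).2 (iff_of_eq h)
      · intro P
        by_cases hP : P ↔ σ a
        · exact ⟨(T.deleteEdges {s(a, b)}).connectedComponentMk a, propext hP.symm⟩
        · exact ⟨(T.deleteEdges {s(a, b)}).connectedComponentMk b, propext (by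
            change σ b ↔ P; grind)⟩
    rw [Nat.card_eq_of_bijective f hbij, Nat.card_eq_fintype_card, Fintype.card_prop]
  · intro C
    refine ConnectedComponent.ind (fun u => ?_) C
    have hsupp : ((T.deleteEdges {s(a, b)}).connectedComponentMk u).supp = {v | σ v ↔ σ u} := by
      ext v
      rw [ConnectedComponent.mem_supp_iff, ConnectedComponent.eq, hreach]
      rfl
    rw [hsupp]
    by_cases hu : σ u
    · simp only [hu, iff_true]
      exact hcard
    · simp only [hu, iff_false]
      have h1 := Set.ncard_add_ncard_compl {v | σ v}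
      have h2 : {v | σ v}ᶜ = {v | ¬ σ v} := rfl
      rw [h2] at h1
      omega

theorem side_of_balanced (hT : T.IsTree) (h : BalancedSplit T e) :
    ∃ a b, e = s(a, b) ∧ T.Adj a b ∧ ∃ σ : V → Prop,
      (∀ u v, (T.deleteEdges {e}).Adj u v → (σ u ↔ σ v)) ∧ ¬ (σ a ↔ σ b) ∧
      2 * {v | σ v}.ncard = Nat.card V := by
  induction e with
  | _ a b =>
    obtain ⟨h1, -, h3⟩ := h
    refine ⟨a, b, rfl, h1, fun w => (T.deleteEdges {s(a, b)}).Reachable w a, ?_, ?_, ?_⟩
    · intro u v huv
      exact ⟨fun h => huv.symm.reachable.trans h, fun h => huv.reachable.trans h⟩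
    · have hb := isAcyclic_iff_forall_adj_isBridge.1 hT.isAcyclic h1
      rw [isBridge_iff] at hb
      intro h
      exact hb (h.1 (Reachable.refl a)).symm
    · have h4 := h3 ((T.deleteEdges {s(a, b)}).connectedComponentMk a)
      have hsupp : ((T.deleteEdges {s(a, b)}).connectedComponentMk a).supp =
          {v | (T.deleteEdges {s(a, b)}).Reachable v a} := by
        ext v
        rw [ConnectedComponent.mem_supp_iff, ConnectedComponent.eq]
        rfl
      rwa [hsupp] at h4

theorem ncard_ne [Finite V] (hcard : 2 * {v | σ v}.ncard = Nat.card V) (P : Prop) :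
    2 * {v | ¬ (σ v ↔ P)}.ncard = Nat.card V := by
  by_cases hP : P
  · simp only [hP, iff_true]
    have h1 := Set.ncard_add_ncard_compl {v | σ v}
    have h2 : {v | σ v}ᶜ = {v | ¬ σ v} := rfl
    rw [h2] at h1
    omega
  · simp only [hP, iff_false, not_not]
    exact hcard

theorem balanced_unique [Finite V] (hT : T.IsTree) (h : BalancedSplit T e)
    (h' : BalancedSplit T e') : e = e' := by
  by_contra hne
  obtain ⟨a, b, rfl, hadj, σ, hσ, hab, hcard⟩ := side_of_balanced hT h
  obtain ⟨a', b', rfl, hadj', σ', hσ', hab', hcard'⟩ := side_of_balanced hT h'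
  have h1 : σ a' ↔ σ b' := hσ a' b' (by
    rw [deleteEdges_adj]; exact ⟨hadj', fun h => hne h.symm⟩)
  have h2 : σ' a ↔ σ' b := hσ' a b (by
    rw [deleteEdges_adj]; exact ⟨hadj, hne⟩)
  set A := {v | ¬ (σ v ↔ σ a')} with hA
  set B := {v | ¬ (σ' v ↔ σ' a)} with hB
  have cA : 2 * A.ncard = Nat.card V := ncard_ne hcard _
  have cB : 2 * B.ncard = Nat.card V := ncard_ne hcard' _
  have hdis : Disjoint A B := by
    have hconst : ∀ p q, T.Adj p q → ((p ∈ A ∧ p ∈ B) ↔ (q ∈ A ∧ q ∈ B)) := by
      intro p q hpq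
      by_cases c1 : s(p, q) = s(a, b)
      · rw [Sym2.eq_iff] at c1
        rcases c1 with ⟨rfl, rfl⟩ | ⟨rfl, rfl⟩
        · simp only [hA, hB, Set.mem_ofPred_eq]; grind
        · simp only [hA, hB, Set.mem_ofPred_eq]; grind
      by_cases c2 : s(p, q) = s(a', b')
      · rw [Sym2.eq_iff] at c2
        rcases c2 with ⟨rfl, rfl⟩ | ⟨rfl, rfl⟩
        · simp only [hA, hB, Set.mem_ofPred_eq]; grind
        · simp only [hA, hB, Set.mem_ofPred_eq]; grind
      have h3 := hσ p q (by rw [deleteEdges_adj]; exact ⟨hpq, c1⟩)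
      have h4 := hσ' p q (by rw [deleteEdges_adj]; exact ⟨hpq, c2⟩)
      simp only [hA, hB, Set.mem_ofPred_eq]
      grind
    rw [Set.disjoint_left]
    intro v hvA hvB
    have h5 := (const_of_conn hT.connected.preconnected (fun w => w ∈ A ∧ w ∈ B) hconst v a).1
      ⟨hvA, hvB⟩
    exact h5.2 Iff.rfl
  have hun : (A ∪ B).ncard = Nat.card V := by
    rw [Set.ncard_union_eq hdis (Set.toFinite _) (Set.toFinite _)]
    omega
  have hall : A ∪ B = Set.univ := by
    apply Set.eq_of_subset_of_ncard_le (Set.subset_univ _) _ (Set.toFinite _)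
    rw [hun, Set.ncard_univ]
  have ha' : a' ∈ A ∪ B := hall ▸ Set.mem_univ _
  have hb' : b' ∈ A ∪ B := hall ▸ Set.mem_univ _
  simp only [hA, hB, Set.mem_union, Set.mem_ofPred_eq] at ha' hb'
  grind

end Pool.Agent.H88.Ust
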