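import Pool.Agent.H88.Ust.Exch

/-!
# Good configurations give spanning trees with a balanced split edge
-/

namespace Pool.Agent.H88.Ust

open SimpleGraph

variable {c : ℕ} {y x v : ℤ} {g : Pt → Fin 4}

/-- The lower side of the curve, on the vertices of the grid. -/
def sg (c : ℕ) (y : ℤ) (g : Pt → Fin 4) (a : Fin (2 * c) × Fin (2 * c)) : Prop := sd c y g (pt a)

theorem sg_vt [NeZero (2 * c)] {p : Pt} (hp : p ∈ PV (2 * c)) :
    sg c y g (vt p) ↔ sd c y g p := by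
  rw [sg, pt_vt hp]

theorem sg_change (hG : Good c y g) {a b : Fin (2 * c) × Fin (2 * c)}
    (hadj : (TG (2 * c) g).Adj a b) (h : ¬ (sg c y g a ↔ sg c y g b)) :
    (pt a = ((c : ℤ) + 1, y) ∧ pt b = ((c : ℤ) + 1, y + 1)) ∨
      (pt a = ((c : ℤ) + 1, y + 1) ∧ pt b = ((c : ℤ) + 1, y)) := by
  obtain ⟨h1, h2⟩ := hadj
  obtain ⟨d, hd⟩ := grid_adj_iff.1 h1
  have ma := mem_PV.1 (pt_mem a)
  have mb := mem_PV.1 (pt_mem b)
  unfold sg at h
  generalize pt a = A at *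
  generalize pt b = B at *
  obtain ⟨A1, A2⟩ := A
  obtain ⟨B1, B2⟩ := B
  push_cast at ma mb
  fin_cases d <;> simp only [nbr, Prod.mk.injEq] at hd <;> obtain ⟨r1, r2⟩ := hd
  · subst r1 r2
    obtain ⟨p, hp, hc⟩ := hG.sd_hor (by omega) (by omega) h
    exact absurd hc (h2 p hp)
  · obtain rfl : A1 = B1 + 1 := by omega
    subst r2
    obtain ⟨p, hp, hc⟩ := hG.sd_hor (x := B1) (by omega) (by omega) fun h3 => h h3.symm
    exact absurd hc.symm (h2 p hp)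
  · subst r1 r2
    rcases hG.sd_vert h with ⟨h3, h4⟩ | ⟨p, hp, hc⟩
    · left; simp only [h3, h4]; simp
    · exact absurd hc (h2 p hp)
  · obtain rfl : A2 = B2 + 1 := by omega
    subst r1
    rcases hG.sd_vert (v := B2) fun h3 => h h3.symm with ⟨h3, h4⟩ | ⟨p, hp, hc⟩
    · right; simp only [h3, h4]; simp
    · exact absurd hc.symm (h2 p hp)

section

variable [NeZero (2 * c)]

/-- First endpoint of the central edge. -/
def c1 (c : ℕ) [NeZero (2 * c)] (y : ℤ) : Fin (2 * c) × Fin (2 * c) := vt ((c : ℤ) + 1, y)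

/-- Second endpoint of the central edge. -/
def c2 (c : ℕ) [NeZero (2 * c)] (y : ℤ) : Fin (2 * c) × Fin (2 * c) := vt ((c : ℤ) + 1, y + 1)

theorem one_le_c : 1 ≤ c := by
  have := NeZero.ne (2 * c)
  omega

theorem mem1 (h : 1 ≤ y ∧ y ≤ 2 * (c : ℤ)) : ((c : ℤ) + 1, y) ∈ PV (2 * c) := by
  have := one_le_c (c := c)
  rw [mem_PV]
  push_cast
  omega

theorem mem2 (hx : 1 ≤ x ∧ x ≤ 2 * (c : ℤ)) (h : 1 ≤ y ∧ y ≤ 2 * (c : ℤ)) :
    (x, y) ∈ PV (2 * c) := by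
  rw [mem_PV]
  push_cast
  omega

theorem pt_c1 (hG : Good c y g) : pt (c1 c y) = ((c : ℤ) + 1, y) :=
  pt_vt (mem1 (by have := hG.hy; omega))

theorem pt_c2 (hG : Good c y g) : pt (c2 c y) = ((c : ℤ) + 1, y + 1) :=
  pt_vt (mem1 (by have := hG.hy; omega))

theorem sg_const (hG : Good c y g) (a b : Fin (2 * c) × Fin (2 * c))
    (hadj : ((TG (2 * c) g).deleteEdges {s(c1 c y, c2 c y)}).Adj a b) :
    sg c y g a ↔ sg c y g b := by
  rw [deleteEdges_adj] at hadj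
  by_contra h
  apply hadj.2
  rw [Set.mem_singleton_iff, Sym2.eq_iff]
  rcases sg_change hG hadj.1 h with ⟨h1, h2⟩ | ⟨h1, h2⟩
  · left
    exact ⟨pt_inj (h1.trans (pt_c1 hG).symm), pt_inj (h2.trans (pt_c2 hG).symm)⟩
  · right
    exact ⟨pt_inj (h1.trans (pt_c2 hG).symm), pt_inj (h2.trans (pt_c1 hG).symm)⟩

theorem sg_c (hG : Good c y g) : ¬ (sg c y g (c1 c y) ↔ sg c y g (c2 c y)) := by
  rw [sg, sg, pt_c1 hG, pt_c2 hG, hG.sd_mid, hG.sd_mid]
  omega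

theorem c_adj (hG : Good c y g) : (TG (2 * c) g).Adj (c1 c y) (c2 c y) := by
  have hc := one_le_c (c := c)
  have hy := hG.hy
  refine ⟨grid_adj_iff.2 ⟨2, by rw [pt_c1 hG, pt_c2 hG]; rfl⟩, ?_⟩
  rw [pt_c1 hG, pt_c2 hG]
  intro p hp hcr
  have h0 : Cr 0 ((c : ℤ), y) ((c : ℤ) + 1, y) ((c : ℤ) + 1, y + 1) := Or.inl ⟨rfl, rfl⟩
  rcases Cr.unique h0 hcr with ⟨rfl, h2⟩ | ⟨rfl, h2⟩
  · have h3 : stp nbr g ((c : ℤ), y) ∈ lw c g y := by
      rw [lw, pl_mem (hG.leaves _) hp]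
      exact List.mem_cons_of_mem _ (self_mem_pl (hG.leaves _))
    have h4 := (hG.lft _ h3).1
    simp only [stp, h2, nbr] at h4
    omega
  · have h3 : stp nbr g ((c : ℤ) + 1, y) ∈ rw' c g y := by
      have hp' : ((c : ℤ) + 1, y) ∈ faces (2 * c) := hp
      rw [rw', pl_mem (hG.leaves _) hp']
      exact List.mem_cons_of_mem _ (self_mem_pl (hG.leaves _))
    have h4 := (hG.rgt _ h3).1
    have h5 : stp nbr g ((c : ℤ) + 1, y) = ((c : ℤ), y) := h2.symm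
    rw [h5] at h4
    simp only at h4
    omega

omit [NeZero (2 * c)] in
theorem card_V : Nat.card (Fin (2 * c) × Fin (2 * c)) = 2 * (2 * c * c) := by
  rw [Nat.card_eq_fintype_card, Fintype.card_prod, Fintype.card_fin]
  ring

theorem sg_card (hG : Good c y g) :
    2 * {a | sg c y g a}.ncard = Nat.card (Fin (2 * c) × Fin (2 * c)) := by
  rw [card_V, ← hG.area, ← Set.ncard_coe_finset,
    ← Set.ncard_image_of_injective {a | sg c y g a} (f := pt) fun a b h => pt_inj h]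
  congr 2
  ext p
  simp only [Set.mem_image, Set.mem_ofPred_eq, Finset.coe_filter, Finset.mem_product,
    Finset.mem_Icc]
  constructor
  · rintro ⟨a, ha, rfl⟩
    have := mem_PV.1 (pt_mem a)
    push_cast at this
    exact ⟨by tauto, ha⟩
  · rintro ⟨h1, h2⟩
    have hp : p ∈ PV (2 * c) := by
      rw [mem_PV]
      push_cast
      tauto
    exact ⟨vt p, (sg_vt hp).2 h2, pt_vt hp⟩

theorem exists_col (hG : Good c y g) (hx : 1 ≤ x ∧ x ≤ 2 * (c : ℤ)) :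
    ∃ v : ℤ, 1 ≤ v ∧ v ≤ 2 * (c : ℤ) - 1 ∧ sd c y g (x, v) ∧ ¬ sd c y g (x, v + 1) := by
  by_contra hcon
  push Not at hcon
  have key : ∀ k : ℕ, (k : ℤ) + 1 ≤ 2 * c → sd c y g (x, (k : ℤ) + 1) := by
    intro k
    induction k with
    | zero => intro _; exact hG.sd_bot x
    | succ k ih =>
      intro h
      push_cast at h ⊢
      exact hcon _ (by omega) (by omega) (ih (by omega))
  have hc := one_le_c (c := c)
  have h1 := key (2 * c - 1) (by omega)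
  have h2 : ((2 * c - 1 : ℕ) : ℤ) + 1 = 2 * c := by omega
  rw [h2] at h1
  exact hG.sd_top hx.1 hx.2 h1

/-- The height of an edge of the column `x` which joins the two sides of the curve. -/
noncomputable def cv (c : ℕ) (y : ℤ) (g : Pt → Fin 4) (x : ℤ) : ℤ :=
  Classical.epsilon fun v : ℤ =>
    1 ≤ v ∧ v ≤ 2 * (c : ℤ) - 1 ∧ sd c y g (x, v) ∧ ¬ sd c y g (x, v + 1)

theorem cv_spec (hG : Good c y g) (hx : 1 ≤ x ∧ x ≤ 2 * (c : ℤ)) :
    1 ≤ cv c y g x ∧ cv c y g x ≤ 2 * (c : ℤ) - 1 ∧ sd c y g (x, cv c y g x) ∧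
      ¬ sd c y g (x, cv c y g x + 1) :=
  Classical.epsilon_spec (exists_col hG hx)

/-- First endpoint of the new edge. -/
noncomputable def n1 (c : ℕ) [NeZero (2 * c)] (y : ℤ) (g : Pt → Fin 4) (x : ℤ) :
    Fin (2 * c) × Fin (2 * c) := vt (x, cv c y g x)

/-- Second endpoint of the new edge. -/
noncomputable def n2 (c : ℕ) [NeZero (2 * c)] (y : ℤ) (g : Pt → Fin 4) (x : ℤ) :
    Fin (2 * c) × Fin (2 * c) := vt (x, cv c y g x + 1)

theorem pt_n1 (hG : Good c y g) (hx : 1 ≤ x ∧ x ≤ 2 * (c : ℤ)) :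
    pt (n1 c y g x) = (x, cv c y g x) :=
  pt_vt (mem2 hx (by have := cv_spec hG hx; omega))

theorem pt_n2 (hG : Good c y g) (hx : 1 ≤ x ∧ x ≤ 2 * (c : ℤ)) :
    pt (n2 c y g x) = (x, cv c y g x + 1) :=
  pt_vt (mem2 hx (by have := cv_spec hG hx; omega))

/-- The tree obtained by exchanging the central edge with the edge of the column `x`. -/
noncomputable def TT (c : ℕ) [NeZero (2 * c)] (y : ℤ) (g : Pt → Fin 4) (x : ℤ) :
    SimpleGraph (Fin (2 * c) × Fin (2 * c)) :=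
  ((TG (2 * c) g).deleteEdges {s(c1 c y, c2 c y)}) ⊔ edge (n1 c y g x) (n2 c y g x)

theorem sg_n (hG : Good c y g) (hx : 1 ≤ x ∧ x ≤ 2 * (c : ℤ)) :
    ¬ (sg c y g (n1 c y g x) ↔ sg c y g (n2 c y g x)) := by
  rw [sg, sg, pt_n1 hG hx, pt_n2 hG hx]
  have h := cv_spec hG hx
  tauto

theorem TT_tree (hG : Good c y g) (hx : 1 ≤ x ∧ x ≤ 2 * (c : ℤ)) : (TT c y g x).IsTree :=
  exch_tree (TG_tree hG.leaves) (c_adj hG) (sg_const hG) (sg_c hG) (sg_n hG hx)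

theorem TT_delete (hG : Good c y g) (hx : 1 ≤ x ∧ x ≤ 2 * (c : ℤ)) :
    (TT c y g x).deleteEdges {s(n1 c y g x, n2 c y g x)} =
      (TG (2 * c) g).deleteEdges {s(c1 c y, c2 c y)} :=
  exch_delete (sg_const hG) (sg_n hG hx)

theorem TT_le (hG : Good c y g) (hx : 1 ≤ x ∧ x ≤ 2 * (c : ℤ)) : TT c y g x ≤ grid (2 * c) := by
  refine sup_le ((deleteEdges_le _).trans (TG_le _ _)) ?_
  intro a b hab
  rw [edge_adj] at hab
  have h : (grid (2 * c)).Adj (n1 c y g x) (n2 c y g x) :=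
    grid_adj_iff.2 ⟨2, by rw [pt_n1 hG hx, pt_n2 hG hx]; rfl⟩
  rcases hab.1 with ⟨rfl, rfl⟩ | ⟨rfl, rfl⟩
  · exact h
  · exact h.symm

theorem TT_bal (hG : Good c y g) (hx : 1 ≤ x ∧ x ≤ 2 * (c : ℤ)) :
    BalancedSplit (TT c y g x) s(n1 c y g x, n2 c y g x) := by
  have hne : n1 c y g x ≠ n2 c y g x := fun h => sg_n hG hx (by rw [h])
  apply balanced_of (TT_tree hG hx) (σ := sg c y g)
  · exact Or.inr (by rw [edge_adj]; exact ⟨Or.inl ⟨rfl, rfl⟩, hne⟩)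
  · intro u v huv
    rw [TT_delete hG hx] at huv
    exact sg_const hG u v huv
  · exact sg_n hG hx
  · exact sg_card hG

theorem TT_inj {y' x' : ℤ} {g' : Pt → Fin 4} (hG : Good c y g) (hG' : Good c y' g')
    (hx : 1 ≤ x ∧ x ≤ 2 * (c : ℤ)) (hx' : 1 ≤ x' ∧ x' ≤ 2 * (c : ℤ))
    (h : TT c y g x = TT c y' g' x') : y = y' ∧ g = g' ∧ x = x' := by
  have hc := one_le_c (c := c)
  have hb := TT_bal hG hx
  have hb' := TT_bal hG' hx'
  have he : s(n1 c y g x, n2 c y g x) = s(n1 c y' g' x', n2 c y' g' x') := by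
    rw [← h] at hb'
    exact balanced_unique (TT_tree hG hx) hb hb'
  have hxx : x = x' := by
    rw [Sym2.eq_iff] at he
    rcases he with ⟨h1, -⟩ | ⟨h1, -⟩
    · have h2 := congrArg pt h1
      rw [pt_n1 hG hx, pt_n1 hG' hx'] at h2
      exact congrArg Prod.fst h2
    · have h2 := congrArg pt h1
      rw [pt_n1 hG hx, pt_n2 hG' hx'] at h2
      exact congrArg Prod.fst h2
  have hF : (TG (2 * c) g).deleteEdges {s(c1 c y, c2 c y)} =
      (TG (2 * c) g').deleteEdges {s(c1 c y', c2 c y')} := by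
    rw [← TT_delete hG hx, ← TT_delete hG' hx', h, he]
  have r1 := side_reach (TG_tree hG.leaves).connected.preconnected (sg_const hG) (sg_c hG)
  have r2 := side_reach (TG_tree hG'.leaves).connected.preconnected (sg_const hG') (sg_c hG')
  rw [hF] at r1
  have hs : ∀ v : ℤ, 1 ≤ v ∧ v ≤ 2 * (c : ℤ) → (v ≤ y ↔ v ≤ y') := by
    intro v hv
    have h1 := r1 (vt ((c : ℤ) + 1, v)) (vt ((c : ℤ) + 1, 1))
    have h2 := r2 (vt ((c : ℤ) + 1, v)) (vt ((c : ℤ) + 1, 1))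
    rw [sg_vt (mem1 hv), sg_vt (mem1 (by omega)), hG.sd_mid, hG.sd_mid] at h1
    rw [sg_vt (mem1 hv), sg_vt (mem1 (by omega)), hG'.sd_mid, hG'.sd_mid] at h2
    have := hG.hy
    have := hG'.hy
    tauto
  have hyy : y = y' := by
    have h1 := hG.hy
    have h2 := hG'.hy
    have h3 := hs y (by omega)
    have h4 := hs y' (by omega)
    omega
  subst hyy
  refine ⟨rfl, ?_, hxx⟩
  apply TG_inj hG.mem hG'.mem
  ext a b
  by_cases hab : s(a, b) = s(c1 c y, c2 c y)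
  · rw [Sym2.eq_iff] at hab
    rcases hab with ⟨rfl, rfl⟩ | ⟨rfl, rfl⟩
    · exact ⟨fun _ => c_adj hG', fun _ => c_adj hG⟩
    · exact ⟨fun _ => (c_adj hG').symm, fun _ => (c_adj hG).symm⟩
  · have h1 : ((TG (2 * c) g).deleteEdges {s(c1 c y, c2 c y)}).Adj a b ↔
        ((TG (2 * c) g').deleteEdges {s(c1 c y, c2 c y)}).Adj a b := by rw [hF]
    rw [deleteEdges_adj, deleteEdges_adj, Set.mem_singleton_iff] at h1
    tauto

/-- The spanning trees of the grid which have a balanced split edge. -/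
def balTrees (n : ℕ) : Set (SimpleGraph (Fin n × Fin n)) :=
  {T | T ≤ grid n ∧ T.IsTree ∧ ∃ e, BalancedSplit T e}

theorem bal_lower : 2 * c * (GQ c).card ≤ (balTrees (2 * c)).ncard := by
  have h1 : ((GQ c ×ˢ Finset.Icc (1 : ℤ) (2 * c)) : Finset _).card = 2 * c * (GQ c).card := by
    rw [Finset.card_product, Int.card_Icc, mul_comm]
    congr 1
    omega
  rw [← h1, ← Set.ncard_coe_finset]
  apply Set.ncard_le_ncard_of_injOn
    (fun q : (ℤ × (Pt → Fin 4)) × ℤ => TT c q.1.1 q.1.2 q.2) _ _ (Set.toFinite _)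
  · rintro ⟨⟨y, g⟩, x⟩ hq
    rw [Finset.mem_coe, Finset.mem_product, mem_GQ, Finset.mem_Icc] at hq
    exact ⟨TT_le hq.1 hq.2, TT_tree hq.1 hq.2, _, TT_bal hq.1 hq.2⟩
  · rintro ⟨⟨y, g⟩, x⟩ hq ⟨⟨y', g'⟩, x'⟩ hq' h
    rw [Finset.mem_coe, Finset.mem_product, mem_GQ, Finset.mem_Icc] at hq hq'
    obtain ⟨h1, h2, h3⟩ := TT_inj hq.1 hq'.1 hq.2 hq'.2 h
    subst h1 h2 h3
    rfl

end

end Pool.Agent.H88.Ust
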