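import Pool.Agent.H88.Ust.Defs

/-!
# Arrow configurations on a finite set: general facts
-/

namespace Pool.Agent.H88.Ust

variable {P : Type*} {nb : Fin 4 → P → P} {S T : Finset P} {f g : P → Fin 4} {x y z v : P}

theorem tau_not_mem (hx : x ∉ S) : tau nb S f x = 0 := by
  rw [tau, Nat.sInf_eq_zero]
  left
  simpa using hx

theorem LvAt.stp_iff (hx : x ∈ S) : LvAt nb S f x ↔ LvAt nb S f (stp nb f x) := by
  constructor
  · rintro ⟨k, hk⟩
    cases k with
    | zero => exact absurd hx hk
    | succ k => exact ⟨k, by simpa [Function.iterate_succ_apply] using hk⟩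
  · rintro ⟨k, hk⟩
    exact ⟨k + 1, by simpa [Function.iterate_succ_apply] using hk⟩

theorem tau_mem (h : LvAt nb S f x) (hx : x ∈ S) :
    tau nb S f x = tau nb S f (stp nb f x) + 1 := by
  have h1 : (1 : ℕ) ≤ sInf {k | (stp nb f)^[k] x ∉ S} := by
    rw [Nat.one_le_iff_ne_zero]
    intro h0
    rw [Nat.sInf_eq_zero] at h0
    rcases h0 with h0 | h0
    · exact h0 (by simpa using hx)
    · obtain ⟨k, hk⟩ := h
      have : k ∈ {k | (stp nb f)^[k] x ∉ S} := hk
      rw [h0] at this
      exact this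
  have := Nat.sInf_add (p := fun k => (stp nb f)^[k] x ∉ S) h1
  rw [tau, ← this, tau]
  rfl

theorem ex_not_mem (hx : x ∉ S) : ex nb S f x = x := by
  rw [ex, tau_not_mem hx]; rfl

theorem ex_mem (h : LvAt nb S f x) (hx : x ∈ S) :
    ex nb S f x = ex nb S f (stp nb f x) := by
  rw [ex, ex, tau_mem h hx, Function.iterate_succ_apply]

theorem pl_not_mem (hx : x ∉ S) : pl nb S f x = [x] := by
  rw [pl, tau_not_mem hx]; rfl

theorem pl_mem (h : LvAt nb S f x) (hx : x ∈ S) :
    pl nb S f x = x :: pl nb S f (stp nb f x) := by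
  rw [pl, pl, tau_mem h hx, List.range_succ_eq_map]
  simp only [List.map_cons, List.map_map, Function.iterate_zero, id_eq]
  rfl

/-- Induction along the walk. -/
theorem lv_induct {Φ : P → Prop} (h0 : ∀ x, x ∉ S → Φ x)
    (h1 : ∀ x, x ∈ S → LvAt nb S f x → Φ (stp nb f x) → Φ x) : ∀ x, LvAt nb S f x → Φ x := by
  have key : ∀ k x, (stp nb f)^[k] x ∉ S → Φ x := by
    intro k
    induction k with
    | zero => intro x hx; exact h0 x hx
    | succ k ih =>
      intro x hx
      by_cases hxS : x ∈ S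
      · exact h1 x hxS ⟨k + 1, hx⟩ (ih _ (by simpa [Function.iterate_succ_apply] using hx))
      · exact h0 x hxS
  rintro x ⟨k, hk⟩
  exact key k x hk

theorem lv_of_not_mem (hx : x ∉ S) : LvAt nb S f x := ⟨0, hx⟩

theorem ex_nmem : LvAt nb S f x → ex nb S f x ∉ S := by
  revert x
  apply lv_induct
  · intro x hx; rwa [ex_not_mem hx]
  · intro x hx h ih; rwa [ex_mem h hx]

theorem self_mem_pl : LvAt nb S f x → x ∈ pl nb S f x := by
  intro h
  by_cases hx : x ∈ S
  · rw [pl_mem h hx]; exact List.mem_cons_self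
  · rw [pl_not_mem hx]; exact List.mem_singleton_self x

theorem ex_mem_pl : LvAt nb S f x → ex nb S f x ∈ pl nb S f x := by
  revert x
  apply lv_induct
  · intro x hx; rw [ex_not_mem hx, pl_not_mem hx]; exact List.mem_singleton_self x
  · intro x hx h ih; rw [ex_mem h hx, pl_mem h hx]; exact List.mem_cons_of_mem _ ih

/-- Points on the walk: same exit point, smaller exit time, they leave as well. -/
theorem mem_pl : LvAt nb S f x → ∀ y ∈ pl nb S f x,
    LvAt nb S f y ∧ ex nb S f y = ex nb S f x ∧ tau nb S f y ≤ tau nb S f x := by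
  revert x
  apply lv_induct
  · intro x hx y hy
    rw [pl_not_mem hx, List.mem_singleton] at hy
    subst hy
    exact ⟨lv_of_not_mem hx, rfl, le_rfl⟩
  · intro x hx h ih y hy
    rw [pl_mem h hx, List.mem_cons] at hy
    rcases hy with rfl | hy
    · exact ⟨h, rfl, le_rfl⟩
    · obtain ⟨a, b, c⟩ := ih y hy
      exact ⟨a, by rw [b, ex_mem h hx], by rw [tau_mem h hx]; omega⟩

/-- No return. -/
theorem not_mem_pl_stp (h : LvAt nb S f x) (hx : x ∈ S) : x ∉ pl nb S f (stp nb f x) := by
  intro hm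
  have := (mem_pl ((LvAt.stp_iff hx).1 h) x hm).2.2
  rw [tau_mem h hx] at this
  omega

/-- A point of the walk is in `S` or is the exit point. -/
theorem mem_pl_or : LvAt nb S f x → ∀ y ∈ pl nb S f x, y ∈ S ∨ y = ex nb S f x := by
  revert x
  apply lv_induct
  · intro x hx y hy
    rw [pl_not_mem hx, List.mem_singleton] at hy
    right; rw [hy, ex_not_mem hx]
  · intro x hx h ih y hy
    rw [pl_mem h hx, List.mem_cons] at hy
    rcases hy with rfl | hy
    · exact Or.inl hx
    · rw [ex_mem h hx]; exact ih y hy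

/-- If `g` agrees with `f` on `S` along the walk of `f` then the walks agree. -/
theorem walk_congr : LvAt nb S f x → (∀ y ∈ pl nb S f x, y ∈ S → g y = f y) →
    LvAt nb S g x ∧ ex nb S g x = ex nb S f x ∧ pl nb S g x = pl nb S f x ∧
      tau nb S g x = tau nb S f x := by
  revert x
  apply lv_induct
  · intro x hx _
    exact ⟨lv_of_not_mem hx, by rw [ex_not_mem hx, ex_not_mem hx],
      by rw [pl_not_mem hx, pl_not_mem hx], by rw [tau_not_mem hx, tau_not_mem hx]⟩
  · intro x hx h ih hg
    have hgx : g x = f x := hg x (self_mem_pl h) hx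
    have hst : stp nb g x = stp nb f x := by rw [stp, stp, hgx]
    rw [pl_mem h hx] at hg
    obtain ⟨a, b, c, d⟩ := ih fun y hy hyS => hg y (List.mem_cons_of_mem _ hy) hyS
    have hL : LvAt nb S g x := (LvAt.stp_iff hx).2 (by rw [hst]; exact a)
    refine ⟨hL, ?_, ?_, ?_⟩
    · rw [ex_mem hL hx, ex_mem h hx, hst, b]
    · rw [pl_mem hL hx, pl_mem h hx, hst, c]
    · rw [tau_mem hL hx, tau_mem h hx, hst, d]

theorem walk_congr_on (h : LvAt nb S f x) (hg : ∀ y ∈ S, g y = f y) :
    LvAt nb S g x ∧ ex nb S g x = ex nb S f x ∧ pl nb S g x = pl nb S f x ∧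
      tau nb S g x = tau nb S f x :=
  walk_congr h fun y _ hy => hg y hy

/-- Leaving a larger set implies leaving a smaller set. -/
theorem LvAt.anti (h : LvAt nb T f x) (hST : S ⊆ T) : LvAt nb S f x := by
  obtain ⟨k, hk⟩ := h
  exact ⟨k, fun h => hk (hST h)⟩

theorem Leaves.anti (h : Leaves nb T f) (hST : S ⊆ T) : Leaves nb S f := fun x => (h x).anti hST

/-- If from `x` one reaches `ex S f x` and this point leaves `T`, then `x` leaves `T`. -/
theorem lv_of_ex (hST : S ⊆ T) : LvAt nb S f x → LvAt nb T f (ex nb S f x) → LvAt nb T f x := by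
  revert x
  apply lv_induct
  · intro x hx h; rwa [ex_not_mem hx] at h
  · intro x hx h ih h2
    rw [ex_mem h hx] at h2
    exact (LvAt.stp_iff (hST hx)).2 (ih h2)

end Pool.Agent.H88.Ust
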