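import Pool.Agent.H88.Ust.Mass2

/-!
# The grid graph, spanning trees, arrow configurations on the faces
-/

namespace Pool.Agent.H88.Ust

open SimpleGraph

/-- The `n × n` square grid graph: two vertices are adjacent when they differ by `1` in exactly one
coordinate. -/
def grid (n : ℕ) : SimpleGraph (Fin n × Fin n) where
  Adj a b := (a.1 = b.1 ∧ ((a.2 : ℕ) + 1 = b.2 ∨ (b.2 : ℕ) + 1 = a.2)) ∨
    (a.2 = b.2 ∧ ((a.1 : ℕ) + 1 = b.1 ∨ (b.1 : ℕ) + 1 = a.1))
  symm := by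
    constructor
    rintro a b (⟨h1, h2⟩ | ⟨h1, h2⟩)
    · exact Or.inl ⟨h1.symm, h2.symm⟩
    · exact Or.inr ⟨h1.symm, h2.symm⟩
  loopless := by
    constructor
    rintro a (⟨-, h⟩ | ⟨-, h⟩) <;> omega

/-- Coordinates `1, ..., n`. -/
def pt {n : ℕ} (a : Fin n × Fin n) : Pt := ((a.1 : ℤ) + 1, (a.2 : ℤ) + 1)

/-- The vertices of the grid as points. -/
noncomputable def PV (n : ℕ) : Finset Pt := Finset.Icc 1 (n : ℤ) ×ˢ Finset.Icc 1 (n : ℤ)

theorem mem_PV {n : ℕ} {p : Pt} : p ∈ PV n ↔ 1 ≤ p.1 ∧ p.1 ≤ n ∧ 1 ≤ p.2 ∧ p.2 ≤ n := by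
  simp only [PV, Finset.mem_product, Finset.mem_Icc]
  tauto

theorem pt_mem {n : ℕ} (a : Fin n × Fin n) : pt a ∈ PV n := by
  rw [mem_PV]
  have h1 := a.1.2
  have h2 := a.2.2
  simp only [pt]
  omega

theorem pt_inj {n : ℕ} {a b : Fin n × Fin n} (h : pt a = pt b) : a = b := by
  simp only [pt, Prod.mk.injEq] at h
  ext
  · omega
  · omega

/-- The vertex with given coordinates. -/
def vt {n : ℕ} [NeZero n] (p : Pt) : Fin n × Fin n :=
  (Fin.ofNat n (p.1 - 1).toNat, Fin.ofNat n (p.2 - 1).toNat)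

theorem pt_vt {n : ℕ} [NeZero n] {p : Pt} (hp : p ∈ PV n) : pt (vt p : Fin n × Fin n) = p := by
  rw [mem_PV] at hp
  obtain ⟨x, y⟩ := p
  simp only at hp
  simp only [pt, vt, Fin.val_ofNat, Prod.mk.injEq]
  rw [Nat.mod_eq_of_lt (by omega), Nat.mod_eq_of_lt (by omega)]
  omega

theorem vt_pt {n : ℕ} [NeZero n] (a : Fin n × Fin n) : vt (pt a) = a :=
  pt_inj (pt_vt (pt_mem a))

theorem grid_adj_iff {n : ℕ} {a b : Fin n × Fin n} :
    (grid n).Adj a b ↔ ∃ d, pt b = nbr d (pt a) := by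
  constructor
  · rintro (⟨h1, h2 | h2⟩ | ⟨h1, h2 | h2⟩)
    · exact ⟨2, by simp only [pt, nbr, Prod.mk.injEq]; rw [h1]; omega⟩
    · exact ⟨3, by simp only [pt, nbr, Prod.mk.injEq]; rw [h1]; omega⟩
    · exact ⟨0, by simp only [pt, nbr, Prod.mk.injEq]; rw [h1]; omega⟩
    · exact ⟨1, by simp only [pt, nbr, Prod.mk.injEq]; rw [h1]; omega⟩
  · rintro ⟨d, hd⟩
    fin_cases d
    · right
      simp only [pt, nbr, Prod.mk.injEq] at hd
      exact ⟨by ext; omega, by omega⟩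
    · right
      simp only [pt, nbr, Prod.mk.injEq] at hd
      exact ⟨by ext; omega, by omega⟩
    · left
      simp only [pt, nbr, Prod.mk.injEq] at hd
      exact ⟨by ext; omega, by omega⟩
    · left
      simp only [pt, nbr, Prod.mk.injEq] at hd
      exact ⟨by ext; omega, by omega⟩

theorem grid_eq (n : ℕ) : grid n = pathGraph n □ pathGraph n := by
  ext a b
  rw [boxProd_adj, pathGraph_adj, pathGraph_adj]
  simp only [grid]
  tauto

theorem grid_connected (n : ℕ) [NeZero n] : (grid n).Connected := by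
  obtain ⟨k, rfl⟩ : ∃ k, n = k + 1 := ⟨n - 1, by have := NeZero.ne n; omega⟩
  rw [grid_eq]
  exact (pathGraph_connected k).boxProd (pathGraph_connected k)

/-- First endpoint of the edge crossed from the face `p` in direction `d`. -/
def e1 (d : Fin 4) (p : Pt) : Pt :=
  match d with
  | 0 => (p.1 + 1, p.2)
  | 1 => (p.1, p.2)
  | 2 => (p.1, p.2 + 1)
  | 3 => (p.1, p.2)

/-- Second endpoint. -/
def e2 (d : Fin 4) (p : Pt) : Pt :=
  match d with
  | 0 => (p.1 + 1, p.2 + 1)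
  | 1 => (p.1, p.2 + 1)
  | 2 => (p.1 + 1, p.2 + 1)
  | 3 => (p.1 + 1, p.2)

/-- The edge `a b` is crossed when one leaves the face `p` in direction `d`. -/
def Cr (d : Fin 4) (p a b : Pt) : Prop := (a = e1 d p ∧ b = e2 d p) ∨ (a = e2 d p ∧ b = e1 d p)

theorem Cr.symm {d : Fin 4} {p a b : Pt} (h : Cr d p a b) : Cr d p b a := by
  rcases h with h | h
  · exact Or.inr ⟨h.2, h.1⟩
  · exact Or.inl ⟨h.2, h.1⟩

theorem Cr.unique {d d' : Fin 4} {p q a b : Pt} (h : Cr d p a b) (h' : Cr d' q a b) :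
    (q = p ∧ d' = d) ∨ (q = nbr d p ∧ p = nbr d' q) := by
  obtain ⟨p1, p2⟩ := p
  obtain ⟨q1, q2⟩ := q
  obtain ⟨a1, a2⟩ := a
  obtain ⟨b1, b2⟩ := b
  unfold Cr at h h'
  fin_cases d <;> fin_cases d' <;>
    simp only [e1, e2, nbr, Prod.mk.injEq] at h h' ⊢ <;> first | omega | skip
  all_goals simp
  all_goals omega

/-- The complementary graph of the arrows. -/
def TG (n : ℕ) (g : Pt → Fin 4) : SimpleGraph (Fin n × Fin n) where
  Adj a b := (grid n).Adj a b ∧ ∀ p ∈ faces n, ¬ Cr (g p) p (pt a) (pt b)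
  symm := by
    constructor
    rintro a b ⟨h1, h2⟩
    exact ⟨h1.symm, fun p hp h => h2 p hp h.symm⟩
  loopless := by
    constructor
    rintro a ⟨h1, -⟩
    exact h1.ne rfl

theorem TG_le (n : ℕ) (g : Pt → Fin 4) : TG n g ≤ grid n := fun _ _ h => h.1

end Pool.Agent.H88.Ust
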