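import Pool.Agent.H88.Ust.Gen

/-!
# The exit distribution is harmonic; maximum principle
-/

namespace Pool.Agent.H88.Ust

variable {P : Type*} {nb : Fin 4 → P → P} {S T : Finset P} {f g : P → Fin 4} {x y z v : P}

open Classical in
/-- Changing one arrow, if the new configuration has no cycle. -/
noncomputable def swp (nb : Fin 4 → P → P) (S : Finset P) (z : P) (q : (P → Fin 4) × Fin 4) :
    (P → Fin 4) × Fin 4 :=
  if Leaves nb S (Function.update q.1 z q.2) then (Function.update q.1 z q.2, q.1 z) else q

theorem swp_swp (nb : Fin 4 → P → P) (S : Finset P) (z : P) (q : (P → Fin 4) × Fin 4)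
    (hq : Leaves nb S q.1) : swp nb S z (swp nb S z q) = q := by
  classical
  obtain ⟨f, d⟩ := q
  simp only at hq
  by_cases h : Leaves nb S (Function.update f z d)
  · have h1 : swp nb S z (f, d) = (Function.update f z d, f z) := by simp [swp, h]
    rw [h1]
    have h2 : Function.update (Function.update f z d) z (f z) = f := by simp
    simp [swp, hq]
  · have h1 : swp nb S z (f, d) = (f, d) := by simp [swp, h]
    rw [h1, h1]

theorem swp_mem (hz : z ∈ S) {q : (P → Fin 4) × Fin 4} (hq : q.1 ∈ AF nb S) :
    (swp nb S z q).1 ∈ AF nb S := by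
  classical
  unfold swp
  split_ifs with h
  · rw [mem_AF] at hq ⊢
    refine ⟨fun x hx => ?_, h⟩
    have hxz : x ≠ z := fun h => hx (h ▸ hz)
    simpa [Function.update_of_ne hxz] using hq.1 x hx
  · exact hq

/-- Exit point after the swap. -/
theorem swp_ex (hz : z ∈ S) {q : (P → Fin 4) × Fin 4} (hq : q.1 ∈ AF nb S) :
    ex nb S q.1 (nb q.2 z) = ex nb S (swp nb S z q).1 z := by
  classical
  obtain ⟨f, d⟩ := q
  simp only at hq ⊢
  rw [mem_AF] at hq
  obtain ⟨hf0, hf⟩ := hq
  have hst : stp nb (Function.update f z d) z = nb d z := by simp [stp]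
  by_cases h : Leaves nb S (Function.update f z d)
  · have h1 : (swp nb S z (f, d)).1 = Function.update f z d := by simp [swp, h]
    rw [h1, ex_mem (h z) hz, hst]
    have hn := not_mem_pl_stp (h z) hz
    rw [hst] at hn
    refine (walk_congr (h _) fun y hy _ => ?_).2.1
    have : y ≠ z := fun e => hn (e ▸ hy)
    rw [Function.update_of_ne this]
  · have h1 : (swp nb S z (f, d)).1 = f := by simp [swp, h]
    rw [h1]
    by_cases hm : z ∈ pl nb S f (nb d z)
    · exact ((mem_pl (hf _) z hm).2.1).symm
    · exfalso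
      apply h
      -- the walk from `nb d z` does not change
      have h2 : LvAt nb S (Function.update f z d) (nb d z) := by
        refine (walk_congr (hf _) fun y hy _ => ?_).1
        have : y ≠ z := fun e => hm (e ▸ hy)
        rw [Function.update_of_ne this]
      have h3 : LvAt nb S (Function.update f z d) z :=
        (LvAt.stp_iff hz).2 (by rw [hst]; exact h2)
      intro x
      have key : ∀ x, LvAt nb S f x → LvAt nb S (Function.update f z d) x := by
        apply lv_induct
        · intro x hx; exact lv_of_not_mem hx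
        · intro x hx _ ih
          by_cases hxz : x = z
          · rw [hxz]; exact h3
          · refine (LvAt.stp_iff hx).2 ?_
            have : stp nb (Function.update f z d) x = stp nb f x := by
              rw [stp, stp, Function.update_of_ne hxz]
            rwa [this]
      exact key x (hf x)

/-- The exit distribution is harmonic. -/
theorem harmonic (hz : z ∈ S) (r : P → ℝ) :
    ∑ d : Fin 4, ∑ f ∈ AF nb S, r (ex nb S f (nb d z)) = 4 * ∑ f ∈ AF nb S, r (ex nb S f z) := by
  classical
  have h1 : ∑ q ∈ AF nb S ×ˢ (Finset.univ : Finset (Fin 4)), r (ex nb S q.1 (nb q.2 z)) =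
      ∑ q ∈ AF nb S ×ˢ (Finset.univ : Finset (Fin 4)), r (ex nb S q.1 z) := by
    refine Finset.sum_bij' (fun q _ => swp nb S z q) (fun q _ => swp nb S z q) ?_ ?_ ?_ ?_ ?_
    · intro q hq
      rw [Finset.mem_product] at hq ⊢
      exact ⟨swp_mem hz hq.1, Finset.mem_univ _⟩
    · intro q hq
      rw [Finset.mem_product] at hq ⊢
      exact ⟨swp_mem hz hq.1, Finset.mem_univ _⟩
    · intro q hq
      rw [Finset.mem_product] at hq
      exact swp_swp nb S z q (mem_AF nb |>.1 hq.1).2
    · intro q hq
      rw [Finset.mem_product] at hq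
      exact swp_swp nb S z q (mem_AF nb |>.1 hq.1).2
    · intro q hq
      rw [Finset.mem_product] at hq
      rw [swp_ex hz hq.1]
  rw [Finset.sum_product_right] at h1
  rw [h1, Finset.sum_product]
  simp [Finset.mul_sum]

/-- Maximum principle. -/
theorem maxp (hne : (AF nb S).Nonempty) (u : P → ℝ)
    (hs : ∀ x ∈ S, ∑ d : Fin 4, u (nb d x) ≤ 4 * u x)
    (hb : ∀ x ∈ S, ∀ d, nb d x ∉ S → 0 ≤ u (nb d x)) : ∀ x ∈ S, 0 ≤ u x := by
  classical
  by_contra hcon
  push Not at hcon
  obtain ⟨x₀, hx₀, hu₀⟩ := hcon
  obtain ⟨m, hm, hmin⟩ := S.exists_min_image u ⟨x₀, hx₀⟩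
  have hmneg : u m < 0 := lt_of_le_of_lt (hmin x₀ hx₀) hu₀
  obtain ⟨f, hf⟩ := hne
  rw [mem_AF] at hf
  -- all neighbours of a minimum are at least the minimum
  have hnb : ∀ x ∈ S, ∀ d, u m ≤ u (nb d x) := by
    intro x hx d
    by_cases h : nb d x ∈ S
    · exact hmin _ h
    · exact le_trans hmneg.le (hb x hx d h)
  have hall : ∀ x ∈ S, u x = u m → ∀ d, u (nb d x) = u m := by
    intro x hx hxm d
    have h1 := hs x hx
    rw [hxm] at h1
    have h2 : ∑ d' : Fin 4, u m = 4 * u m := by simp
    have h3 : ∑ d' : Fin 4, (u (nb d' x) - u m) ≤ 0 := by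
      rw [Finset.sum_sub_distrib, h2]; linarith
    have h4 : u (nb d x) - u m ≤ ∑ d' : Fin 4, (u (nb d' x) - u m) :=
      Finset.single_le_sum (f := fun d' => u (nb d' x) - u m)
        (fun d' _ => by have := hnb x hx d'; linarith) (Finset.mem_univ d)
    have h5 := hnb x hx d
    linarith
  have key : ∀ x, LvAt nb S f x → (x ∈ S → u x = u m → False) := by
    apply lv_induct
    · intro x hx h; exact absurd h hx
    · intro x hx _ ih _ hxm
      by_cases h : stp nb f x ∈ S
      · exact ih h (hall x hx hxm _)
      · have h1 : u (stp nb f x) = u m := hall x hx hxm _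
        have h2 := hb x hx (f x) h
        rw [show nb (f x) x = stp nb f x from rfl, h1] at h2
        linarith
  exact key m (hf.2 m) hm rfl

end Pool.Agent.H88.Ust
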