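import Pool.Agent.H88.Ust.Dual

/-!
# Every spanning tree of the grid comes from an arrow configuration
-/

namespace Pool.Agent.H88.Ust

open SimpleGraph

theorem parent_unique {V : Type*} {T : SimpleGraph V} (hT : T.IsTree) {ρ a a' b : V}
    (h : T.Adj a b) (h' : T.Adj a' b) (hd : T.dist ρ b = T.dist ρ a + 1)
    (hd' : T.dist ρ b = T.dist ρ a' + 1) : a = a' := by
  obtain ⟨p, hp⟩ := hT.connected.exists_walk_length_eq_dist ρ a
  obtain ⟨p', hp'⟩ := hT.connected.exists_walk_length_eq_dist ρ a'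
  have h1 : (p.concat h).IsPath := Walk.isPath_of_length_eq_dist _ (by
    rw [Walk.length_concat, hp, hd])
  have h2 : (p'.concat h').IsPath := Walk.isPath_of_length_eq_dist _ (by
    rw [Walk.length_concat, hp', hd'])
  have h3 := hT.isAcyclic.path_unique ⟨_, h1⟩ ⟨_, h2⟩
  have h4 : p.concat h = p'.concat h' := congrArg Subtype.val h3
  have h5 := congrArg Walk.penultimate h4
  rwa [Walk.penultimate_concat, Walk.penultimate_concat] at h5

/-- The first face next to the edge from `b` in direction `δ`. -/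
def F1 (δ : Fin 4) (b : Pt) : Pt :=
  match δ with
  | 0 => (b.1, b.2)
  | 1 => (b.1 - 1, b.2)
  | 2 => (b.1 - 1, b.2)
  | 3 => (b.1 - 1, b.2 - 1)

/-- The second face next to the edge from `b` in direction `δ`. -/
def F2 (δ : Fin 4) (b : Pt) : Pt :=
  match δ with
  | 0 => (b.1, b.2 - 1)
  | 1 => (b.1 - 1, b.2 - 1)
  | 2 => (b.1, b.2)
  | 3 => (b.1, b.2 - 1)

theorem F_cross (δ : Fin 4) (b : Pt) : (∃ d, nbr d (F1 δ b) = F2 δ b ∧ Cr d (F1 δ b) b (nbr δ b)) ∧
    ∃ d, nbr d (F2 δ b) = F1 δ b ∧ Cr d (F2 δ b) b (nbr δ b) := by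
  fin_cases δ
  · exact ⟨⟨3, by simp [nbr, F1, F2], by simp [Cr, e1, e2, nbr, F1]⟩,
      ⟨2, by simp [nbr, F1, F2], by simp [Cr, e1, e2, nbr, F2]⟩⟩
  · exact ⟨⟨3, by simp [nbr, F1, F2], by simp [Cr, e1, e2, nbr, F1]⟩,
      ⟨2, by simp [nbr, F1, F2], by simp [Cr, e1, e2, nbr, F2]⟩⟩
  · exact ⟨⟨0, by simp [nbr, F1, F2], by simp [Cr, e1, e2, nbr, F1]⟩,
      ⟨1, by simp [nbr, F1, F2], by simp [Cr, e1, e2, nbr, F2]⟩⟩
  · exact ⟨⟨0, by simp [nbr, F1, F2], by simp [Cr, e1, e2, nbr, F1]⟩,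
      ⟨1, by simp [nbr, F1, F2], by simp [Cr, e1, e2, nbr, F2]⟩⟩

/-- Opposite direction. -/
def opp (δ : Fin 4) : Fin 4 :=
  match δ with
  | 0 => 1
  | 1 => 0
  | 2 => 3
  | 3 => 2

theorem opp_nbr (δ : Fin 4) (b : Pt) : nbr (opp δ) (nbr δ b) = b := by
  fin_cases δ <;> simp [opp, nbr]

theorem F_opp (δ : Fin 4) (b : Pt) : F1 (opp δ) (nbr δ b) = F1 δ b ∧ F2 (opp δ) (nbr δ b) = F2 δ b := by
  fin_cases δ <;> simp [opp, nbr, F1, F2]

theorem other_dir (u : Pt → Prop) (b : Pt) (δ : Fin 4) (h : ¬ (u (F1 δ b) ↔ u (F2 δ b))) :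
    ∃ δ', δ' ≠ δ ∧ ¬ (u (F1 δ' b) ↔ u (F2 δ' b)) := by
  obtain ⟨x, y⟩ := b
  by_contra hc
  push Not at hc
  have h0 : (0 : Fin 4) ≠ δ → (u (x, y) ↔ u (x, y - 1)) := fun h => hc 0 h
  have h1 : (1 : Fin 4) ≠ δ → (u (x - 1, y) ↔ u (x - 1, y - 1)) := fun h => hc 1 h
  have h2 : (2 : Fin 4) ≠ δ → (u (x - 1, y) ↔ u (x, y)) := fun h => hc 2 h
  have h3 : (3 : Fin 4) ≠ δ → (u (x - 1, y - 1) ↔ u (x, y - 1)) := fun h => hc 3 h
  clear hc
  fin_cases δ
  · have h1 := h1 (by decide)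
    have h2 := h2 (by decide)
    have h3 := h3 (by decide)
    exact h ((h2.symm.trans h1).trans h3)
  · have h0 := h0 (by decide)
    have h2 := h2 (by decide)
    have h3 := h3 (by decide)
    exact h ((h2.trans h0).trans h3.symm)
  · have h0 := h0 (by decide)
    have h1 := h1 (by decide)
    have h3 := h3 (by decide)
    exact h ((h1.trans h3).trans h0.symm)
  · have h0 := h0 (by decide)
    have h1 := h1 (by decide)
    have h2 := h2 (by decide)
    exact h ((h1.symm.trans h2).trans h0)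

section

variable {n : ℕ} [NeZero n] (T : SimpleGraph (Fin n × Fin n))

/-- The edge crossed when leaving `p` in direction `d` belongs to `T`. -/
def Bl (d : Fin 4) (p : Pt) : Prop := T.Adj (vt (e1 d p)) (vt (e2 d p))

/-- The outside can be reached from `p` in at most `k` steps without crossing `T`. -/
def Rch : ℕ → Pt → Prop
  | 0, p => p ∉ faces n
  | k + 1, p => Rch k p ∨ ∃ d, ¬ Bl T d p ∧ Rch k (nbr d p)

theorem Bl_of_Cr {d : Fin 4} {p a b : Pt} (h : Cr d p a b) : Bl T d p ↔ T.Adj (vt a) (vt b) := by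
  unfold Bl
  rcases h with ⟨rfl, rfl⟩ | ⟨rfl, rfl⟩
  · rfl
  · exact T.adj_comm _ _

variable {T}

theorem all_reach (hT : T.IsTree) (p : Pt) : ∃ k, Rch T k p := by
  classical
  have hn : 1 ≤ n := Nat.one_le_iff_ne_zero.2 (NeZero.ne n)
  by_contra hcon
  set U := (faces n).filter fun p => ∀ k, ¬ Rch T k p with hU
  have hUne : U.Nonempty := ⟨p, by
    rw [hU, Finset.mem_filter]
    push Not at hcon
    refine ⟨?_, hcon⟩
    by_contra hp
    exact hcon 0 hp⟩
  have hUD : ∀ q ∈ U, q ∈ faces n := fun q hq => (Finset.mem_filter.1 hq).1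
  -- leaving `U` crosses an edge of `T`
  have hP : ∀ q ∈ U, ∀ d, nbr d q ∉ U → Bl T d q := by
    intro q hq d hd
    by_contra hB
    have hq2 := (Finset.mem_filter.1 hq).2
    by_cases hD : nbr d q ∈ faces n
    · rw [hU, Finset.mem_filter, not_and] at hd
      have := hd hD
      push Not at this
      obtain ⟨k, hk⟩ := this
      exact hq2 (k + 1) (Or.inr ⟨d, hB, hk⟩)
    · exact hq2 1 (Or.inr ⟨d, hB, hD⟩)
  -- pairs (vertex, direction) separating `U` from its complement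
  have hadj : ∀ b δ, ¬ (F1 δ b ∈ U ↔ F2 δ b ∈ U) →
      b ∈ PV n ∧ nbr δ b ∈ PV n ∧ T.Adj (vt b) (vt (nbr δ b)) := by
    intro b δ hne
    have aux : ∀ q q' : Pt, q ∈ U → q' ∉ U → (∃ d, nbr d q = q' ∧ Cr d q b (nbr δ b)) →
        b ∈ PV n ∧ nbr δ b ∈ PV n ∧ T.Adj (vt b) (vt (nbr δ b)) := by
      rintro q q' hq hq' ⟨d, rfl, hc⟩
      have hB := hP q hq d hq'
      rw [Bl_of_Cr T hc] at hB
      have m1 := e1_mem (d := d) hn (hUD q hq)
      have m2 := e2_mem (d := d) hn (hUD q hq)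
      rcases hc with ⟨h1, h2⟩ | ⟨h1, h2⟩
      · exact ⟨h1 ▸ m1, h2 ▸ m2, hB⟩
      · exact ⟨h1 ▸ m2, h2 ▸ m1, hB⟩
    by_cases h1 : F1 δ b ∈ U
    · have h2 : F2 δ b ∉ U := fun h2 => hne ⟨fun _ => h2, fun _ => h1⟩
      exact aux _ _ h1 h2 (F_cross δ b).1
    · have h2 : F2 δ b ∈ U := by
        by_contra h2
        exact hne ⟨fun h => absurd h h1, fun h => absurd h h2⟩
      exact aux _ _ h2 h1 (F_cross δ b).2
  set ρ : Fin n × Fin n := vt (1, 1) with hρ
  set Z := (PV n ×ˢ (Finset.univ : Finset (Fin 4))).filter fun q =>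
    ¬ (F1 q.2 q.1 ∈ U ↔ F2 q.2 q.1 ∈ U) with hZ
  have hmemZ : ∀ b δ, ¬ (F1 δ b ∈ U ↔ F2 δ b ∈ U) → (b, δ) ∈ Z := by
    intro b δ h
    rw [hZ, Finset.mem_filter, Finset.mem_product]
    exact ⟨⟨(hadj b δ h).1, Finset.mem_univ _⟩, h⟩
  have hZne : Z.Nonempty := by
    obtain ⟨q, hq, hmax⟩ := U.exists_max_image (fun q => q.1) hUne
    refine ⟨((q.1 + 1, q.2), 2), hmemZ _ _ ?_⟩
    have e1' : F1 2 (q.1 + 1, q.2) = q := by simp [F1]
    have e2' : F2 2 (q.1 + 1, q.2) = (q.1 + 1, q.2) := by simp [F2]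
    rw [e1', e2']
    intro h
    have := hmax _ (h.1 hq)
    simp only at this
    omega
  obtain ⟨⟨b, δ⟩, hbZ, hmax⟩ := Z.exists_max_image (fun q => T.dist ρ (vt q.1)) hZne
  have hne := (Finset.mem_filter.1 hbZ).2
  simp only at hne hmax
  have key : ∀ δ', ¬ (F1 δ' b ∈ U ↔ F2 δ' b ∈ U) →
      T.Adj (vt (nbr δ' b)) (vt b) ∧ T.dist ρ (vt b) = T.dist ρ (vt (nbr δ' b)) + 1 := by
    intro δ' h'
    have h1 := (hadj b δ' h').2.2
    have h2 : (nbr δ' b, opp δ') ∈ Z := by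
      apply hmemZ
      rw [(F_opp δ' b).1, (F_opp δ' b).2]
      exact h'
    have h3 := hmax _ h2
    simp only at h3
    refine ⟨h1.symm, ?_⟩
    rcases hT.dist_eq_dist_add_one_of_adj ρ h1 with h4 | h4
    · exact h4
    · omega
  obtain ⟨δ', hδ, hne'⟩ := other_dir (fun q => q ∈ U) b δ hne
  obtain ⟨a1, a2⟩ := key δ hne
  obtain ⟨b1, b2⟩ := key δ' hne'
  have h5 := parent_unique hT a1 b1 a2 b2
  have h6 := vt_inj (hadj b δ hne).2.1 (hadj b δ' hne').2.1 h5
  exact hδ (nbr_inj b h6).symm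

theorem exists_arrows (hle : T ≤ grid n) (hT : T.IsTree) :
    ∃ g ∈ AF nbr (faces n), TG n g = T := by
  classical
  have hn : 1 ≤ n := Nat.one_le_iff_ne_zero.2 (NeZero.ne n)
  have hr := all_reach (T := T) hT
  set r : Pt → ℕ := fun p => Nat.find (hr p) with hrdef
  have hstep : ∀ p ∈ faces n, ∃ d, ¬ Bl T d p ∧ r (nbr d p) < r p := by
    intro p hp
    have h1 : Rch T (r p) p := Nat.find_spec (hr p)
    rcases hk : r p with _ | k
    · rw [hk] at h1
      exact absurd hp h1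
    · rw [hk] at h1
      rcases h1 with h1 | ⟨d, hd, h1⟩
      · exfalso
        have : r p ≤ k := Nat.find_min' (hr p) h1
        omega
      · refine ⟨d, hd, ?_⟩
        have : r (nbr d p) ≤ k := Nat.find_min' (hr _) h1
        omega
  choose! G hG using hstep
  set g : Pt → Fin 4 := fun p => if p ∈ faces n then G p else 0 with hg
  have hgD : ∀ p ∈ faces n, g p = G p := fun p hp => if_pos hp
  have hL : Leaves nbr (faces n) g := by
    have : ∀ k p, r p ≤ k → LvAt nbr (faces n) g p := by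
      intro k
      induction k with
      | zero =>
        intro p hp
        by_cases hD : p ∈ faces n
        · have := (hG p hD).2
          omega
        · exact lv_of_not_mem hD
      | succ k ih =>
        intro p hp
        by_cases hD : p ∈ faces n
        · refine (LvAt.stp_iff hD).2 (ih _ ?_)
          have := (hG p hD).2
          rw [stp, hgD p hD]
          omega
        · exact lv_of_not_mem hD
    exact fun p => this _ p le_rfl
  refine ⟨g, (mem_AF nbr).2 ⟨fun p hp => if_neg hp, hL⟩, ?_⟩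
  have hsub : T ≤ TG n g := by
    intro a b hab
    refine ⟨hle hab, fun p hp hc => ?_⟩
    rw [hgD p hp] at hc
    have := (Bl_of_Cr T hc).2 (by rw [vt_pt, vt_pt]; exact hab)
    exact (hG p hp).1 this
  have hmax := (isTree_iff_maximal_isAcyclic.1 hT).2
  exact le_antisymm (hmax.2 (TG_tree hL).isAcyclic hsub) hsub

/-- The number of spanning trees is at most the number of arrow configurations. -/
theorem card_trees_le :
    {T : SimpleGraph (Fin n × Fin n) | T ≤ grid n ∧ T.IsTree}.ncard ≤ cnt nbr (faces n) := by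
  rw [cnt, ← Set.ncard_coe_finset]
  have h : {T : SimpleGraph (Fin n × Fin n) | T ≤ grid n ∧ T.IsTree} ⊆
      (TG n) '' (AF nbr (faces n) : Set (Pt → Fin 4)) := by
    rintro T ⟨h1, h2⟩
    obtain ⟨g, hg, rfl⟩ := exists_arrows h1 h2
    exact ⟨g, hg, rfl⟩
  exact (Set.ncard_le_ncard h ((Finset.finite_toSet _).image _)).trans
    (Set.ncard_image_le (Finset.finite_toSet _))

end

end Pool.Agent.H88.Ust
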