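import Pool.Agent.H88.Ust.Trans

/-!
# Lower bound for the probability to exit the window on the left
-/

namespace Pool.Agent.H88.Ust

open Real

theorem pos_nbr : Pos nbr := by
  intro S
  rw [cnt, Finset.card_pos]
  refine ⟨fun _ => 0, ?_⟩
  rw [mem_AF]
  refine ⟨fun _ _ => rfl, fun x => ?_⟩
  have hit : ∀ k : ℕ, (stp nbr (fun _ => (0 : Fin 4)))^[k] x = (x.1 + k, x.2) := by
    intro k
    induction k with
    | zero => simp
    | succ k ih =>
      rw [Function.iterate_succ_apply', ih]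
      simp [stp, nbr, add_assoc]
  by_contra hcon
  unfold LvAt at hcon
  push Not at hcon
  have hinj : Function.Injective fun k : ℕ => ((x.1 + k, x.2) : Pt) := by
    intro a b hab
    simp only [Prod.mk.injEq, add_right_inj, Nat.cast_inj, and_true] at hab
    exact hab
  have : Set.Infinite (Set.range fun k : ℕ => ((x.1 + k, x.2) : Pt)) :=
    Set.infinite_range_of_injective hinj
  refine this (S.finite_toSet.subset ?_)
  rintro _ ⟨k, rfl⟩
  have := hcon k
  rw [hit] at this
  exact this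

theorem mem_win {c m : ℕ} {p : Pt} :
    p ∈ win c m ↔ 1 ≤ p.1 ∧ p.1 ≤ (c : ℤ) - 1 ∧ -(m : ℤ) ≤ p.2 ∧ p.2 ≤ m := by
  simp only [win, Finset.mem_product, Finset.mem_Icc]
  tauto

theorem two_le_cosh_add_cos (b : ℝ) (hb : 0 ≤ b) : 2 ≤ cosh b + cos b := by
  have h1 : 1 - b ^ 2 / 2 ≤ cos b := Real.one_sub_sq_div_two_le_cos
  have h2 : b / 2 ≤ sinh (b / 2) := Real.self_le_sinh_iff.2 (by linarith)
  have h3 : cosh b = 2 * sinh (b / 2) ^ 2 + 1 := by
    have := Real.cosh_two_mul (b / 2)
    rw [show 2 * (b / 2) = b by ring, Real.cosh_sq] at this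
    linarith
  have h4 : (b / 2) ^ 2 ≤ sinh (b / 2) ^ 2 := pow_le_pow_left₀ (by linarith) h2 2
  nlinarith

theorem exp_pi_le : exp π ≤ 25 := by
  have h1 : exp π ≤ exp (1 + 1 + 1 + 0.1416) := by
    apply exp_le_exp.2
    have := pi_lt_d4
    linarith
  have h2 := exp_one_lt_d9
  have h0 := exp_pos 1
  have h3 : exp (0.1416 : ℝ) ≤ 1 / (1 - 0.1416) :=
    Real.exp_bound_div_one_sub_of_interval (by norm_num) (by norm_num)
  rw [exp_add, exp_add, exp_add] at h1
  have h4 : exp 1 * exp 1 ≤ 2.7182818286 * 2.7182818286 :=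
    mul_le_mul h2.le h2.le h0.le (by norm_num)
  have h5 : exp 1 * exp 1 * exp 1 ≤ 2.7182818286 * 2.7182818286 * 2.7182818286 :=
    mul_le_mul h4 h2.le h0.le (by norm_num)
  have h6 : exp 1 * exp 1 * exp 1 * exp 0.1416 ≤
      2.7182818286 * 2.7182818286 * 2.7182818286 * (1 / (1 - 0.1416)) :=
    mul_le_mul h5 h3 (exp_pos _).le (by norm_num)
  refine h1.trans (h6.trans ?_)
  norm_num

/-- The comparison function. -/
noncomputable def wf (β : ℝ) (c : ℕ) (p : Pt) : ℝ := sinh (β * (c - p.1)) * cos (β * p.2)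

theorem wf_sum (β : ℝ) (c : ℕ) (p : Pt) :
    ∑ d : Fin 4, wf β c (nbr d p) = (2 * cosh β + 2 * cos β) * wf β c p := by
  simp only [Fin.sum_univ_four, wf, nbr]
  push_cast
  have e1 : β * (c - (p.1 + 1)) = β * (c - p.1) - β := by ring
  have e2 : β * (c - (p.1 - 1)) = β * (c - p.1) + β := by ring
  have e3 : β * (p.2 + 1 : ℝ) = β * p.2 + β := by ring
  have e4 : β * (p.2 - 1 : ℝ) = β * p.2 - β := by ring
  rw [e1, e2, e3, e4, sinh_sub, sinh_add, cos_add, cos_sub]
  ring

theorem LA_lower (c m : ℕ) (hc : 2 ≤ c) (h1 : c ≤ 2 * m + 2) (h2 : m + 1 ≤ c) :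
    cnt nbr (win c m) ≤ 8 * c * (LA c m).card := by
  classical
  set W := win c m with hW
  set β : ℝ := π / (2 * (m + 1)) with hβ
  have hm0 : (0 : ℝ) < m + 1 := by positivity
  have hβpos : 0 < β := by rw [hβ]; positivity
  have hβm : β * (m + 1) = π / 2 := by rw [hβ]; field_simp
  have hβc : β * c ≤ π := by
    have : (c : ℝ) ≤ 2 * (m + 1) := by exact_mod_cast (by omega : c ≤ 2 * (m + 1))
    calc β * c ≤ β * (2 * (m + 1)) := by gcongr
      _ = π := by rw [hβ]; field_simp
  have hc0 : (0 : ℝ) < c := by exact_mod_cast (by omega : 0 < c)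
  -- number of configurations with exit on the left
  set N : Pt → ℝ := fun x => ∑ f ∈ AF nbr W, (if (ex nbr W f x).1 = 0 then (1 : ℝ) else 0) with hN
  have hNharm : ∀ z ∈ W, ∑ d : Fin 4, N (nbr d z) = 4 * N z := fun z hz =>
    harmonic hz fun p => if p.1 = 0 then (1 : ℝ) else 0
  have hN0 : ∀ x, 0 ≤ N x := fun x => Finset.sum_nonneg fun f _ => by split_ifs <;> norm_num
  have hcos : ∀ p : Pt, -(m : ℤ) ≤ p.2 → p.2 ≤ m → 0 ≤ cos (β * p.2) := by
    intro p hp1 hp2
    have a1 : (-(m : ℝ)) ≤ p.2 := by exact_mod_cast hp1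
    have a2 : (p.2 : ℝ) ≤ m := by exact_mod_cast hp2
    apply cos_nonneg_of_neg_pi_div_two_le_of_le
    · rw [← hβm]; nlinarith
    · rw [← hβm]; nlinarith
  have hwnn : ∀ p ∈ W, 0 ≤ wf β c p := by
    intro p hp
    rw [hW, mem_win] at hp
    refine mul_nonneg (sinh_nonneg_iff.2 (mul_nonneg hβpos.le ?_)) (hcos p hp.2.2.1 hp.2.2.2)
    have : (p.1 : ℝ) ≤ (c : ℝ) - 1 := by exact_mod_cast hp.2.1
    linarith
  have hcc := two_le_cosh_add_cos β hβpos.le
  have key := maxp (nb := nbr) (S := W) (Finset.card_pos.1 (pos_nbr W))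
    (fun x => N x * sinh (β * c) - (cnt nbr W : ℝ) * wf β c x)
    (fun x hx => by
      rw [Finset.sum_sub_distrib, ← Finset.sum_mul, ← Finset.mul_sum, hNharm x hx, wf_sum]
      have h := hwnn x hx
      have hcn : (0 : ℝ) ≤ cnt nbr W := Nat.cast_nonneg _
      have : 4 * wf β c x ≤ (2 * cosh β + 2 * cos β) * wf β c x := by nlinarith
      nlinarith [mul_le_mul_of_nonneg_left this hcn])
    (fun x hx d hd => by
      rw [hW, mem_win] at hx hd
      have hcase : (nbr d x).1 = 0 ∨ (nbr d x).1 = c ∨ (nbr d x).2 = m + 1 ∨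
          (nbr d x).2 = -(m + 1 : ℤ) := by
        fin_cases d <;> simp only [nbr] at hd ⊢ <;> omega
      have hcn : (0 : ℝ) ≤ cnt nbr W := Nat.cast_nonneg _
      have hs : 0 ≤ sinh (β * c) := sinh_nonneg_iff.2 (by positivity)
      rcases hcase with h | h | h | h
      · have hNv : N (nbr d x) = cnt nbr W := by
          have hout : nbr d x ∉ W := by rw [hW, mem_win]; omega
          rw [hN]
          simp only [ex_not_mem hout, h, if_true, Finset.sum_const, cnt, nsmul_eq_mul, mul_one]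
        rw [hNv, wf, h]
        have : cos (β * (nbr d x).2) ≤ 1 := cos_le_one _
        simp only [Int.cast_zero, sub_zero]
        nlinarith [mul_nonneg hcn hs]
      · have : wf β c (nbr d x) = 0 := by
          rw [wf, h]; simp
        rw [this]
        have := hN0 (nbr d x)
        nlinarith [mul_nonneg this hs]
      · have : wf β c (nbr d x) = 0 := by
          rw [wf, h]
          push_cast
          rw [hβm, cos_pi_div_two, mul_zero]
        rw [this]
        have := hN0 (nbr d x)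
        nlinarith [mul_nonneg this hs]
      · have : wf β c (nbr d x) = 0 := by
          rw [wf, h]
          push_cast
          rw [mul_neg, hβm, cos_neg, cos_pi_div_two, mul_zero]
        rw [this]
        have := hN0 (nbr d x)
        nlinarith [mul_nonneg this hs]) ((c : ℤ) - 1, 0)
    (by rw [hW, mem_win]; simp only; omega)
  have hNLA : N ((c : ℤ) - 1, 0) = (LA c m).card := by
    rw [hN, LA, Finset.card_filter]
    push_cast
    rfl
  have hw : wf β c ((c : ℤ) - 1, 0) = sinh β := by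
    simp [wf]
  rw [hNLA, hw] at key
  -- sinh (β c) ≤ 8 c sinh β
  have hs1 : sinh (β * c) ≤ 12.5 := by
    calc sinh (β * c) ≤ sinh π := sinh_le_sinh.2 hβc
      _ = (exp π - exp (-π)) / 2 := sinh_eq π
      _ ≤ exp π / 2 := by have := exp_pos (-π); linarith
      _ ≤ 12.5 := by have := exp_pi_le; linarith
  have hs2 : 12.5 ≤ 8 * c * sinh β := by
    have h3 : β ≤ sinh β := Real.self_le_sinh_iff.2 hβpos.le
    have h4 : π / 2 ≤ β * c := by
      rw [← hβm]
      have : ((m : ℝ) + 1) ≤ c := by exact_mod_cast h2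
      gcongr
    have := pi_gt_d4
    nlinarith
  have hcn : (0 : ℝ) < cnt nbr W := by exact_mod_cast pos_nbr W
  have hsb : 0 < sinh β := sinh_pos_iff.2 hβpos
  have hfin : (cnt nbr W : ℝ) * sinh β ≤ 8 * c * (LA c m).card * sinh β := by
    have hL : (0 : ℝ) ≤ (LA c m).card := Nat.cast_nonneg _
    calc (cnt nbr W : ℝ) * sinh β ≤ (LA c m).card * sinh (β * c) := by linarith
      _ ≤ (LA c m).card * (8 * c * sinh β) := by
        apply mul_le_mul_of_nonneg_left _ hL
        linarith
      _ = 8 * c * (LA c m).card * sinh β := by ring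
  have := le_of_mul_le_mul_right hfin hsb
  exact_mod_cast this

end Pool.Agent.H88.Ust
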