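import Pool.Agent.H88.Ust.Emb

/-!
# The mass of the good configurations
-/

namespace Pool.Agent.H88.Ust

variable {c m : ℕ} {f f₁ f₂ g : Pt → Fin 4} {y : ℤ}

theorem f0_left (hc : 2 ≤ c) : stp nbr (f0 c y f₁ f₂) ((c : ℤ), y) = ((c : ℤ) - 1, y) := by
  simp [stp, f0, nbr]

theorem stp_f0_sh {q : Pt} (hqW : q ∈ win c m) :
    stp nbr (f0 c y f₁ f₂) (shE y q) = shE y (stp nbr f₁ q) := by
  rw [stp, f0_sh hqW, stp, sh_h]; rfl

theorem stp_f0_mi {q : Pt} (hqW : q ∈ win c m) :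
    stp nbr (f0 c y f₁ f₂) (miE c y q) = miE c y (stp nbr f₂ q) := by
  rw [stp, f0_mi hqW, stp, mi_h]

theorem f0_closed (hc : 2 ≤ c) (hf₁ : f₁ ∈ LA c m) (hf₂ : f₂ ∈ LA c m) :
    ∀ x ∈ eta c m y f₁ f₂, stp nbr (f0 c y f₁ f₂) x ∈ eta c m y f₁ f₂ ∨
      stp nbr (f0 c y f₁ f₂) x ∉ faces (2 * c) := by
  intro x hx
  rw [mem_eta] at hx
  rcases hx with rfl | ⟨q, hq, rfl⟩ | ⟨q, hq, rfl⟩
  · left
    rw [f0_left hc, mem_eta]
    right; left
    exact ⟨_, start_et hc hf₁, by simp [shE]⟩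
  · rw [stp_f0_sh (et_sub hq)]
    rcases et_stp hf₁ hq with h | h
    · left; rw [mem_eta]; exact Or.inr (Or.inl ⟨_, h, rfl⟩)
    · right; exact sh_out h
  · rw [stp_f0_mi (et_sub hq)]
    rcases et_stp hf₂ hq with h | h
    · left; rw [mem_eta]; exact Or.inr (Or.inr ⟨_, h, rfl⟩)
    · right; exact mi_out h

theorem f0_lv (hc : 2 ≤ c) (hf₁ : f₁ ∈ LA c m) (hf₂ : f₂ ∈ LA c m) (h1 : 1 ≤ y - m)
    (h2 : y + m ≤ 2 * (c : ℤ) - 1) :
    ∀ x ∈ eta c m y f₁ f₂, LvAt nbr (faces (2 * c)) (f0 c y f₁ f₂) x := by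
  have hl := left_walk (g := f0 c y f₁ f₂) hf₁ h1 h2 fun q hq => f0_sh (et_sub hq)
  have hr := right_walk (g := f0 c y f₁ f₂) hf₂ h1 h2 fun q hq => f0_mi (et_sub hq)
  intro x hx
  rw [mem_eta] at hx
  rcases hx with rfl | ⟨q, hq, rfl⟩ | ⟨q, hq, rfl⟩
  · have hm : (((c : ℤ), y) : Pt) ∈ faces (2 * c) := by
      rw [mem_faces]; push_cast; omega
    refine (LvAt.stp_iff hm).2 ?_
    rw [f0_left hc]
    exact hl.1
  · refine (mem_pl hl.1 _ ?_).1
    rw [hl.2.2]
    rw [et, Finset.mem_filter] at hq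
    exact List.mem_map_of_mem hq.2
  · refine (mem_pl hr.1 _ ?_).1
    rw [hr.2.2]
    rw [et, Finset.mem_filter] at hq
    exact List.mem_map_of_mem hq.2

/-- The main inequality between the numbers of configurations. -/
theorem cnt_eta (hc : 2 ≤ c) (hf₁ : f₁ ∈ LA c m) (hf₂ : f₂ ∈ LA c m) (h1 : 1 ≤ y - m)
    (h2 : y + m ≤ 2 * (c : ℤ) - 1) :
    cnt nbr (faces (2 * c)) * (cnt nbr (win c m \ et c m f₁) * cnt nbr (win c m \ et c m f₂)) ≤
      4 * (cnt nbr (win c m)) ^ 2 * cnt nbr (faces (2 * c) \ eta c m y f₁ f₂) := by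
  classical
  set D := faces (2 * c) with hD
  set W := win c m with hW
  set E1 := et c m f₁ with hE1
  set E2 := et c m f₂ with hE2
  set o : Pt := ((c : ℤ), y) with ho
  have hE1W : E1 ⊆ W := et_sub
  have hE2W : E2 ⊆ W := et_sub
  set A1 := E1.map (shE y).toEmbedding with hA1
  set A2 := E2.map (miE c y).toEmbedding with hA2
  set W1 := W.map (shE y).toEmbedding with hW1
  set W2 := W.map (miE c y).toEmbedding with hW2
  have hoD : o ∈ D := by rw [hD, mem_faces]; simp only [ho]; push_cast; omega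
  have hW1D : W1 ⊆ D := by
    intro p hp
    rw [hW1, Finset.mem_map] at hp
    obtain ⟨q, hq, rfl⟩ := hp
    exact sh_in h1 h2 q hq
  have hW2D : W2 ⊆ D := by
    intro p hp
    rw [hW2, Finset.mem_map] at hp
    obtain ⟨q, hq, rfl⟩ := hp
    exact mi_in h1 h2 q hq
  have hcol1 : ∀ p ∈ W1, p.1 < c := by
    intro p hp
    rw [hW1, Finset.mem_map] at hp
    obtain ⟨q, hq, rfl⟩ := hp
    have := mem_win.1 hq
    simp only [shE, Equiv.coe_toEmbedding, Equiv.coe_fn_mk]
    omega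
  have hcol2 : ∀ p ∈ W2, (c : ℤ) < p.1 := by
    intro p hp
    rw [hW2, Finset.mem_map] at hp
    obtain ⟨q, hq, rfl⟩ := hp
    have := mem_win.1 hq
    simp only [miE, Equiv.coe_toEmbedding, Equiv.coe_fn_mk]
    omega
  have hA1W : A1 ⊆ W1 := Finset.map_subset_map.2 hE1W
  have hA2W : A2 ⊆ W2 := Finset.map_subset_map.2 hE2W
  set T1 := (D.erase o) \ A1 with hT1
  set T2 := T1 \ A2 with hT2
  have hT2' : D \ eta c m y f₁ f₂ = T2 := by
    ext p
    simp only [hT2, hT1, eta, Finset.mem_sdiff, Finset.mem_erase, Finset.mem_insert,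
      Finset.mem_union, not_or]
    tauto
  -- step 0
  have s0 : cnt nbr D ≤ 4 * cnt nbr (D.erase o) := by
    have := cnt_insert_le (nb := nbr) (S := D.erase o) (v := o) (by simp)
    rwa [Finset.insert_erase hoD] at this
  -- step 1
  have e1 : A1 ∪ T1 = D.erase o := by
    rw [hT1, Finset.union_sdiff_of_subset]
    intro p hp
    rw [Finset.mem_erase]
    refine ⟨fun h => ?_, hW1D (hA1W hp)⟩
    have := hcol1 p (hA1W hp)
    rw [h, ho] at this
    exact lt_irrefl _ this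
  have s1 : cnt nbr (D.erase o) * cnt nbr (W \ E1) ≤ cnt nbr W * cnt nbr T1 := by
    have hsub : (W \ E1).map (shE y).toEmbedding ⊆ T1 := by
      intro p hp
      rw [Finset.mem_map] at hp
      obtain ⟨q, hq, rfl⟩ := hp
      rw [Finset.mem_sdiff] at hq
      have hqW1 : (shE y).toEmbedding q ∈ W1 := Finset.mem_map_of_mem _ hq.1
      rw [hT1, Finset.mem_sdiff, Finset.mem_erase]
      refine ⟨⟨fun h => ?_, hW1D hqW1⟩, ?_⟩
      · have := hcol1 _ hqW1
        rw [h, ho] at this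
        exact lt_irrefl _ this
      · rw [hA1, Finset.mem_map']
        exact hq.2
    have hdis : Disjoint A1 T1 := by
      rw [hT1]; exact Finset.disjoint_sdiff
    have h := cnt_submod pos_nbr hsub hdis
    rw [e1] at h
    have e2 : A1 ∪ (W \ E1).map (shE y).toEmbedding = W1 := by
      rw [hA1, ← Finset.map_union, Finset.union_sdiff_of_subset hE1W]
    rw [e2, hW1, cnt_map (shE y) (Equiv.refl _) (sh_h y), cnt_map (shE y) (Equiv.refl _) (sh_h y)]
      at h
    exact h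
  -- step 2
  have s2 : cnt nbr T1 * cnt nbr (W \ E2) ≤ cnt nbr W * cnt nbr T2 := by
    have hA2T1 : A2 ⊆ T1 := by
      intro p hp
      have hc2 := hcol2 p (hA2W hp)
      rw [hT1, Finset.mem_sdiff, Finset.mem_erase]
      refine ⟨⟨fun h => ?_, hW2D (hA2W hp)⟩, fun h => ?_⟩
      · rw [h, ho] at hc2
        exact lt_irrefl _ hc2
      · have := hcol1 p (hA1W h)
        exact lt_irrefl _ (hc2.trans this)
    have e2 : A2 ∪ T2 = T1 := by
      rw [hT2, Finset.union_sdiff_of_subset hA2T1]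
    have hsub : (W \ E2).map (miE c y).toEmbedding ⊆ T2 := by
      intro p hp
      rw [Finset.mem_map] at hp
      obtain ⟨q, hq, rfl⟩ := hp
      rw [Finset.mem_sdiff] at hq
      have hqW2 : (miE c y).toEmbedding q ∈ W2 := Finset.mem_map_of_mem _ hq.1
      have hc2 := hcol2 _ hqW2
      rw [hT2, hT1, Finset.mem_sdiff, Finset.mem_sdiff, Finset.mem_erase]
      refine ⟨⟨⟨fun h => ?_, hW2D hqW2⟩, fun h => ?_⟩, ?_⟩
      · rw [h, ho] at hc2
        exact lt_irrefl _ hc2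
      · have := hcol1 _ (hA1W h)
        exact lt_irrefl _ (hc2.trans this)
      · rw [hA2, Finset.mem_map']
        exact hq.2
    have hdis : Disjoint A2 T2 := by
      rw [hT2]; exact Finset.disjoint_sdiff
    have h := cnt_submod pos_nbr hsub hdis
    rw [e2] at h
    have e3 : A2 ∪ (W \ E2).map (miE c y).toEmbedding = W2 := by
      rw [hA2, ← Finset.map_union, Finset.union_sdiff_of_subset hE2W]
    rw [e3, hW2, cnt_map (miE c y) miD (mi_h c y), cnt_map (miE c y) miD (mi_h c y)] at h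
    exact h
  rw [hT2']
  calc cnt nbr D * (cnt nbr (W \ E1) * cnt nbr (W \ E2))
      ≤ 4 * cnt nbr (D.erase o) * (cnt nbr (W \ E1) * cnt nbr (W \ E2)) :=
        Nat.mul_le_mul_right _ s0
    _ = 4 * (cnt nbr (D.erase o) * cnt nbr (W \ E1)) * cnt nbr (W \ E2) := by ring
    _ ≤ 4 * (cnt nbr W * cnt nbr T1) * cnt nbr (W \ E2) :=
        Nat.mul_le_mul_right _ (Nat.mul_le_mul_left _ s1)
    _ = 4 * cnt nbr W * (cnt nbr T1 * cnt nbr (W \ E2)) := by ring
    _ ≤ 4 * cnt nbr W * (cnt nbr W * cnt nbr T2) := Nat.mul_le_mul_left _ s2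
    _ = 4 * (cnt nbr W) ^ 2 * cnt nbr T2 := by ring

/-- Number of configurations in the window with a given walk. -/
theorem fiber_card (hf : f ∈ LA c m) :
    ((AF nbr (win c m)).filter fun g => pl nbr (win c m) g ((c : ℤ) - 1, 0) =
      pl nbr (win c m) f ((c : ℤ) - 1, 0)).card = cnt nbr (win c m \ et c m f) := by
  have hf' := hf
  rw [mem_LA, mem_AF] at hf'
  rw [← cnt_prescribed f et_sub (fun x _ => hf'.1.2 x) (fun x hx => ?_)]
  · congr 1
    ext g
    rw [Finset.mem_filter, Finset.mem_filter]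
    refine and_congr_right fun hg => ?_
    rw [mem_AF] at hg
    constructor
    · intro h q hq
      rw [et, Finset.mem_filter] at hq
      exact pl_agree nbr_inj (hf'.1.2 _) (hg.2 _) h q hq.2 hq.1
    · intro h
      refine (walk_congr (hf'.1.2 _) fun q hq hqW => h q ?_).2.2.1
      rw [et, Finset.mem_filter]; exact ⟨hqW, hq⟩
  · rcases et_stp hf hx with h | h
    · exact Or.inl h
    · right; rw [mem_win]; omega

end Pool.Agent.H88.Ust
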