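import Pool.Agent.H88.Ust.Area

/-!
# Lower bound for the number of good configurations
-/

namespace Pool.Agent.H88.Ust

variable {c m : ℕ} {f f₁ f₂ g : Pt → Fin 4} {y : ℤ}

open Classical in
/-- Good pairs (height, configuration). -/
noncomputable def GQ (c : ℕ) : Finset (ℤ × (Pt → Fin 4)) :=
  (Finset.Icc 1 (2 * (c : ℤ) - 1) ×ˢ AF nbr (faces (2 * c))).filter fun q => Good c q.1 q.2

theorem mem_GQ {q : ℤ × (Pt → Fin 4)} : q ∈ GQ c ↔ Good c q.1 q.2 := by
  classical
  rw [GQ, Finset.mem_filter, Finset.mem_product, Finset.mem_Icc]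
  exact ⟨fun h => h.2, fun h => ⟨⟨h.hy, h.mem⟩, h⟩⟩

/-- Pairs of window configurations which can be combined to a balanced curve. -/
noncomputable def PP (c m : ℕ) : Finset ((Pt → Fin 4) × (Pt → Fin 4)) :=
  (LA c m ×ˢ LA c m).filter fun q => 2 * c ∣ relf c m q.1 + relf c m q.2

theorem relf_le (c m : ℕ) (f : Pt → Fin 4) : relf c m f ≤ 2 * m * c := by
  rw [relf_eq, rel]
  calc ∑ x ∈ Finset.Icc (1 : ℤ) c, ((Finset.Icc (-(m : ℤ) + 1) m).filter fun v =>
        Even (crs (wl c m f) x v)).card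
      ≤ ∑ _x ∈ Finset.Icc (1 : ℤ) c, 2 * m := by
        refine Finset.sum_le_sum fun x _ => ?_
        refine (Finset.card_filter_le _ _).trans ?_
        rw [Int.card_Icc]
        omega
    _ = 2 * m * c := by
        rw [Finset.sum_const, Int.card_Icc]
        simp
        ring

/-- The pair of walks. -/
noncomputable def key (c m : ℕ) (q : (Pt → Fin 4) × (Pt → Fin 4)) : List Pt × List Pt :=
  (pl nbr (win c m) q.1 ((c : ℤ) - 1, 0), pl nbr (win c m) q.2 ((c : ℤ) - 1, 0))

/-- The pair of walks of a configuration of the grid. -/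
noncomputable def kap (c : ℕ) (q : ℤ × (Pt → Fin 4)) : List Pt × List Pt :=
  ((pl nbr (faces (2 * c)) q.2 ((c : ℤ) - 1, q.1)).map (shE q.1).symm,
    (pl nbr (faces (2 * c)) q.2 ((c : ℤ) + 1, q.1)).map (miE c q.1).symm)

open Classical in
theorem mass (hc : 2 ≤ c) (hm : 2 * m + 1 ≤ c) :
    cnt nbr (faces (2 * c)) * (PP c m).card ≤ 4 * (cnt nbr (win c m)) ^ 2 * (GQ c).card := by
  rw [Finset.card_eq_sum_card_image (key c m) (PP c m), Finset.mul_sum]
  have hQ : ∑ k ∈ (PP c m).image (key c m), ((GQ c).filter fun q => kap c q = k).card ≤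
      (GQ c).card := by
    have h1 : ((GQ c).filter fun q => kap c q ∈ (PP c m).image (key c m)).card =
        ∑ k ∈ (PP c m).image (key c m),
          (((GQ c).filter fun q => kap c q ∈ (PP c m).image (key c m)).filter
            fun q => kap c q = k).card := by
      apply Finset.card_eq_sum_card_fiberwise
      intro q hq
      exact (Finset.mem_filter.1 hq).2
    have h2 : ∀ k ∈ (PP c m).image (key c m), ((GQ c).filter fun q => kap c q = k).card ≤
        (((GQ c).filter fun q => kap c q ∈ (PP c m).image (key c m)).filter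
            fun q => kap c q = k).card := by
      intro k hk
      apply Finset.card_le_card
      intro q hq
      rw [Finset.mem_filter] at hq
      rw [Finset.mem_filter, Finset.mem_filter]
      exact ⟨⟨hq.1, hq.2 ▸ hk⟩, hq.2⟩
    exact (Finset.sum_le_sum h2).trans (h1 ▸ Finset.card_filter_le _ _)
  refine le_trans ?_ (Nat.mul_le_mul_left _ hQ)
  rw [Finset.mul_sum]
  refine Finset.sum_le_sum fun k hk => ?_
  rw [Finset.mem_image] at hk
  obtain ⟨⟨f₁, f₂⟩, hff, rfl⟩ := hk
  rw [PP, Finset.mem_filter, Finset.mem_product] at hff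
  obtain ⟨⟨hf₁, hf₂⟩, ⟨t, ht⟩⟩ := hff
  simp only at hf₁ hf₂ ht
  -- the height
  have ht2 : t ≤ 2 * m := by
    have h1 := relf_le c m f₁
    have h2 := relf_le c m f₂
    have h3 : 2 * c * t ≤ 2 * c * (2 * m) := by
      rw [← ht]; nlinarith
    exact Nat.le_of_mul_le_mul_left h3 (by omega)
  obtain ⟨y, hy⟩ : ∃ y : ℤ, y = c + m - t := ⟨_, rfl⟩
  have h1 : 1 ≤ y - m := by omega
  have h2 : y + m ≤ 2 * (c : ℤ) - 1 := by omega
  have hyr : (relf c m f₁ : ℤ) + relf c m f₂ = 2 * c * (m + c - y) := by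
    have : ((relf c m f₁ + relf c m f₂ : ℕ) : ℤ) = ((2 * c * t : ℕ) : ℤ) := by rw [ht]
    push_cast at this
    rw [this, hy]
    ring
  -- the fibre on the window side
  have hfib : ((PP c m).filter fun q => key c m q = key c m (f₁, f₂)).card ≤
      cnt nbr (win c m \ et c m f₁) * cnt nbr (win c m \ et c m f₂) := by
    rw [← fiber_card hf₁, ← fiber_card hf₂, ← Finset.card_product]
    apply Finset.card_le_card
    rintro ⟨g₁, g₂⟩ hg
    rw [Finset.mem_filter, PP, Finset.mem_filter, Finset.mem_product] at hg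
    obtain ⟨⟨⟨hg₁, hg₂⟩, -⟩, hk⟩ := hg
    rw [key, key, Prod.mk.injEq] at hk
    rw [Finset.mem_product, Finset.mem_filter, Finset.mem_filter]
    exact ⟨⟨(mem_LA.1 hg₁).1, hk.1⟩, ⟨(mem_LA.1 hg₂).1, hk.2⟩⟩
  -- the fibre on the grid side
  have hfib2 : cnt nbr (faces (2 * c) \ eta c m y f₁ f₂) ≤
      ((GQ c).filter fun q => kap c q = key c m (f₁, f₂)).card := by
    rw [← cnt_prescribed (f0 c y f₁ f₂) (eta_sub h1 h2) (f0_lv hc hf₁ hf₂ h1 h2)
      (f0_closed hc hf₁ hf₂)]
    refine Finset.card_le_card_of_injOn (fun g => (y, g)) ?_ ?_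
    · intro g hg
      rw [Finset.mem_coe, Finset.mem_filter] at hg
      obtain ⟨hgood, e1, e2⟩ := good_of hc hf₁ hf₂ h1 h2 hyr hg.1 hg.2
      rw [Finset.mem_coe, Finset.mem_filter, mem_GQ]
      refine ⟨hgood, ?_⟩
      rw [kap, key]
      simp only [e1, e2, List.map_map]
      simp
    · intro g _ g' _ h
      exact (Prod.mk.inj h).2
  calc cnt nbr (faces (2 * c)) *
        ((PP c m).filter fun q => key c m q = key c m (f₁, f₂)).card
      ≤ cnt nbr (faces (2 * c)) *
        (cnt nbr (win c m \ et c m f₁) * cnt nbr (win c m \ et c m f₂)) :=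
        Nat.mul_le_mul_left _ hfib
    _ ≤ 4 * (cnt nbr (win c m)) ^ 2 * cnt nbr (faces (2 * c) \ eta c m y f₁ f₂) :=
        cnt_eta hc hf₁ hf₂ h1 h2
    _ ≤ _ := Nat.mul_le_mul_left _ hfib2

theorem pairs (hc : 2 ≤ c) : (LA c m).card ^ 2 ≤ 2 * c * (PP c m).card := by
  classical
  set n := 2 * c with hn
  have hn0 : 0 < n := by omega
  set N : ℕ → ℕ := fun r => ((LA c m).filter fun f => relf c m f % n = r).card with hN
  have h1 : (LA c m).card = ∑ r ∈ Finset.range n, N r := by
    rw [hN]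
    apply Finset.card_eq_sum_card_fiberwise
    intro f _
    rw [Finset.coe_range]
    exact Nat.mod_lt _ hn0
  have h2 : (LA c m).card ^ 2 ≤ n * ∑ r ∈ Finset.range n, N r ^ 2 := by
    rw [h1]
    have := sq_sum_le_card_mul_sum_sq (s := Finset.range n) (f := N)
    rwa [Finset.card_range] at this
  refine h2.trans (Nat.mul_le_mul_left _ ?_)
  have h3 : ∀ r ∈ Finset.range n, N r ^ 2 =
      (((LA c m).filter fun f => relf c m f % n = r) ×ˢ
        ((LA c m).filter fun f => relf c m f % n = r)).card := by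
    intro r _
    rw [Finset.card_product, sq]
  rw [Finset.sum_congr rfl h3]
  have h4 : ∑ r ∈ Finset.range n, (((LA c m).filter fun f => relf c m f % n = r) ×ˢ
        ((LA c m).filter fun f => relf c m f % n = r)).card =
      ((Finset.range n).biUnion fun r => (((LA c m).filter fun f => relf c m f % n = r) ×ˢ
        ((LA c m).filter fun f => relf c m f % n = r))).card := by
    rw [Finset.card_biUnion]
    intro r _ r' _ hrr
    rw [Function.onFun, Finset.disjoint_left]
    rintro ⟨a, b⟩ ha hb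
    rw [Finset.mem_product, Finset.mem_filter, Finset.mem_filter] at ha hb
    exact hrr (ha.1.2.symm.trans hb.1.2)
  rw [h4]
  refine Finset.card_le_card_of_injOn (fun q => (q.1, rfc c m q.2)) ?_ ?_
  · rintro ⟨f, g⟩ hfg
    rw [Finset.mem_coe, Finset.mem_biUnion] at hfg
    obtain ⟨r, -, hr⟩ := hfg
    rw [Finset.mem_product, Finset.mem_filter, Finset.mem_filter] at hr
    obtain ⟨⟨hf, hfr⟩, ⟨hg, hgr⟩⟩ := hr
    simp only at hf hfr hg hgr
    rw [Finset.mem_coe, PP, Finset.mem_filter, Finset.mem_product]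
    refine ⟨⟨hf, rfc_mem hg⟩, ?_⟩
    simp only
    have e := relf_rfc hc hg
    have e' : relf c m (rfc c m g) = 2 * m * c - relf c m g := by omega
    have hle : relf c m g ≤ 2 * m * c := relf_le c m g
    have : (n : ℤ) ∣ ((relf c m f + relf c m (rfc c m g) : ℕ) : ℤ) := by
      rw [e']
      push_cast [hle]
      have d1 : (n : ℤ) ∣ (relf c m f : ℤ) - relf c m g := by
        have : (relf c m g) ≡ (relf c m f) [MOD n] := by
          rw [Nat.ModEq, hfr, hgr]
        exact (Nat.modEq_iff_dvd).1 this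
      have d2 : (n : ℤ) ∣ 2 * m * c := ⟨m, by rw [hn]; push_cast; ring⟩
      have : (relf c m f : ℤ) + (2 * m * c - relf c m g) = (relf c m f - relf c m g) + 2 * m * c := by
        ring
      rw [this]
      exact dvd_add d1 d2
    exact_mod_cast this
  · rintro ⟨f, g⟩ hfg ⟨f', g'⟩ hfg' h
    simp only [Prod.mk.injEq] at h
    have hmem : ∀ q : (Pt → Fin 4) × (Pt → Fin 4), q ∈ ((Finset.range n).biUnion fun r =>
        (((LA c m).filter fun f => relf c m f % n = r) ×ˢ
          ((LA c m).filter fun f => relf c m f % n = r))) → q.2 ∈ AF nbr (win c m) := by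
      intro q hq
      rw [Finset.mem_biUnion] at hq
      obtain ⟨r, -, hr⟩ := hq
      rw [Finset.mem_product, Finset.mem_filter, Finset.mem_filter] at hr
      exact (mem_LA.1 hr.2.1).1
    have e1 := rfc_rfc (hmem _ hfg)
    have e2 := rfc_rfc (hmem _ hfg')
    simp only at e1 e2
    rw [h.2, e2] at e1
    rw [h.1, e1]

/-- Many good configurations. -/
theorem GQ_lower (hc : 2 ≤ c) :
    cnt nbr (faces (2 * c)) ≤ 512 * c ^ 3 * (GQ c).card := by
  obtain ⟨m, hm⟩ : ∃ m : ℕ, m = (c - 1) / 2 := ⟨_, rfl⟩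
  have a1 := LA_lower c m hc (by omega) (by omega)
  have a2 := mass (c := c) (m := m) hc (by omega)
  have a3 := pairs (m := m) hc
  have hW : 0 < cnt nbr (win c m) := pos_nbr _
  have hPP : 0 < (PP c m).card := by
    rcases Nat.eq_zero_or_pos (PP c m).card with h | h
    · rw [h, mul_zero] at a3
      have hL : (LA c m).card = 0 := by
        have := Nat.le_zero.1 a3
        exact pow_eq_zero_iff (two_ne_zero) |>.1 this
      rw [hL, mul_zero] at a1
      omega
    · exact h
  refine Nat.le_of_mul_le_mul_right ?_ hPP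
  calc cnt nbr (faces (2 * c)) * (PP c m).card
      ≤ 4 * (cnt nbr (win c m)) ^ 2 * (GQ c).card := a2
    _ ≤ 4 * (8 * c * (LA c m).card) ^ 2 * (GQ c).card := by gcongr
    _ = 256 * c ^ 2 * (LA c m).card ^ 2 * (GQ c).card := by ring
    _ ≤ 256 * c ^ 2 * (2 * c * (PP c m).card) * (GQ c).card := by gcongr
    _ = 512 * c ^ 3 * (GQ c).card * (PP c m).card := by ring

end Pool.Agent.H88.Ust
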