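import Pool.Agent.H88.Ust.Rel

/-!
# Reflection symmetry of the area of the left walks
-/

namespace Pool.Agent.H88.Ust

variable {c m : ℕ} {f : Pt → Fin 4} {p : Pt}

/-- The walk of an element of `LA` stays in the window until it exits on the left. -/
theorem walk_win : LvAt nbr (win c m) f p → p ∈ win c m → (ex nbr (win c m) f p).1 = 0 →
    ∀ q ∈ pl nbr (win c m) f p, 0 ≤ q.1 ∧ q.1 ≤ (c : ℤ) - 1 ∧ -(m : ℤ) ≤ q.2 ∧ q.2 ≤ m := by
  revert p
  apply lv_induct
  · intro p hp hp'; exact absurd hp' hp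
  · intro p hp hL ih _ he q hq
    rw [pl_mem hL hp, List.mem_cons] at hq
    have hpw := mem_win.1 hp
    rcases hq with rfl | hq
    · omega
    · rw [ex_mem hL hp] at he
      by_cases hs : stp nbr f p ∈ win c m
      · exact ih hs he q hq
      · rw [pl_not_mem hs, List.mem_singleton] at hq
        rw [ex_not_mem hs] at he
        subst hq
        have hd : (stp nbr f p).1 = p.1 - 1 → (stp nbr f p).2 = p.2 := by
          unfold stp
          generalize f p = d
          fin_cases d <;> simp [nbr] <;> try omega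
        have hd' : p.1 - 1 ≤ (stp nbr f p).1 := by
          unfold stp
          generalize f p = d
          fin_cases d <;> simp [nbr] <;> try omega
        have : (stp nbr f p).1 = p.1 - 1 := by omega
        have := hd this
        omega

theorem mem_LA : f ∈ LA c m ↔ f ∈ AF nbr (win c m) ∧
    (ex nbr (win c m) f ((c : ℤ) - 1, 0)).1 = 0 := by
  rw [LA, Finset.mem_filter]

theorem start_mem (hc : 2 ≤ c) : (((c : ℤ) - 1, 0) : Pt) ∈ win c m := by
  rw [mem_win]; simp only; omega

theorem LA_walk (hc : 2 ≤ c) (hf : f ∈ LA c m) :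
    ∀ q ∈ pl nbr (win c m) f ((c : ℤ) - 1, 0),
      0 ≤ q.1 ∧ q.1 ≤ (c : ℤ) - 1 ∧ -(m : ℤ) ≤ q.2 ∧ q.2 ≤ m := by
  rw [mem_LA, mem_AF] at hf
  exact walk_win (hf.1.2 _) (start_mem hc) hf.2

/-- The list of the left walk including `(c, 0)`. -/
noncomputable def wl (c m : ℕ) (f : Pt → Fin 4) : List Pt :=
  ((c : ℤ), 0) :: pl nbr (win c m) f ((c : ℤ) - 1, 0)

theorem relf_eq : relf c m f = rel c m (wl c m f) := rfl

theorem wl_mem (hc : 2 ≤ c) (hf : f ∈ LA c m) :
    ∀ q ∈ wl c m f, 0 ≤ q.1 ∧ q.1 ≤ (c : ℤ) ∧ -(m : ℤ) ≤ q.2 ∧ q.2 ≤ m := by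
  intro q hq
  rw [wl, List.mem_cons] at hq
  rcases hq with rfl | hq
  · simp only; omega
  · have := LA_walk hc hf q hq
    omega

/-- The walk crosses every column an odd number of times. -/
theorem wl_top (hc : 2 ≤ c) (hf : f ∈ LA c m) {x v : ℤ} (hx : 1 ≤ x) (hxc : x ≤ c)
    (hv : (m : ℤ) < v) : ¬ Even (crs (wl c m f) x v) := by
  have hw := LA_walk hc hf
  rw [mem_LA, mem_AF] at hf
  rw [wl, crs_cons_pl (hf.1.2 _), Nat.even_add,
    crs_pl_top x v (hf.1.2 _) (fun q hq => by have := hw q hq; omega), hf.2]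
  have h1 := ind_nbr 1 ((c : ℤ), 0) x v (by simp only; omega)
  simp only [nbr] at h1
  rw [h1]
  omega

theorem wl_bot (hc : 2 ≤ c) (hf : f ∈ LA c m) {x v : ℤ} (hv : v ≤ -(m : ℤ)) :
    crs (wl c m f) x v = 0 :=
  crs_low _ _ _ fun q hq => by have := wl_mem hc hf q hq; omega

/-- The reflection `(x, y) ↦ (x, -y)`. -/
def rflE : Pt ≃ Pt where
  toFun p := (p.1, -p.2)
  invFun p := (p.1, -p.2)
  left_inv p := by simp
  right_inv p := by simp

/-- The corresponding permutation of the directions. -/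
def rflD : Fin 4 ≃ Fin 4 := Equiv.swap 2 3

theorem rfl_h (d : Fin 4) (p : Pt) : rflE (nbr d p) = nbr (rflD d) (rflE p) := by
  fin_cases d
  · simp [rflE, rflD, nbr, Equiv.swap_apply_def]
  · simp [rflE, rflD, nbr, Equiv.swap_apply_def]
  · simp [rflE, rflD, nbr, Equiv.swap_apply_def]; ring
  · simp [rflE, rflD, nbr, Equiv.swap_apply_def]; ring

theorem win_rfl : (win c m).map rflE.toEmbedding = win c m := by
  ext ⟨x, y⟩
  rw [Finset.mem_map_equiv, mem_win, mem_win]
  simp only [rflE, Equiv.coe_fn_symm_mk]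
  omega

/-- The reflected configuration. -/
noncomputable def rfc (c m : ℕ) (f : Pt → Fin 4) : Pt → Fin 4 := tr rflE rflD (win c m) f

theorem rfc_mem_AF (hf : f ∈ AF nbr (win c m)) : rfc c m f ∈ AF nbr (win c m) := by
  have := tr_mem rflE rflD rfl_h hf
  rwa [win_rfl] at this

theorem rfc_rfc (hf : f ∈ AF nbr (win c m)) : rfc c m (rfc c m f) = f := by
  have h := tr_symm rflE rflD hf
  rw [win_rfl] at h
  have e1 : rflE.symm = rflE := rfl
  have e2 : rflD.symm = rflD := Equiv.symm_swap 2 3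
  rw [e1, e2] at h
  exact h

theorem rfc_walk (hf : f ∈ AF nbr (win c m)) :
    ex nbr (win c m) (rfc c m f) ((c : ℤ) - 1, 0) = rflE (ex nbr (win c m) f ((c : ℤ) - 1, 0)) ∧
    pl nbr (win c m) (rfc c m f) ((c : ℤ) - 1, 0) =
      (pl nbr (win c m) f ((c : ℤ) - 1, 0)).map rflE := by
  have hf' := (mem_AF nbr).1 hf
  have h := tr_walk rflE rflD rfl_h (hf'.2 ((c : ℤ) - 1, 0))
  rw [win_rfl] at h
  have e : rflE (((c : ℤ) - 1, 0) : Pt) = ((c : ℤ) - 1, 0) := by simp [rflE]
  rw [e] at h
  exact h.2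

theorem rfc_mem (hf : f ∈ LA c m) : rfc c m f ∈ LA c m := by
  rw [mem_LA] at hf ⊢
  refine ⟨rfc_mem_AF hf.1, ?_⟩
  rw [(rfc_walk hf.1).1]
  exact hf.2

theorem wl_rfc (hf : f ∈ LA c m) : wl c m (rfc c m f) = (wl c m f).map fun p => (p.1, -p.2) := by
  rw [mem_LA] at hf
  rw [wl, (rfc_walk hf.1).2, wl, List.map_cons]
  simp only [neg_zero]
  rfl

/-- The reflection replaces the area by its complement. -/
theorem relf_rfc (hc : 2 ≤ c) (hf : f ∈ LA c m) :
    relf c m (rfc c m f) + relf c m f = 2 * m * c := by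
  rw [relf_eq, relf_eq, rel, rel, ← Finset.sum_add_distrib]
  have key : ∀ x ∈ Finset.Icc (1 : ℤ) c,
      ((Finset.Icc (-(m : ℤ) + 1) m).filter fun v =>
        Even (crs (wl c m (rfc c m f)) x v)).card +
      ((Finset.Icc (-(m : ℤ) + 1) m).filter fun v => Even (crs (wl c m f) x v)).card = 2 * m := by
    intro x hx
    rw [Finset.mem_Icc] at hx
    have h1 : ((Finset.Icc (-(m : ℤ) + 1) m).filter fun v =>
        Even (crs (wl c m (rfc c m f)) x v)).card =
        ((Finset.Icc (-(m : ℤ) + 1) m).filter fun v => ¬ Even (crs (wl c m f) x v)).card := by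
      refine Finset.card_bij' (fun v _ => 1 - v) (fun v _ => 1 - v) ?_ ?_ ?_ ?_
      · intro v hv
        rw [Finset.mem_filter, Finset.mem_Icc] at hv ⊢
        refine ⟨by omega, ?_⟩
        have h2 := crs_refl x v (m + 1) (wl c m f) fun p hp => by
          have := wl_mem hc hf p hp; omega
        rw [← wl_rfc hf] at h2
        have h3 := wl_top hc hf hx.1 hx.2 (v := (m : ℤ) + 1) (by omega)
        rw [← h2, Nat.even_add] at h3
        tauto
      · intro v hv
        rw [Finset.mem_filter, Finset.mem_Icc] at hv ⊢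
        refine ⟨by omega, ?_⟩
        have h2 := crs_refl x (1 - v) (m + 1) (wl c m f) fun p hp => by
          have := wl_mem hc hf p hp; omega
        rw [← wl_rfc hf, sub_sub_cancel] at h2
        have h3 := wl_top hc hf hx.1 hx.2 (v := (m : ℤ) + 1) (by omega)
        rw [← h2, Nat.even_add] at h3
        tauto
      · intro v _; simp
      · intro v _; simp
    rw [h1, add_comm, Finset.card_filter_add_card_filter_not, Int.card_Icc]
    omega
  rw [Finset.sum_congr rfl key, Finset.sum_const, Int.card_Icc]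
  simp
  ring

end Pool.Agent.H88.Ust
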