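import Pool.Agent.H88.Ust.Lower

/-!
# Crossing numbers of lattice walks
-/

namespace Pool.Agent.H88.Ust

/-- Indicator of a step between the columns `x - 1` and `x` at a height `< v`. -/
def ind (a b : Pt) (x v : ℤ) : ℕ :=
  if a.2 = b.2 ∧ a.2 < v ∧ (a.1 + 1 = b.1 ∧ b.1 = x ∨ b.1 + 1 = a.1 ∧ a.1 = x) then 1 else 0

theorem crs_nil (x v : ℤ) : crs [] x v = 0 := rfl

theorem crs_single (a : Pt) (x v : ℤ) : crs [a] x v = 0 := rfl

theorem crs_cons (a b : Pt) (l : List Pt) (x v : ℤ) :
    crs (a :: b :: l) x v = ind a b x v + crs (b :: l) x v := rfl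

theorem crs_map_aux (φ : Pt → Pt) (x v x' v' : ℤ) (h : ∀ a b, ind (φ a) (φ b) x v = ind a b x' v')
    (l : List Pt) : crs (l.map φ) x v = crs l x' v' := by
  induction l with
  | nil => rfl
  | cons a l ih =>
    cases l with
    | nil => rfl
    | cons b l =>
      simp only [List.map_cons] at ih ⊢
      rw [crs_cons, crs_cons, h, ih]

theorem crs_shift (y : ℤ) (l : List Pt) (x v : ℤ) :
    crs (l.map fun p => (p.1, p.2 + y)) x v = crs l x (v - y) := by
  apply crs_map_aux
  intro a b
  unfold ind
  congr 1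
  simp only [eq_iff_iff]
  omega

theorem crs_mirror (c y : ℤ) (l : List Pt) (x v : ℤ) :
    crs (l.map fun p => (2 * c - p.1, p.2 + y)) x v = crs l (2 * c + 1 - x) (v - y) := by
  apply crs_map_aux
  intro a b
  unfold ind
  congr 1
  simp only [eq_iff_iff]
  omega

theorem ind_refl (a b : Pt) (x v V : ℤ) (h : a.2 < V) :
    ind (a.1, -a.2) (b.1, -b.2) x v + ind a b x (1 - v) = ind a b x V := by
  unfold ind
  simp only
  split_ifs <;> omega

theorem crs_refl (x v V : ℤ) (l : List Pt) (h : ∀ p ∈ l, p.2 < V) :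
    crs (l.map fun p => (p.1, -p.2)) x v + crs l x (1 - v) = crs l x V := by
  induction l with
  | nil => rfl
  | cons a l ih =>
    cases l with
    | nil => rfl
    | cons b l =>
      have ih := ih fun p hp => h p (List.mem_cons_of_mem _ hp)
      simp only [List.map_cons] at ih ⊢
      rw [crs_cons, crs_cons, crs_cons]
      have := ind_refl a b x v V (h a List.mem_cons_self)
      omega

theorem crs_low (x v : ℤ) (l : List Pt) (h : ∀ p ∈ l, v ≤ p.2) : crs l x v = 0 := by
  induction l with
  | nil => rfl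
  | cons a l ih =>
    cases l with
    | nil => rfl
    | cons b l =>
      have ih := ih fun p hp => h p (List.mem_cons_of_mem _ hp)
      rw [crs_cons, ih]
      have := h a List.mem_cons_self
      unfold ind
      rw [if_neg (by omega)]

theorem crs_right (x v : ℤ) (l : List Pt) (h : ∀ p ∈ l, x ≤ p.1) : crs l x v = 0 := by
  induction l with
  | nil => rfl
  | cons a l ih =>
    cases l with
    | nil => rfl
    | cons b l =>
      have ih := ih fun p hp => h p (List.mem_cons_of_mem _ hp)
      rw [crs_cons, ih]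
      have h1 := h a List.mem_cons_self
      have h2 := h b (List.mem_cons_of_mem _ List.mem_cons_self)
      unfold ind
      rw [if_neg (by omega)]

theorem crs_left (x v : ℤ) (l : List Pt) (h : ∀ p ∈ l, p.1 < x) : crs l x v = 0 := by
  induction l with
  | nil => rfl
  | cons a l ih =>
    cases l with
    | nil => rfl
    | cons b l =>
      have ih := ih fun p hp => h p (List.mem_cons_of_mem _ hp)
      rw [crs_cons, ih]
      have h1 := h a List.mem_cons_self
      have h2 := h b (List.mem_cons_of_mem _ List.mem_cons_self)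
      unfold ind
      rw [if_neg (by omega)]

theorem ind_nbr (d : Fin 4) (a : Pt) (x v : ℤ) (h : a.2 < v) :
    Even (ind a (nbr d a) x v) ↔ (a.1 < x ↔ (nbr d a).1 < x) := by
  unfold ind
  split_ifs with h1
  · simp only [Nat.not_even_one, false_iff]
    omega
  · have h0 : Even 0 := ⟨0, rfl⟩
    simp only [h0, true_iff]
    fin_cases d
    · simp only [nbr, true_and] at h1 ⊢; omega
    · simp only [nbr, true_and] at h1 ⊢; omega
    · simp only [nbr]
    · simp only [nbr]

section walk

variable {S : Finset Pt} {f : Pt → Fin 4} {p : Pt}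

theorem pl_cons_eq (h : LvAt nbr S f p) : ∃ t, pl nbr S f p = p :: t := by
  by_cases hp : p ∈ S
  · exact ⟨_, pl_mem h hp⟩
  · exact ⟨[], pl_not_mem hp⟩

theorem crs_cons_pl (h : LvAt nbr S f p) (a : Pt) (x v : ℤ) :
    crs (a :: pl nbr S f p) x v = ind a p x v + crs (pl nbr S f p) x v := by
  obtain ⟨t, ht⟩ := pl_cons_eq h
  rw [ht, crs_cons]

/-- Parity of the number of crossings of a column. -/
theorem crs_pl_top (x v : ℤ) : LvAt nbr S f p → (∀ q ∈ pl nbr S f p, q.2 < v) →
    (Even (crs (pl nbr S f p) x v) ↔ (p.1 < x ↔ (ex nbr S f p).1 < x)) := by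
  revert p
  apply lv_induct
  · intro p hp _
    rw [pl_not_mem hp, ex_not_mem hp, crs_single]
    simp
  · intro p hp hL ih hv
    rw [pl_mem hL hp] at hv
    have ih := ih fun q hq => hv q (List.mem_cons_of_mem _ hq)
    rw [pl_mem hL hp, crs_cons_pl ((LvAt.stp_iff hp).1 hL), Nat.even_add, ih, ex_mem hL hp]
    have := ind_nbr (f p) p x v (hv p List.mem_cons_self)
    rw [show stp nbr f p = nbr (f p) p from rfl, this]
    tauto

end walk

end Pool.Agent.H88.Ust
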