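import Pool.Agent.H88.Ust.Final

/-!
# The `2 × 2` grid, and the final inequality
-/

namespace Pool.Agent.H88.Ust

open SimpleGraph

theorem cnt_two : cnt nbr (faces (2 * 1)) ≤ 4 := by
  rw [cnt]
  have h : (AF nbr (faces (2 * 1))).card ≤ (Finset.univ : Finset (Fin 4)).card := by
    apply Finset.card_le_card_of_injOn (fun g => g (1, 1)) (fun _ _ => Finset.mem_coe.2 (Finset.mem_univ _))
    intro g hg g' hg' h
    rw [Finset.mem_coe, mem_AF] at hg hg'
    funext p
    by_cases hp : p ∈ faces (2 * 1)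
    · rw [mem_faces] at hp
      obtain ⟨p1, p2⟩ := p
      push_cast at hp
      have e1 : p1 = 1 := by omega
      have e2 : p2 = 1 := by omega
      rw [e1, e2]
      exact h
    · rw [hg.1 p hp, hg'.1 p hp]
  simpa using h

/-- The arrow to the left at the only face of the `2 × 2` grid. -/
def gg (p : Pt) : Fin 4 := if p = (1, 1) then 1 else 0

theorem mem_f2 : ((1, 1) : Pt) ∈ faces (2 * 1) := by
  rw [mem_faces]
  norm_num

theorem not_f2 {p : Pt} (h : p ≠ (1, 1)) : p ∉ faces (2 * 1) := by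
  rw [mem_faces]
  obtain ⟨p1, p2⟩ := p
  intro hp
  push_cast at hp
  apply h
  have e1 : p1 = 1 := by omega
  have e2 : p2 = 1 := by omega
  rw [e1, e2]

theorem gg_stp : stp nbr gg (1, 1) = (0, 1) := by
  simp [stp, gg, nbr]

theorem gg_leaves : Leaves nbr (faces (2 * 1)) gg := by
  intro p
  by_cases hp : p = (1, 1)
  · subst hp
    rw [LvAt.stp_iff mem_f2, gg_stp]
    exact lv_of_not_mem (not_f2 (by decide))
  · exact lv_of_not_mem (not_f2 hp)

theorem gg_lw : lw 1 gg 1 = [(1, 1), (0, 1)] := by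
  rw [lw]
  have h : (((1 : ℕ) : ℤ), (1 : ℤ)) = ((1, 1) : Pt) := rfl
  rw [h, pl_mem (gg_leaves _) mem_f2, gg_stp, pl_not_mem (not_f2 (by decide))]

theorem gg_rw : rw' 1 gg 1 = [(2, 1)] := by
  rw [rw']
  have h : (((1 : ℕ) : ℤ) + 1, (1 : ℤ)) = ((2, 1) : Pt) := rfl
  rw [h, pl_not_mem (not_f2 (by decide))]

theorem good_two : Good 1 1 gg where
  mem := by
    rw [mem_AF]
    refine ⟨fun p hp => ?_, gg_leaves⟩
    unfold gg
    rw [if_neg]
    rintro rfl
    exact hp mem_f2
  hy := by norm_num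
  lft := by
    rw [gg_lw]
    intro p hp
    simp only [List.mem_cons, List.not_mem_nil, or_false] at hp
    rcases hp with rfl | rfl <;> norm_num
  lex := by
    have h : (((1 : ℕ) : ℤ), (1 : ℤ)) = ((1, 1) : Pt) := rfl
    rw [h, ex_mem (gg_leaves _) mem_f2, gg_stp, ex_not_mem (not_f2 (by decide))]
  rgt := by
    rw [gg_rw]
    intro p hp
    simp only [List.mem_cons, List.not_mem_nil, or_false] at hp
    subst hp
    norm_num
  rex := by
    have h : (((1 : ℕ) : ℤ) + 1, (1 : ℤ)) = ((2, 1) : Pt) := rfl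
    rw [h, ex_not_mem (not_f2 (by decide))]
    norm_num
  area := by
    rw [gg_lw, gg_rw]
    decide

theorem main_ineq {c : ℕ} (hc : 1 ≤ c) :
    {T : SimpleGraph (Fin (2 * c) × Fin (2 * c)) | T ≤ grid (2 * c) ∧ T.IsTree}.ncard ≤
      256 * c ^ 2 * (balTrees (2 * c)).ncard := by
  have : NeZero (2 * c) := ⟨by omega⟩
  refine card_trees_le.trans ?_
  have hb := bal_lower (c := c)
  rcases Nat.lt_or_ge c 2 with h | h
  · obtain rfl : c = 1 := by omega
    have h1 := cnt_two
    have h2 : 1 ≤ (GQ 1).card := Finset.card_pos.2 ⟨((1 : ℤ), gg), mem_GQ.2 good_two⟩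
    omega
  · calc cnt nbr (faces (2 * c)) ≤ 512 * c ^ 3 * (GQ c).card := GQ_lower h
      _ = 256 * c ^ 2 * (2 * c * (GQ c).card) := by ring
      _ ≤ 256 * c ^ 2 * (balTrees (2 * c)).ncard := by gcongr

end Pool.Agent.H88.Ust
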