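import Pool.Agent.H88.Ust.Count

/-!
# Symmetries
-/

namespace Pool.Agent.H88.Ust

variable {P : Type*} [DecidableEq P] {nb : Fin 4 → P → P} {S T : Finset P} {f g : P → Fin 4}
  {x y z v : P}

/-- Transported configuration. -/
def tr (e : P ≃ P) (π : Fin 4 ≃ Fin 4) (S : Finset P) (f : P → Fin 4) : P → Fin 4 :=
  fun y => if e.symm y ∈ S then π (f (e.symm y)) else 0

theorem tr_walk (e : P ≃ P) (π : Fin 4 ≃ Fin 4) (h : ∀ d x, e (nb d x) = nb (π d) (e x)) :
    LvAt nb S f x → LvAt nb (S.map e.toEmbedding) (tr e π S f) (e x) ∧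
      ex nb (S.map e.toEmbedding) (tr e π S f) (e x) = e (ex nb S f x) ∧
      pl nb (S.map e.toEmbedding) (tr e π S f) (e x) = (pl nb S f x).map e := by
  revert x
  apply lv_induct
  · intro x hx
    have hx' : e x ∉ S.map e.toEmbedding := by
      intro hm
      rw [Finset.mem_map] at hm
      obtain ⟨a, ha, hae⟩ := hm
      exact hx (e.injective hae ▸ ha)
    exact ⟨lv_of_not_mem hx', by rw [ex_not_mem hx', ex_not_mem hx],
      by rw [pl_not_mem hx', pl_not_mem hx]; rfl⟩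
  · intro x hx hL ih
    have hx' : e x ∈ S.map e.toEmbedding := Finset.mem_map_of_mem _ hx
    have hst : stp nb (tr e π S f) (e x) = e (stp nb f x) := by
      rw [stp, stp, h, tr]
      simp [hx]
    rw [← hst] at ih
    have hL' := (LvAt.stp_iff (nb := nb) (f := tr e π S f) hx').2 ih.1
    refine ⟨hL', ?_, ?_⟩
    · rw [ex_mem hL' hx', ex_mem hL hx, ih.2.1]
    · rw [pl_mem hL' hx', pl_mem hL hx, ih.2.2]; rfl

theorem tr_mem (e : P ≃ P) (π : Fin 4 ≃ Fin 4) (h : ∀ d x, e (nb d x) = nb (π d) (e x))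
    (hf : f ∈ AF nb S) : tr e π S f ∈ AF nb (S.map e.toEmbedding) := by
  rw [mem_AF] at hf ⊢
  refine ⟨fun y hy => ?_, fun y => ?_⟩
  · refine if_neg fun hm => hy ?_
    rw [Finset.mem_map]
    exact ⟨_, hm, e.apply_symm_apply y⟩
  · have := (tr_walk (nb := nb) e π h (hf.2 (e.symm y))).1
    rwa [e.apply_symm_apply] at this

theorem tr_symm (e : P ≃ P) (π : Fin 4 ≃ Fin 4) (hf : f ∈ AF nb S) :
    tr e.symm π.symm (S.map e.toEmbedding) (tr e π S f) = f := by
  rw [mem_AF] at hf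
  funext x
  by_cases hx : x ∈ S
  · simp [tr, hx]
  · simp [tr, hx, hf.1 x hx]

theorem map_symm (e : P ≃ P) : (S.map e.toEmbedding).map e.symm.toEmbedding = S := by
  ext x
  simp [Finset.mem_map]

theorem symm_h {e : P ≃ P} {π : Fin 4 ≃ Fin 4} (h : ∀ d x, e (nb d x) = nb (π d) (e x)) :
    ∀ d x, e.symm (nb d x) = nb (π.symm d) (e.symm x) := by
  intro d x
  apply e.injective
  rw [e.apply_symm_apply, h, e.apply_symm_apply, π.apply_symm_apply]

theorem cnt_map (e : P ≃ P) (π : Fin 4 ≃ Fin 4) (h : ∀ d x, e (nb d x) = nb (π d) (e x)) :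
    cnt nb (S.map e.toEmbedding) = cnt nb S := by
  have key : ∀ (e : P ≃ P) (π : Fin 4 ≃ Fin 4) (_ : ∀ d x, e (nb d x) = nb (π d) (e x))
      (S : Finset P), cnt nb S ≤ cnt nb (S.map e.toEmbedding) := by
    intro e π h S
    refine Finset.card_le_card_of_injOn (tr e π S) (fun f hf => tr_mem e π h hf) ?_
    intro f hf g hg hfg
    rw [← tr_symm (nb := nb) e π hf, ← tr_symm (nb := nb) e π hg]
    exact congrArg _ hfg
  refine le_antisymm ?_ (key e π h S)
  have := key e.symm π.symm (symm_h h) (S.map e.toEmbedding)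
  rwa [map_symm] at this

end Pool.Agent.H88.Ust
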